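import Mathlib

/-!
# Free transversals

Let `f : D → Set D` be a set mapping with `#(f x) ≤ lam`, and let `Y p` (`p : P`, `#P ≤ lam`) be
sets of size greater than `2 ^ lam`.  Then one can choose `xi p ∈ Y p` outside a given set of size
at most `lam` such that `xi p ∉ f (xi q)` whenever `p ≠ q`.
-/

open Cardinal Order Set

namespace Pool.Agent.Sq

universe u

theorem mk_iUnion_le_of_le {D : Type u} {I : Type u} (F : I → Set D) (c : Cardinal.{u})
    (hc : ℵ₀ ≤ c) (hI : #I ≤ c) (hF : ∀ i, #(F i) ≤ c) : #(⋃ i, F i) ≤ c := by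
  have h1 : #(⋃ i, F i) ≤ #I * ⨆ i, #(F i) := mk_iUnion_le F
  have h2 : (⨆ i, #(F i)) ≤ c := ciSup_le' hF
  calc #(⋃ i, F i) ≤ #I * ⨆ i, #(F i) := h1
    _ ≤ c * c := mul_le_mul' hI h2
    _ = c := mul_eq_self hc

theorem mk_union_le_of_le {D : Type u} (S T : Set D) (c : Cardinal.{u})
    (hc : ℵ₀ ≤ c) (hS : #S ≤ c) (hT : #T ≤ c) : #(S ∪ T : Set D) ≤ c := by
  calc #(S ∪ T : Set D) ≤ #S + #T := mk_union_le S T
    _ ≤ c + c := add_le_add hS hT
    _ = c := add_eq_self hc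

/-- In the order type of `lam^+`, sets of size at most `lam` are strictly bounded. -/
theorem bdd_succ (lam : Cardinal.{u}) (hl : ℵ₀ ≤ lam) (S : Set (succ lam).ord.ToType)
    (hS : #S ≤ lam) : ∃ y, ∀ x ∈ S, x < y := by
  by_contra hcon
  push Not at hcon
  have hcof : IsCofinal S := fun y => by
    obtain ⟨x, hx, hxy⟩ := hcon y
    exact ⟨x, hx, hxy⟩
  have h1 := Order.cof_le hcof
  rw [Ordinal.cof_toType, (isRegular_succ hl).cof_ord] at h1
  exact absurd (h1.trans hS) (not_le.2 (lt_succ lam))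

theorem mk_Iio_succ (lam : Cardinal.{u}) (i : (succ lam).ord.ToType) : #(Iio i) ≤ lam := by
  have h : #(Iio i) < succ lam := by simpa using mk_Iio_lt i
  exact lt_succ_iff.1 h

theorem free_transversal {D : Type u} (lam : Cardinal.{u}) (hl : ℵ₀ ≤ lam) (f : D → Set D)
    (hf : ∀ x, #(f x) ≤ lam) {P : Type u} (hP : #P ≤ lam) (Y : P → Set D)
    (hY : ∀ p, 2 ^ lam < #(Y p)) (Q : Set D) (hQ : #Q ≤ lam) :
    ∃ xi : P → D, (∀ p, xi p ∈ Y p ∧ xi p ∉ Q) ∧ ∀ p q, p ≠ q → xi p ∉ f (xi q) := by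
  classical
  rcases isEmpty_or_nonempty P with hPe | hPn
  · exact ⟨fun p => (hPe.false p).elim, fun p => (hPe.false p).elim, fun p => (hPe.false p).elim⟩
  have hlt : lam < 2 ^ lam := cantor lam
  have h2 : ℵ₀ ≤ (2 : Cardinal.{u}) ^ lam := hl.trans hlt.le
  have hDn : Nonempty D := by
    obtain ⟨p⟩ := hPn
    have h1 : #(Y p) ≠ 0 := (zero_le.trans_lt (hY p)).ne'
    obtain ⟨x⟩ := mk_ne_zero_iff.1 h1
    exact ⟨x.1⟩
  -- choice function
  let Good : Set D → P → Set D → D → Prop := fun S p r x => x ∈ Y p ∧ x ∉ S ∧ x ∉ Q ∧ f x ∩ S = r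
  let c : Set D → P → Set D → D := fun S p r => Classical.epsilon (Good S p r)
  have hc : ∀ S p r x, Good S p r x → Good S p r (c S p r) := fun S p r x hx =>
    Classical.epsilon_spec (p := Good S p r) ⟨x, hx⟩
  let Sub : Set D → Type u := fun S => {t : Set D // t ⊆ S ∧ #t ≤ lam}
  let step : Set D → Set D := fun S =>
    S ∪ ⋃ x : P × Sub S, ({c S x.1 x.2.1} ∪ f (c S x.1 x.2.1))
  have hstep : ∀ S : Set D, #S ≤ 2 ^ lam → #(step S) ≤ 2 ^ lam := by
    intro S hS
    refine mk_union_le_of_le _ _ _ h2 hS ?_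
    refine mk_iUnion_le_of_le _ _ h2 ?_ ?_
    · have hs : #(Sub S) ≤ 2 ^ lam := by
        have h3 : #(Sub S) ≤ max #S ℵ₀ ^ lam := mk_bounded_subset_le S lam
        refine h3.trans ?_
        calc max #S ℵ₀ ^ lam ≤ (2 ^ lam) ^ lam := power_le_power_right (max_le hS h2)
          _ = 2 ^ (lam * lam) := (power_mul).symm
          _ = 2 ^ lam := by rw [mul_eq_self hl]
      rw [mk_prod, lift_id, lift_id]
      calc #P * #(Sub S) ≤ 2 ^ lam * 2 ^ lam := mul_le_mul' (hP.trans hlt.le) hs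
        _ = 2 ^ lam := mul_eq_self h2
    · intro x
      refine (mk_union_le_of_le _ _ _ hl ?_ (hf _)).trans hlt.le
      rw [mk_singleton]
      exact one_le_aleph0.trans hl
  -- the chain
  let J := (succ lam).ord.ToType
  let A : J → Set D := (wellFounded_lt (α := J)).fix
    (fun j ih => ⋃ i : Iio j, step (ih i.1 i.2))
  have hA : ∀ j, A j = ⋃ i : Iio j, step (A i.1) := fun j => WellFounded.fix_eq _ _ _
  have hAc : ∀ j, #(A j) ≤ 2 ^ lam := by
    intro j
    induction j using WellFoundedLT.induction with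
    | ind j ih =>
      rw [hA]
      refine mk_iUnion_le_of_le _ _ h2 ((mk_Iio_succ lam j).trans hlt.le) ?_
      intro i
      exact hstep _ (ih i.1 i.2)
  have hAstep : ∀ i j, i < j → step (A i) ⊆ A j := by
    intro i j hij
    rw [hA j]
    exact subset_iUnion (fun i : Iio j => step (A i.1)) ⟨i, hij⟩
  have hAmono : ∀ i j, i < j → A i ⊆ A j := fun i j hij =>
    (subset_union_left).trans (hAstep i j hij)
  have hAmono' : ∀ i j, i ≤ j → A i ⊆ A j := by
    intro i j hij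
    rcases hij.lt_or_eq with h | h
    · exact hAmono i j h
    · rw [h]
  let AA : Set D := ⋃ j, A j
  have hAA : #AA ≤ 2 ^ lam := by
    refine mk_iUnion_le_of_le _ _ h2 ?_ hAc
    have : #J = succ lam := by simp [J]
    rw [this]
    exact succ_le_of_lt hlt
  -- witnesses outside the chain
  have hw : ∀ p, ∃ x, x ∈ Y p ∧ x ∉ AA ∧ x ∉ Q := by
    intro p
    by_contra hcon
    push Not at hcon
    have hsub : Y p ⊆ AA ∪ Q := by
      intro x hx
      by_cases hxA : x ∈ AA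
      · exact Or.inl hxA
      · exact Or.inr (hcon x hx hxA)
    have h4 : #(Y p) ≤ 2 ^ lam := (mk_le_mk_of_subset hsub).trans
      (mk_union_le_of_le _ _ _ h2 hAA (hQ.trans hlt.le))
    exact absurd h4 (not_le.2 (hY p))
  choose xs hxs using hw
  let r : P → Set D := fun p => f (xs p) ∩ AA
  have hrc : ∀ p, #(r p) ≤ lam := fun p => (mk_le_mk_of_subset inter_subset_left).trans (hf _)
  let R : Set D := ⋃ p, r p
  have hRc : #R ≤ lam := mk_iUnion_le_of_le _ _ hl hP hrc
  have hRA : ∀ x : R, ∃ j, x.1 ∈ A j := by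
    rintro ⟨x, hx⟩
    obtain ⟨p, hp⟩ := mem_iUnion.1 hx
    exact mem_iUnion.1 hp.2
  choose jj hjj using hRA
  obtain ⟨j0, hj0⟩ := bdd_succ lam hl (range jj) (mk_range_le.trans hRc)
  have hRj : ∀ p, r p ⊆ A j0 := by
    intro p x hx
    have hxR : x ∈ R := mem_iUnion.2 ⟨p, hx⟩
    exact hAmono _ _ (hj0 _ ⟨⟨x, hxR⟩, rfl⟩) (hjj ⟨x, hxR⟩)
  -- injection into the end of J
  have hIci : lam ≤ #(Ici j0) := by
    by_contra hcon
    push Not at hcon
    have h5 : #J ≤ #(Iio j0) + #(Ici j0) := by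
      have h6 : (univ : Set J) = Iio j0 ∪ Ici j0 := Iio_union_Ici.symm
      rw [← mk_univ, h6]
      exact mk_union_le _ _
    have h7 : #J ≤ lam := h5.trans
      ((add_le_add (mk_Iio_succ lam j0) hcon.le).trans (add_eq_self hl).le)
    have h8 : #J = succ lam := by simp [J]
    rw [h8] at h7
    exact absurd h7 (not_le.2 (lt_succ lam))
  obtain ⟨io⟩ : Nonempty (P ↪ Ici j0) := le_def _ _ |>.1 (hP.trans hIci)
  let xi : P → D := fun p => c (A (io p).1) p (r p)
  have hgood : ∀ p, Good (A (io p).1) p (r p) (xi p) := by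
    intro p
    refine hc _ _ _ (xs p) ⟨(hxs p).1, ?_, (hxs p).2.2, ?_⟩
    · intro hx
      exact (hxs p).2.1 (mem_iUnion.2 ⟨_, hx⟩)
    · apply Subset.antisymm
      · exact inter_subset_inter_right _ (subset_iUnion A _)
      · intro x hx
        exact ⟨hx.1, hAmono' j0 _ (io p).2 (hRj p hx)⟩
  have hxiA : ∀ p j, (io p).1 < j → xi p ∈ A j ∧ f (xi p) ⊆ A j := by
    intro p j hj
    have hsub : r p ⊆ A (io p).1 := (hRj p).trans (hAmono' j0 _ (io p).2)
    have h9 : ({xi p} ∪ f (xi p) : Set D) ⊆ step (A (io p).1) := by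
      refine Subset.trans ?_ subset_union_right
      exact subset_iUnion (fun x : P × Sub (A (io p).1) =>
        ({c (A (io p).1) x.1 x.2.1} ∪ f (c (A (io p).1) x.1 x.2.1) : Set D))
        (p, ⟨r p, hsub, hrc p⟩)
    have h10 := h9.trans (hAstep _ j hj)
    exact ⟨h10 (Or.inl rfl), subset_union_right.trans h10⟩
  refine ⟨xi, fun p => ⟨(hgood p).1, (hgood p).2.2.1⟩, fun p q hpq => ?_⟩
  have hne : (io p).1 ≠ (io q).1 := fun h => hpq (io.injective (Subtype.ext h))
  rcases lt_or_gt_of_ne hne with h | h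
  · -- io p < io q
    intro hmem
    have h11 : xi p ∈ f (xi q) ∩ A (io q).1 := ⟨hmem, (hxiA p _ h).1⟩
    rw [(hgood q).2.2.2] at h11
    exact (hgood p).2.1 (hAmono' j0 _ (io p).2 (hRj q h11))
  · intro hmem
    exact (hgood p).2.1 ((hxiA q _ h).2 hmem)

end Pool.Agent.Sq
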