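import Mathlib

/-!
# A bound for three-point relations on colourings of pairs

`RR e` : for `x < y < z`, `e x z < e y z` or `e x z < e x y`.

We show that if `e` takes values in a well order of size `mu` in which countable sets are bounded
and proper initial segments have at most `mu` subsets, then no such `e` exists on an order
of type `mu^+`.
-/

open Cardinal Order Set

namespace Pool.Agent.Sq

universe u

variable {Om : Type u} {M : Type u} [LinearOrder Om] [WellFoundedLT Om]
  [LinearOrder M] [WellFoundedLT M]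

/-- The three-point condition. -/
def RR (e : Om → Om → M) : Prop :=
  ∀ x y z, x < y → y < z → e x z < e y z ∨ e x z < e x y

/-- The predecessors of `z` in the end-homogeneous tree of `e`. -/
noncomputable def Tr (e : Om → Om → M) : Om → Set Om :=
  (wellFounded_lt (α := Om)).fix
    (fun z ih => {y | ∃ h : y < z, ∀ x ∈ ih y h, e x y = e x z})

theorem mem_Tr {e : Om → Om → M} {y z : Om} :
    y ∈ Tr e z ↔ y < z ∧ ∀ x ∈ Tr e y, e x y = e x z := by
  conv_lhs => rw [Tr, WellFounded.fix_eq]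
  constructor
  · rintro ⟨h, h2⟩
    exact ⟨h, h2⟩
  · rintro ⟨h, h2⟩
    exact ⟨h, h2⟩

theorem Tr_lt {e : Om → Om → M} {y z : Om} (h : y ∈ Tr e z) : y < z := (mem_Tr.1 h).1

theorem Tr_eq {e : Om → Om → M} {x y z : Om} (h : y ∈ Tr e z) (hx : x ∈ Tr e y) :
    e x y = e x z := (mem_Tr.1 h).2 x hx

/-- transitivity -/
theorem Tr_trans {e : Om → Om → M} (u : Om) :
    ∀ v x, v ∈ Tr e u → u ∈ Tr e x → v ∈ Tr e x := by
  induction u using WellFoundedLT.induction with
  | ind u ih =>
    intro v x hvu hux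
    rw [mem_Tr]
    refine ⟨(Tr_lt hvu).trans (Tr_lt hux), fun y hy => ?_⟩
    have hyu : y ∈ Tr e u := ih v (Tr_lt hvu) y u hy hvu
    rw [Tr_eq hvu hy, Tr_eq hux hyu]

/-- the predecessors of a node are linearly ordered in the tree order -/
theorem Tr_lin {e : Om → Om → M} {y z : Om} (hy : y ∈ Tr e z) :
    ∀ x, x ∈ Tr e z → x < y → x ∈ Tr e y := by
  intro x
  induction x using WellFoundedLT.induction with
  | ind x ih =>
    intro hx hxy
    rw [mem_Tr]
    refine ⟨hxy, fun v hv => ?_⟩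
    have hvz : v ∈ Tr e z := Tr_trans x v z hv hx
    have hvy : v ∈ Tr e y := ih v (Tr_lt hv) hvz ((Tr_lt hv).trans hxy)
    rw [Tr_eq hx hv, Tr_eq hy hvy]

theorem Tr_mono {e : Om → Om → M} (he : RR e) {x y z : Om} (hx : x ∈ Tr e z) (hy : y ∈ Tr e z)
    (hxy : x < y) : e x z < e y z := by
  have h1 : x ∈ Tr e y := Tr_lin hy x hx hxy
  have h2 : e x y = e x z := Tr_eq hy h1
  rcases he x y z hxy (Tr_lt hy) with h | h
  · exact h
  · rw [h2] at h
    exact absurd h (lt_irrefl _)

/-- The set of values along the branch below `z`. -/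
def Val (e : Om → Om → M) (z : Om) : Set M := {c | ∃ y ∈ Tr e z, e y z = c}

theorem Val_inj_aux {e : Om → Om → M} (he : RR e) {z z' : Om} (hzz : z < z')
    (hV : Val e z = Val e z') : ∀ y, y ∈ Tr e z → y ∈ Tr e z' ∧ e y z = e y z' := by
  intro y
  induction y using WellFoundedLT.induction with
  | ind y ih =>
    intro hy
    have hc : e y z ∈ Val e z' := hV ▸ ⟨y, hy, rfl⟩
    obtain ⟨y', hy', hyc⟩ := hc
    have key : ∀ x, x ∈ Tr e y ↔ x ∈ Tr e y' := by
      intro x
      constructor
      · intro hx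
        have hxz : x ∈ Tr e z := Tr_trans y x z hx hy
        have h1 := ih x (Tr_lt hx) hxz
        have h2 : e x z < e y z := Tr_mono he hxz hy (Tr_lt hx)
        rw [h1.2, ← hyc] at h2
        have h3 : x < y' := by
          by_contra hcon
          rcases lt_or_eq_of_le (not_lt.1 hcon) with h | h
          · exact absurd (h2.trans (Tr_mono he hy' h1.1 h)) (lt_irrefl _)
          · rw [h] at h2
            exact absurd h2 (lt_irrefl _)
        exact Tr_lin hy' x h1.1 h3
      · intro hx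
        have hxz' : x ∈ Tr e z' := Tr_trans y' x z' hx hy'
        have h2 : e x z' < e y' z' := Tr_mono he hxz' hy' (Tr_lt hx)
        rw [hyc] at h2
        have hcx : e x z' ∈ Val e z := hV ▸ ⟨x, hxz', rfl⟩
        obtain ⟨w, hw, hwc⟩ := hcx
        rw [← hwc] at h2
        have hwy : w < y := by
          by_contra hcon
          rcases lt_or_eq_of_le (not_lt.1 hcon) with h | h
          · exact absurd (h2.trans (Tr_mono he hy hw h)) (lt_irrefl _)
          · rw [h] at h2
            exact absurd h2 (lt_irrefl _)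
        have h4 := ih w hwy hw
        rw [h4.2] at hwc
        have hwx : w = x := by
          rcases lt_trichotomy w x with h | h | h
          · exact absurd (hwc ▸ Tr_mono he h4.1 hxz' h) (lt_irrefl _)
          · exact h
          · exact absurd (hwc ▸ Tr_mono he hxz' h4.1 h) (lt_irrefl _)
        rw [← hwx]
        exact Tr_lin hy w hw hwy
    have key2 : ∀ x, x ∈ Tr e y → e x y = e x y' := by
      intro x hx
      have hxz : x ∈ Tr e z := Tr_trans y x z hx hy
      have h1 := ih x (Tr_lt hx) hxz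
      rw [Tr_eq hy hx, h1.2, Tr_eq hy' ((key x).1 hx)]
    have hyy : y = y' := by
      rcases lt_trichotomy y y' with h | h | h
      · have : y ∈ Tr e y' := mem_Tr.2 ⟨h, key2⟩
        exact absurd (Tr_lt ((key y).2 this)) (lt_irrefl _)
      · exact h
      · have : y' ∈ Tr e y := mem_Tr.2 ⟨h, fun x hx => (key2 x ((key x).2 hx)).symm⟩
        exact absurd (Tr_lt ((key y').1 this)) (lt_irrefl _)
    rw [← hyy] at hy' hyc
    exact ⟨hy', hyc.symm⟩

theorem Val_ne {e : Om → Om → M} (he : RR e) {z z' : Om} (hzz : z < z') :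
    Val e z ≠ Val e z' := by
  intro hV
  have h := Val_inj_aux he hzz hV
  have hz : z ∈ Tr e z' := mem_Tr.2 ⟨hzz, fun x hx => (h x hx).2⟩
  have hc : e z z' ∈ Val e z := hV ▸ ⟨z, hz, rfl⟩
  obtain ⟨y, hy, hyc⟩ := hc
  have h1 := h y hy
  have h2 := Tr_mono he h1.1 hz (Tr_lt hy)
  rw [← h1.2, hyc] at h2
  exact absurd h2 (lt_irrefl _)

theorem Val_inj {e : Om → Om → M} (he : RR e) : Function.Injective (Val e) := by
  intro z z' h
  rcases lt_trichotomy z z' with h1 | h1 | h1
  · exact absurd h (Val_ne he h1)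
  · exact h1
  · exact absurd h.symm (Val_ne he h1)

/-- If the values of `e` are bounded by `b`, the order has at most `2 ^ #(Iic b)` elements. -/
theorem card_le_of_bounded {e : Om → Om → M} (he : RR e) (b : M)
    (hb : ∀ x y, x < y → e x y ≤ b) : #Om ≤ 2 ^ #(Iic b) := by
  rw [← mk_set]
  let F : Om → Set (Iic b) := fun z => {c | (c : M) ∈ Val e z}
  have hF : Function.Injective F := by
    intro z z' h
    apply Val_inj he
    have hsub : ∀ w, Val e w ⊆ Iic b := by
      rintro w c ⟨y, hy, rfl⟩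
      exact hb y w (Tr_lt hy)
    ext c
    constructor
    · intro hc
      have h1 : (⟨c, hsub z hc⟩ : Iic b) ∈ F z := hc
      rw [h] at h1
      exact h1
    · intro hc
      have h1 : (⟨c, hsub z' hc⟩ : Iic b) ∈ F z' := hc
      rw [← h] at h1
      exact h1
  exact mk_le_of_injective hF

/-- Below the first term of an increasing sequence bounded by `z`, the values `e x z` are
bounded. -/
theorem bounded_of_seq {e : Om → Om → M} (he : RR e)
    (hM : ∀ f : ℕ → M, ∃ nu, ∀ k, f k ≤ nu) (zs : ℕ → Om) (hzs : ∀ k, zs k < zs (k + 1))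
    (z : Om) (hz : ∀ k, zs k < z) : ∃ nu, ∀ x, x < zs 0 → e x z ≤ nu := by
  obtain ⟨nu1, h1⟩ := hM (fun k => e (zs k) z)
  obtain ⟨nu2, h2⟩ := hM (fun k => e (zs k) (zs (k + 1)))
  refine ⟨max nu1 nu2, fun x hx => ?_⟩
  by_contra hcon
  push Not at hcon
  have hxk : ∀ k, x < zs k := by
    intro k
    induction k with
    | zero => exact hx
    | succ k ih => exact ih.trans (hzs k)
  have hk : ∀ k, max nu1 nu2 < e x (zs k) := by
    intro k
    rcases he x (zs k) z (hxk k) (hz k) with h | h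
    · exact absurd (h.trans_le ((h1 k).trans (le_max_left _ _))) (not_lt.2 hcon.le)
    · exact hcon.trans h
  have hdec : ∀ k, e x (zs (k + 1)) < e x (zs k) := by
    intro k
    rcases he x (zs k) (zs (k + 1)) (hxk k) (hzs k) with h | h
    · exact absurd (h.trans_le ((h2 k).trans (le_max_right _ _))) (not_lt.2 (hk (k + 1)).le)
    · exact h
  exact (RelEmbedding.not_wellFounded
    (RelEmbedding.natGT (r := (· < ·)) (fun k => e x (zs k)) hdec)) wellFounded_lt

/-- The main impossibility statement for the three-point condition. -/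
theorem not_RR (mu : Cardinal.{u}) (hmu : ℵ₀ ≤ mu)
    (hO1 : ∀ i : Om, #(Iio i) ≤ mu) (hO2 : ∀ S : Set Om, #S ≤ mu → ∃ y, ∀ x ∈ S, x < y)
    (hO3 : mu < #Om) (hM1 : #M ≤ mu) (hM2 : ∀ f : ℕ → M, ∃ nu, ∀ k, f k ≤ nu)
    (hM3 : ∀ b : M, 2 ^ #(Iic b) ≤ mu) (e : Om → Om → M) : ¬ RR e := by
  classical
  intro he
  have hmax : ∀ y : Om, ∃ z, y < z := by
    intro y
    obtain ⟨z, hz⟩ := hO2 {y} (by simpa using (one_le_aleph0.trans hmu))
    exact ⟨z, hz y rfl⟩
  choose sc hsc using hmax
  -- pigeonhole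
  have pig : ∀ F : Om → M, ∃ b, ∀ y, ∃ z, y < z ∧ F z = b := by
    intro F
    by_contra hcon
    push Not at hcon
    choose yb hyb using hcon
    obtain ⟨y, hy⟩ := hO2 (range yb) (mk_range_le.trans hM1)
    exact hyb (F (sc y)) (sc y) ((hy _ ⟨_, rfl⟩).trans (hsc y)) rfl
  -- step 1
  have step1 : ∀ z0 : Om, ∃ y0, ∀ z, y0 < z → ∃ nu, ∀ x, x < z0 → e x z ≤ nu := by
    intro z0
    let zs : ℕ → Om := fun k => sc^[k] z0
    have hzs : ∀ k, zs k < zs (k + 1) := by
      intro k
      change sc^[k] z0 < sc^[k + 1] z0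
      rw [Function.iterate_succ_apply']
      exact hsc _
    obtain ⟨y0, hy0⟩ := hO2 (range zs) (by
      have h1 : (range zs).Countable := countable_range zs
      exact (le_aleph0_iff_set_countable.2 h1).trans hmu)
    exact ⟨y0, fun z hz => bounded_of_seq he hM2 zs hzs z (fun k => (hy0 _ ⟨k, rfl⟩).trans hz)⟩
  choose y0 hy0 using step1
  -- step 2
  have step2 : ∀ z0 : Om, ∃ b, ∀ y, ∃ z, y < z ∧ ∀ x, x < z0 → e x z ≤ b := by
    intro z0
    obtain ⟨b, hb⟩ := pig (fun z => if h : y0 z0 < z then (hy0 z0 z h).choose else e z0 z0)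
    refine ⟨b, fun y => ?_⟩
    obtain ⟨z, hz1, hz2⟩ := hb (max y (y0 z0))
    have h3 : y0 z0 < z := (le_max_right _ _).trans_lt hz1
    refine ⟨z, (le_max_left _ _).trans_lt hz1, fun x hx => ?_⟩
    rw [dif_pos h3] at hz2
    rw [← hz2]
    exact (hy0 z0 z h3).choose_spec x hx
  choose b0 hb0 using step2
  obtain ⟨b, hb⟩ := pig b0
  have step3 : ∀ w y : Om, ∃ z, y < z ∧ ∀ x, x < w → e x z ≤ b := by
    intro w y
    obtain ⟨z0, hz0, hz1⟩ := hb w
    obtain ⟨z, hz2, hz3⟩ := hb0 z0 y
    exact ⟨z, hz2, fun x hx => hz1 ▸ hz3 x (hx.trans hz0)⟩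
  have step4 : ∀ S : Set Om, #S ≤ mu → ∃ z, ∀ x ∈ S, x < z ∧ e x z ≤ b := by
    intro S hS
    obtain ⟨y, hy⟩ := hO2 S hS
    obtain ⟨z, hz1, hz2⟩ := step3 y y
    exact ⟨z, fun x hx => ⟨(hy x hx).trans hz1, hz2 x (hy x hx)⟩⟩
  have hne : Nonempty Om := by
    have : #Om ≠ 0 := (zero_le.trans_lt hO3).ne'
    exact mk_ne_zero_iff.1 this
  let pick : Set Om → Om := fun S =>
    if h : ∃ z, ∀ x ∈ S, x < z ∧ e x z ≤ b then h.choose else Classical.arbitrary Om
  have hpick : ∀ S : Set Om, #S ≤ mu → ∀ x ∈ S, x < pick S ∧ e x (pick S) ≤ b := by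
    intro S hS
    have h := step4 S hS
    have h2 : pick S = h.choose := dif_pos h
    rw [h2]
    exact h.choose_spec
  let g : Om → Om := (wellFounded_lt (α := Om)).fix
    (fun i ih => pick (range (fun j : Iio i => ih j.1 j.2)))
  have hg : ∀ i, g i = pick (range (fun j : Iio i => g j.1)) := by
    intro i
    exact WellFounded.fix_eq _ _ _
  have hg2 : ∀ j i, j < i → g j < g i ∧ e (g j) (g i) ≤ b := by
    intro j i hji
    rw [hg i]
    exact hpick _ (mk_range_le.trans (hO1 i)) (g j) ⟨⟨j, hji⟩, rfl⟩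
  have he' : RR (fun j i => e (g j) (g i)) := by
    intro x y z hxy hyz
    exact he (g x) (g y) (g z) (hg2 x y hxy).1 (hg2 y z hyz).1
  have hfin := card_le_of_bounded he' b (fun x y hxy => (hg2 x y hxy).2)
  exact absurd (hO3.trans_le (hfin.trans (hM3 b))) (lt_irrefl _)

end Pool.Agent.Sq
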