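import Mathlib
import Pool.Agent.helper81.SqTree
import Pool.Agent.helper81.SqFT

/-!
# The recursive construction of the sets `N z n`
-/

open Cardinal Order Set

namespace Pool.Agent.Sq

universe u

section
variable {V : Type u} {M : Type u} [LinearOrder V] [WellFoundedLT V]
  [LinearOrder M] [WellFoundedLT M]

/-- The requirements on the value `v` of `N z n`, in terms of the earlier values of `N`. -/
structure Good (lam : M → Cardinal.{u}) (kappa : Cardinal.{u}) (Z : V → M → Set V)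
    (idx : Set V → V) (N : V → M → Set V) (z : V) (n : M) (v : Set V) : Prop where
  sub : v ⊆ Iio z
  card : #v ≤ lam n
  meet : ∀ X : Set V, #X = kappa → X ⊆ Iio z → idx X ∈ Z z n → (v ∩ X).Nonempty
  free : ∀ x ∈ v, ∀ w ∈ v, x ≠ w → ∀ k, k ≤ n → x ∉ N w k
  low : ∀ m, m < n → ∀ w ∈ N z m, ∀ x ∈ v, ∀ k, k ≤ n → x ∉ N w k

theorem stage {lam : M → Cardinal.{u}} {kappa : Cardinal.{u}} {Z : V → M → Set V}
    {idx : Set V → V} (hlam : ∀ n, ℵ₀ ≤ lam n) (hmono : ∀ k n, k ≤ n → lam k ≤ lam n)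
    (hM : ∀ n : M, #(Iic n) ≤ lam n) (hZ : ∀ z n, #(Z z n) ≤ lam n)
    (hk : ∀ n, 2 ^ lam n < kappa) (hidx : InjOn idx {X | #X = kappa})
    (N : V → M → Set V) (hN : ∀ w k, #(N w k) ≤ lam k) (z : V) (n : M) :
    ∃ v, Good lam kappa Z idx N z n v := by
  let f : V → Set V := fun w => ⋃ k : Iic n, N w k.1
  have hf : ∀ w, #(f w) ≤ lam n := fun w =>
    mk_iUnion_le_of_le _ _ (hlam n) (hM n) (fun k => (hN w k.1).trans (hmono _ _ k.2))
  let P : Type u := {X : Set V // #X = kappa ∧ X ⊆ Iio z ∧ idx X ∈ Z z n}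
  have hP : #P ≤ lam n := by
    refine le_trans ?_ (hZ z n)
    refine mk_le_of_injective (f := fun X : P => (⟨idx X.1, X.2.2.2⟩ : Z z n)) ?_
    intro X X' h
    have h1 : idx X.1 = idx X'.1 := congrArg Subtype.val h
    exact Subtype.ext (hidx X.2.1 X'.2.1 h1)
  let Q : Set V := ⋃ m : Iio n, ⋃ w : N z m.1, f w.1
  have hIio : #(Iio n) ≤ lam n := (mk_le_mk_of_subset Iio_subset_Iic_self).trans (hM n)
  have hQ : #Q ≤ lam n := by
    refine mk_iUnion_le_of_le _ _ (hlam n) hIio (fun m => ?_)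
    exact mk_iUnion_le_of_le _ _ (hlam n) ((hN z m.1).trans (hmono _ _ (le_of_lt m.2)))
      (fun w => hf w.1)
  obtain ⟨xi, h1, h2⟩ := free_transversal (lam n) (hlam n) f hf hP (fun X => X.1)
    (fun X => by rw [X.2.1]; exact hk n) Q hQ
  refine ⟨range xi, ?_, ?_, ?_, ?_, ?_⟩
  · rintro x ⟨X, rfl⟩
    exact X.2.2.1 (h1 X).1
  · exact mk_range_le.trans hP
  · intro X hX1 hX2 hX3
    exact ⟨xi ⟨X, hX1, hX2, hX3⟩, ⟨_, rfl⟩, (h1 ⟨X, hX1, hX2, hX3⟩).1⟩
  · rintro x ⟨X, rfl⟩ w ⟨X', rfl⟩ hne k hkn hmem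
    refine h2 X X' (fun h => hne (by rw [h])) ?_
    exact mem_iUnion.2 ⟨⟨k, hkn⟩, hmem⟩
  · rintro m hm w hw x ⟨X, rfl⟩ k hkn hmem
    refine (h1 X).2 ?_
    refine mem_iUnion.2 ⟨⟨m, hm⟩, mem_iUnion.2 ⟨⟨w, hw⟩, ?_⟩⟩
    exact mem_iUnion.2 ⟨⟨k, hkn⟩, hmem⟩

theorem build {lam : M → Cardinal.{u}} {kappa : Cardinal.{u}} {Z : V → M → Set V}
    {idx : Set V → V} (hlam : ∀ n, ℵ₀ ≤ lam n) (hmono : ∀ k n, k ≤ n → lam k ≤ lam n)
    (hM : ∀ n : M, #(Iic n) ≤ lam n) (hZ : ∀ z n, #(Z z n) ≤ lam n)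
    (hk : ∀ n, 2 ^ lam n < kappa) (hidx : InjOn idx {X | #X = kappa}) :
    ∃ N : V → M → Set V, ∀ z n, Good lam kappa Z idx N z n (N z n) := by
  classical
  let R : V × M → V × M → Prop := Prod.Lex (· < ·) (· < ·)
  have hR : WellFounded R := WellFounded.prod_lex wellFounded_lt wellFounded_lt
  let pick : (V → M → Set V) → V → M → Set V := fun N z n =>
    if h : ∃ v, Good lam kappa Z idx N z n v then h.choose else ∅
  have hpick : ∀ N z n, (∃ v, Good lam kappa Z idx N z n v) →
      Good lam kappa Z idx N z n (pick N z n) := by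
    intro N z n h
    have h2 : pick N z n = h.choose := dif_pos h
    rw [h2]
    exact h.choose_spec
  let F : V × M → Set V := hR.fix (fun a ih =>
    pick (fun w k => if h : R (w, k) a then ih (w, k) h else ∅) a.1 a.2)
  have hF : ∀ z n, F (z, n) =
      pick (fun w k => if R (w, k) (z, n) then F (w, k) else ∅) z n := by
    intro z n
    have h1 := hR.fix_eq (fun (a : V × M) (ih : ∀ b, R b a → Set V) =>
      pick (fun w k => if h : R (w, k) a then ih (w, k) h else ∅) a.1 a.2) (z, n)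
    refine h1.trans ?_
    congr 1
  have main : ∀ a : V × M, Good lam kappa Z idx (fun w k => F (w, k)) a.1 a.2 (F a) := by
    intro a
    induction a using hR.induction with
    | _ a ih =>
      obtain ⟨z, n⟩ := a
      have hcut : ∀ w k, #((if R (w, k) (z, n) then F (w, k) else ∅ : Set V)) ≤ lam k := by
        intro w k
        by_cases h : R (w, k) (z, n)
        · rw [if_pos h]
          exact (ih (w, k) h).card
        · rw [if_neg h]
          simp
      have hg := hpick _ z n (stage hlam hmono hM hZ hk hidx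
        (fun w k => if R (w, k) (z, n) then F (w, k) else ∅) hcut z n)
      rw [← hF z n] at hg
      have hlt : ∀ w k, w < z → (if R (w, k) (z, n) then F (w, k) else ∅ : Set V) = F (w, k) := by
        intro w k hw
        exact if_pos (Prod.Lex.left _ _ hw)
      refine ⟨hg.sub, hg.card, hg.meet, ?_, ?_⟩
      · intro x hx w hw hne k hkn
        have h3 := hg.free x hx w hw hne k hkn
        simp only [hlt w k (hg.sub hw)] at h3
        exact h3
      · intro m hm w hw x hx k hkn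
        have hRm : R (z, m) (z, n) := Prod.Lex.right _ hm
        have hw' : w ∈ (if R (z, m) (z, n) then F (z, m) else ∅ : Set V) := by
          rw [if_pos hRm]
          exact hw
        have h3 := hg.low m hm w hw' x hx k hkn
        have hwz : w < z := (ih (z, m) hRm).sub hw
        simp only [hlt w k hwz] at h3
        exact h3
  exact ⟨fun w k => F (w, k), fun z n => main (z, n)⟩

end

end Pool.Agent.Sq
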