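import Mathlib

/-!
# The square-bracket relation R(kappa)

`SqR κ` is the relation `κ⁺ → [G_κ, cf(κ)⁺]²` of the problem MP_0cbb3c_lc.  The set `κ⁺` is
represented by the well-ordered type `(succ κ).ord.ToType`, whose order type is the initial
ordinal of `κ⁺`.  A colouring of the pairs is a function on `Sym2`; its values on the diagonal
are never used.
-/

open Cardinal Order

namespace Pool.Agent.Sq

universe u

/-- The relation `R(κ)`: every 2-colouring `f` of the pairs of `κ⁺` has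

1. sets `A, B ⊆ κ⁺` of size `κ⁺` and an injection `φ : A ∪ B → κ⁺` such that all pairs
   `{φ ξ, φ η}` with `ξ ∈ A`, `η ∈ B`, `ξ < η` have colour 1; or
2. a set `H ⊆ κ⁺` of size `cf(κ)⁺` all of whose pairs have colour 0. -/
def SqR (κ : Cardinal.{u}) : Prop :=
  ∀ f : Sym2 (succ κ).ord.ToType → Fin 2,
    (∃ A B : Set (succ κ).ord.ToType, #A = succ κ ∧ #B = succ κ ∧
      ∃ φ : (succ κ).ord.ToType → (succ κ).ord.ToType, Set.InjOn φ (A ∪ B) ∧
        ∀ ξ ∈ A, ∀ η ∈ B, ξ < η → f s(φ ξ, φ η) = 1) ∨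
    (∃ H : Set (succ κ).ord.ToType, #H = succ κ.ord.cof ∧
      ∀ ξ ∈ H, ∀ η ∈ H, ξ ≠ η → f s(ξ, η) = 0)

end Pool.Agent.Sq
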