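import Mathlib
import Pool.Agent.helper81.SqBuild
import Pool.Agent.helper81.SqDefs

/-!
# The relation R(kappa) fails at singular cardinals of uncountable cofinality
-/

open Cardinal Order Set

namespace Pool.Agent.Sq

universe u

/-- In the order type of an uncountable regular cardinal, countable sets are bounded. -/
theorem seq_bdd (mu : Cardinal.{u}) (hmu : ℵ₀ < mu) (hreg : mu.ord.cof = mu)
    (f : ℕ → mu.ord.ToType) : ∃ nu, ∀ k, f k ≤ nu := by
  by_contra hcon
  push Not at hcon
  have hcof : IsCofinal (range f) := fun y => by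
    obtain ⟨k, hk⟩ := hcon y
    exact ⟨f k, ⟨k, rfl⟩, hk.le⟩
  have h1 := Order.cof_le hcof
  rw [Ordinal.cof_toType, hreg] at h1
  have h2 : #(range f) ≤ ℵ₀ := le_aleph0_iff_set_countable.2 (countable_range f)
  exact absurd (h1.trans h2) (not_le.2 hmu)

/-- The data used in the construction. -/
theorem data (kappa : Cardinal.{u}) (hk0 : ℵ₀ ≤ kappa) (hc : kappa.ord.cof < kappa)
    (hcof : ℵ₀ ≤ kappa.ord.cof) :
    ∃ (lam : kappa.ord.cof.ord.ToType → Cardinal.{u})
      (Z : (succ kappa).ord.ToType → kappa.ord.cof.ord.ToType → Set (succ kappa).ord.ToType),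
      (∀ n, ℵ₀ ≤ lam n) ∧ (∀ k n, k ≤ n → lam k ≤ lam n) ∧ (∀ n, #(Iic n) ≤ lam n) ∧
      (∀ z n, #(Z z n) ≤ lam n) ∧ (∀ n, lam n < kappa) ∧
      (∀ z x, x < z → ∃ n, x ∈ Z z n) := by
  classical
  set mu := kappa.ord.cof with hmu
  let M := mu.ord.ToType
  let K := kappa.ord.ToType
  let V := (succ kappa).ord.ToType
  have hK : #K = kappa := by simp [K]
  obtain ⟨s, hs1, hs2⟩ := Order.exists_cof_eq K
  have hs3 : #s = mu := by rw [hs2]; simp [K, hmu]
  have hMs : #M = #s := by rw [hs3]; simp [M]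
  obtain ⟨ge⟩ := Cardinal.eq.1 hMs
  let g : M → K := fun m => (ge m).1
  have hg : ∀ x : K, ∃ m, x ≤ g m := by
    intro x
    obtain ⟨y, hy, hxy⟩ := hs1 x
    refine ⟨ge.symm ⟨y, hy⟩, ?_⟩
    simpa [g] using hxy
  let I : M → Set K := fun n => ⋃ m : Iic n, Iic (g m.1)
  have hImono : ∀ k n, k ≤ n → I k ⊆ I n := by
    intro k n hkn x hx
    obtain ⟨m, hm⟩ := mem_iUnion.1 hx
    exact mem_iUnion.2 ⟨⟨m.1, le_trans (mem_Iic.1 m.2) hkn⟩, hm⟩
  have hIall : ∀ x, ∃ n, x ∈ I n := by
    intro x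
    obtain ⟨m, hm⟩ := hg x
    exact ⟨m, mem_iUnion.2 ⟨⟨m, mem_Iic.2 le_rfl⟩, hm⟩⟩
  have hMn : ∀ n : M, #(Iic n) < mu := by
    intro n
    have h : #(Iic n) < #M := mk_Iic_lt n (by simp [M]) (by simpa [M] using hcof)
    simpa [M] using h
  have hI : ∀ n, #(I n) < kappa := by
    intro n
    have hnc : ¬ IsCofinal (range (fun m : Iic n => g m.1)) := by
      intro hcon
      have h1 := Order.cof_le hcon
      have h2 : Order.cof K = mu := by simp [K, hmu]
      rw [h2] at h1
      exact absurd (h1.trans mk_range_le) (not_le.2 (hMn n))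
    have h3 : ∃ x : K, ∀ m : Iic n, g m.1 < x := by
      by_contra hcon
      push Not at hcon
      apply hnc
      intro x
      obtain ⟨m, hm⟩ := hcon x
      exact ⟨_, ⟨m, rfl⟩, hm⟩
    obtain ⟨x, hx⟩ := h3
    have h4 : I n ⊆ Iio x := by
      intro y hy
      obtain ⟨m, hm⟩ := mem_iUnion.1 hy
      exact lt_of_le_of_lt hm (hx m)
    have h5 : #(Iio x) < kappa := by simpa [K] using mk_Iio_lt x (by simp [K])
    exact (mk_le_mk_of_subset h4).trans_lt h5
  have hj : ∀ z : V, Nonempty (Iio z ↪ K) := by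
    intro z
    have h1 : #(Iio z) ≤ #K := by
      rw [hK]
      exact mk_Iio_succ kappa z
    exact (le_def _ _).1 h1
  let j : ∀ z : V, Iio z ↪ K := fun z => (hj z).some
  refine ⟨fun n => max mu #(I n), fun z n => {x | ∃ h : x < z, j z ⟨x, h⟩ ∈ I n}, ?_, ?_, ?_, ?_,
    ?_, ?_⟩
  · exact fun n => hcof.trans (le_max_left _ _)
  · exact fun k n hkn => max_le_max le_rfl (mk_le_mk_of_subset (hImono k n hkn))
  · exact fun n => (hMn n).le.trans (le_max_left _ _)
  · intro z n
    refine le_trans ?_ (le_max_right _ _)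
    refine mk_le_of_injective (f := fun x : {x | ∃ h : x < z, j z ⟨x, h⟩ ∈ I n} =>
      (⟨j z ⟨x.1, x.2.choose⟩, x.2.choose_spec⟩ : I n)) ?_
    intro x y hxy
    have h1 : j z ⟨x.1, x.2.choose⟩ = j z ⟨y.1, y.2.choose⟩ := congrArg Subtype.val hxy
    have h2 : (⟨x.1, x.2.choose⟩ : Iio z) = ⟨y.1, y.2.choose⟩ := (j z).injective h1
    exact Subtype.ext (Subtype.mk.inj h2)
  · exact fun n => max_lt hc (hI n)
  · intro z x hx
    obtain ⟨n, hn⟩ := hIall (j z ⟨x, hx⟩)
    exact ⟨n, hx, hn⟩

/-- The subsets of size `kappa` of `kappa^+` can be indexed by points of `kappa^+`. -/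
theorem exists_idx (kappa : Cardinal.{u}) (hk0 : ℵ₀ ≤ kappa) (h2k : 2 ^ kappa = succ kappa) :
    ∃ idx : Set (succ kappa).ord.ToType → (succ kappa).ord.ToType,
      InjOn idx {X | #X = kappa} := by
  classical
  have hV : #(succ kappa).ord.ToType = succ kappa := by simp
  have h1 : #{X : Set (succ kappa).ord.ToType | #X = kappa} ≤ #(succ kappa).ord.ToType := by
    have h2 : #{X : Set (succ kappa).ord.ToType | #X = kappa} ≤
        #{X : Set (succ kappa).ord.ToType // #X ≤ kappa} := by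
      refine mk_le_of_injective (f := fun X => ⟨X.1, le_of_eq X.2⟩) ?_
      intro X Y h
      exact Subtype.ext (Subtype.mk.inj h)
    refine h2.trans ((mk_bounded_set_le _ _).trans ?_)
    rw [hV, max_eq_left (hk0.trans (le_succ kappa)), ← h2k, ← power_mul, mul_eq_self hk0]
  obtain ⟨F⟩ := (le_def _ _).1 h1
  have hne : Nonempty (succ kappa).ord.ToType := by
    rw [← mk_ne_zero_iff, hV]
    exact (zero_le.trans_lt (lt_succ kappa)).ne'
  refine ⟨fun X => if h : #X = kappa then F ⟨X, h⟩ else Classical.arbitrary _, ?_⟩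
  intro X hX Y hY h
  have hX' : #X = kappa := hX
  have hY' : #Y = kappa := hY
  simp only [dif_pos hX', dif_pos hY'] at h
  exact congrArg Subtype.val (F.injective h)

theorem not_SqR (kappa : Cardinal.{u}) (hk0 : ℵ₀ ≤ kappa) (hc : kappa.ord.cof < kappa)
    (hcof : ℵ₀ < kappa.ord.cof) (hsl : ∀ c < kappa, 2 ^ c < kappa)
    (h2k : 2 ^ kappa = succ kappa) (h2c : ∀ c < kappa.ord.cof, 2 ^ c ≤ kappa.ord.cof) :
    ¬ SqR kappa := by
  classical
  intro hR
  obtain ⟨lam, Z, hlam, hmono, hM, hZ, hlk, hZall⟩ := data kappa hk0 hc hcof.le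
  obtain ⟨idx, hidx⟩ := exists_idx kappa hk0 h2k
  obtain ⟨N, hN⟩ := build hlam hmono hM hZ (fun n => hsl _ (hlk n)) hidx
  have hV : #(succ kappa).ord.ToType = succ kappa := by simp
  have hksucc : ℵ₀ ≤ succ kappa := hk0.trans (le_succ kappa)
  let E : (succ kappa).ord.ToType → (succ kappa).ord.ToType → Prop :=
    fun x y => ∃ n, x ∈ N y n
  have hE : ∀ x y, E x y → x < y := by
    rintro x y ⟨n, hn⟩
    exact (hN y n).sub hn
  let f : Sym2 (succ kappa).ord.ToType → Fin 2 :=
    Sym2.lift ⟨fun x y => if E x y ∨ E y x then 0 else 1, fun x y => by simp only [or_comm]⟩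
  have hf0 : ∀ x y, E x y → f s(x, y) = 0 := fun x y h => by
    change (if E x y ∨ E y x then 0 else 1) = 0
    rw [if_pos (Or.inl h)]
  have hf1 : ∀ x y, f s(x, y) = 0 → x < y → E x y := fun x y h hxy => by
    change (if E x y ∨ E y x then (0 : Fin 2) else 1) = 0 at h
    by_contra hcon
    have h2 : ¬ (E x y ∨ E y x) := by
      rintro (h3 | h3)
      · exact hcon h3
      · exact absurd (hxy.trans (hE _ _ h3)) (lt_irrefl _)
    rw [if_neg h2] at h
    exact absurd h (by decide)
  rcases hR f with ⟨A, B, hA, hB, phi, hphi, h1⟩ | ⟨H, hH, h0⟩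
  · -- no copy of a member of the graph class in colour 1
    have hkA : kappa ≤ #A := by rw [hA]; exact le_succ kappa
    obtain ⟨X, hXA, hX⟩ := le_mk_iff_exists_subset.1 hkA
    obtain ⟨y0, hy0⟩ := bdd_succ kappa hk0 X hX.le
    have hiX : InjOn phi X := hphi.mono (hXA.trans subset_union_left)
    have hpX : #(phi '' X) = kappa := by
      rw [mk_image_eq_of_injOn _ _ hiX, hX]
    obtain ⟨y1, hy1⟩ := bdd_succ kappa hk0 (phi '' X) hpX.le
    have hy : ∃ y ∈ B, y0 < y ∧ y1 < phi y ∧ idx (phi '' X) < phi y := by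
      by_contra hcon
      push Not at hcon
      let B' : Set (succ kappa).ord.ToType := B ∩ Ioi y0
      have hB' : #(phi '' B') ≤ kappa := by
        have hsub : phi '' B' ⊆ Iic (max y1 (idx (phi '' X))) := by
          rintro w ⟨y, ⟨hyB, hyy⟩, rfl⟩
          by_cases h3 : y1 < phi y
          · exact (hcon y hyB hyy h3).trans (le_max_right _ _)
          · exact (not_lt.1 h3).trans (le_max_left _ _)
        refine (mk_le_mk_of_subset hsub).trans ?_
        have h4 := mk_Iic_lt (max y1 (idx (phi '' X))) (by simp) (by simpa using hksucc)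
        rw [hV] at h4
        exact lt_succ_iff.1 h4
      have hiB : InjOn phi B' := hphi.mono (inter_subset_left.trans subset_union_right)
      rw [mk_image_eq_of_injOn _ _ hiB] at hB'
      have hBsub : B ⊆ B' ∪ Iic y0 := by
        intro y hyB
        by_cases h3 : y0 < y
        · exact Or.inl ⟨hyB, h3⟩
        · exact Or.inr (not_lt.1 h3)
      have h5 : #B ≤ kappa := (mk_le_mk_of_subset hBsub).trans
        (mk_union_le_of_le _ _ _ hk0 hB' (by
          have h4 := mk_Iic_lt y0 (by simp) (by simpa using hksucc)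
          rw [hV] at h4
          exact lt_succ_iff.1 h4))
      rw [hB] at h5
      exact absurd h5 (not_le.2 (lt_succ kappa))
    obtain ⟨y, hyB, hyy0, hyy1, hyi⟩ := hy
    obtain ⟨n, hn⟩ := hZall _ _ hyi
    obtain ⟨w, hwN, x, hxX, rfl⟩ := (hN (phi y) n).meet (phi '' X) hpX
      (fun w hw => (hy1 w hw).trans hyy1) hn
    have h6 := hf0 _ _ ⟨n, hwN⟩
    have h7 := h1 x (hXA hxX) y hyB ((hy0 x hxX).trans hyy0)
    rw [h6] at h7
    exact absurd h7 (by decide)
  · -- no large homogeneous set in colour 0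
    have hreg : kappa.ord.cof.ord.cof = kappa.ord.cof := Ordinal.cof_ord_cof _
    have hemb : Nonempty ((succ kappa.ord.cof).ord.ToType ↪o H) := by
      have h8 : (succ kappa.ord.cof).ord ≤ Ordinal.type (α := H) (· < ·) := by
        have h9 := ord_le_type (α := H) (· < ·)
        rw [hH] at h9
        exact h9
      have h10 : Ordinal.type (α := (succ kappa.ord.cof).ord.ToType) (· < ·) ≤
          Ordinal.type (α := H) (· < ·) := by
        rw [Ordinal.type_toType]
        exact h8
      obtain ⟨g⟩ := Ordinal.type_le_iff'.1 h10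
      exact ⟨OrderEmbedding.ofStrictMono g (fun a b hab => g.map_rel_iff.2 hab)⟩
    obtain ⟨g⟩ := hemb
    have hMne : Nonempty kappa.ord.cof.ord.ToType := by
      rw [← mk_ne_zero_iff, mk_ord_toType]
      exact (zero_le.trans_lt hcof).ne'
    let e : (succ kappa.ord.cof).ord.ToType → (succ kappa.ord.cof).ord.ToType → kappa.ord.cof.ord.ToType := fun x y =>
      if h : ∃ n, (g x).1 ∈ N (g y).1 n then h.choose else Classical.arbitrary _
    have he : ∀ x y, x < y → (g x).1 ∈ N (g y).1 (e x y) := by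
      intro x y hxy
      have h11 : (g x).1 < (g y).1 := Subtype.coe_lt_coe.2 (g.lt_iff_lt.2 hxy)
      have h12 : ∃ n, (g x).1 ∈ N (g y).1 n :=
        hf1 _ _ (h0 _ (g x).2 _ (g y).2 h11.ne) h11
      have h13 : e x y = h12.choose := dif_pos h12
      rw [h13]
      exact h12.choose_spec
    have heR : RR e := by
      intro x y z hxy hyz
      have hxz := hxy.trans hyz
      by_contra hcon
      push Not at hcon
      have hne : (g x).1 ≠ (g y).1 := (Subtype.coe_lt_coe.2 (g.lt_iff_lt.2 hxy)).ne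
      have hxy' := he x y hxy
      rcases hcon.1.lt_or_eq with h14 | h14
      · exact (hN (g z).1 (e x z)).low (e y z) h14 _ (he y z hyz) _ (he x z hxz) (e x y)
          hcon.2 hxy'
      · have h15 := he y z hyz
        rw [h14] at h15
        exact (hN (g z).1 (e x z)).free _ (he x z hxz) _ h15 hne (e x y) hcon.2 hxy'
    refine not_RR (Om := (succ kappa.ord.cof).ord.ToType) (M := kappa.ord.cof.ord.ToType) kappa.ord.cof hcof.le
      (mk_Iio_succ kappa.ord.cof) (bdd_succ kappa.ord.cof hcof.le) ?_ ?_ (seq_bdd kappa.ord.cof hcof hreg) ?_ e heR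
    · rw [mk_ord_toType]
      exact lt_succ kappa.ord.cof
    · rw [mk_ord_toType]
    · intro b
      have h16 := mk_Iic_lt b (by simp) (by simpa using hcof.le)
      rw [mk_ord_toType] at h16
      exact h2c _ h16

/-- Under GCH the relation fails at every singular cardinal of uncountable cofinality. -/
theorem not_SqR_of_gch (gch : ∀ c : Cardinal.{u}, ℵ₀ ≤ c → 2 ^ c = succ c)
    (kappa : Cardinal.{u}) (hs : kappa.IsSingular) (hcof : ℵ₀ < kappa.ord.cof) :
    ¬ SqR kappa := by
  have hk0 : ℵ₀ ≤ kappa := hs.aleph0_le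
  have hk1 : ℵ₀ < kappa := hcof.trans hs.cof_ord_lt
  have hlim : IsSuccLimit kappa := hs.isSuccLimit
  have key : ∀ (nu c : Cardinal.{u}), ℵ₀ ≤ nu → c < nu → 2 ^ c ≤ nu := by
    intro nu c hnu hc
    rcases le_or_gt ℵ₀ c with h | h
    · rw [gch c h]
      exact succ_le_of_lt hc
    · obtain ⟨n, rfl⟩ := lt_aleph0.1 h
      have h1 : (2 : Cardinal.{u}) ^ (n : Cardinal.{u}) = ((2 ^ n : ℕ) : Cardinal.{u}) := by
        push_cast
        rw [power_natCast]
      rw [h1]
      exact ((nat_lt_aleph0 _).trans_le hnu).le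
  refine not_SqR kappa hk0 hs.cof_ord_lt hcof ?_ (gch kappa hk0) ?_
  · intro c hc
    rcases le_or_gt ℵ₀ c with h | h
    · rw [gch c h]
      exact hlim.succ_lt hc
    · exact (key ℵ₀ c le_rfl h).trans_lt hk1
  · intro c hc
    exact key _ c hcof.le hc

/-- There is a singular cardinal of uncountable cofinality. -/
theorem exists_singular : ∃ kappa : Cardinal.{u}, kappa.IsSingular ∧ ℵ₀ < kappa.ord.cof := by
  have h1 : (Ordinal.omega 1 : Ordinal.{u}).cof = aleph 1 := by
    simpa using cof_omega_one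
  have hlim : IsSuccLimit (Ordinal.omega 1 : Ordinal.{u}) := by
    rw [← Ordinal.aleph0_le_cof, h1]
    exact aleph0_le_aleph 1
  refine ⟨aleph (Ordinal.omega 1), ?_, ?_⟩
  · rw [isSingular_aleph_iff]
    refine ⟨hlim, ?_⟩
    rw [h1]
    rw [aleph_lt_aleph]
    exact lt_of_lt_of_le Ordinal.one_lt_omega0 (Ordinal.omega0_le_omega 1)
  · rw [ord_aleph, Ordinal.cof_omega hlim, h1]
    exact aleph0_lt_aleph_one

end Pool.Agent.Sq
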