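import Mathlib

/-!
Definitions for the Rudin-Frolik order on ultrafilters over the natural numbers:
the continuous extension of a map into the space of ultrafilters, the Rudin-Frolik
preorder, its well-founded part, the rank and the levels.
-/

set_option autoImplicit false

namespace Pool.Agent.helper81.RF

/-- The continuous extension of `f : ω → βω` to `βω → βω`, that is
`A ∈ ext f u` iff `{i | A ∈ f i} ∈ u` (lemma `mem_ext`). -/
noncomputable def ext (f : ℕ → Ultrafilter ℕ) (u : Ultrafilter ℕ) : Ultrafilter ℕ :=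
  u.bind f

/-- The Rudin-Frolik preorder: `u ≤ v` iff `v = ext f u` for some one-to-one `f : ω → βω`
whose range is discrete in the subspace topology of `βω`. -/
def RFle (u v : Ultrafilter ℕ) : Prop :=
  ∃ f : ℕ → Ultrafilter ℕ,
    Function.Injective f ∧ DiscreteTopology (Set.range f) ∧ v = ext f u

/-- The strict Rudin-Frolik order. -/
def RFlt (u v : Ultrafilter ℕ) : Prop := RFle u v ∧ ¬ RFle v u

/-- The well-founded part: ultrafilters from which no infinite strictly descending sequence
starts. -/
def WFPart : Set (Ultrafilter ℕ) :=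
  {u | ¬ ∃ s : ℕ → Ultrafilter ℕ, s 0 = u ∧ ∀ n, RFlt (s (n + 1)) (s n)}

theorem mem_ext {f : ℕ → Ultrafilter ℕ} {u : Ultrafilter ℕ} {A : Set ℕ} :
    A ∈ ext f u ↔ {i | A ∈ f i} ∈ u := Iff.rfl

/-- Points of the well-founded part are accessible. -/
theorem acc_of_mem_WFPart {u : Ultrafilter ℕ} (h : u ∈ WFPart) : Acc RFlt u := by
  by_contra hu
  apply h
  have step : ∀ x : {x : Ultrafilter ℕ // ¬ Acc RFlt x},
      ∃ y : {x : Ultrafilter ℕ // ¬ Acc RFlt x}, RFlt y.1 x.1 := by
    intro x
    by_contra hx
    apply x.2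
    refine Acc.intro x.1 ?_
    intro y hy
    by_contra hy'
    exact hx ⟨⟨y, hy'⟩, hy⟩
  choose g hg using step
  refine ⟨fun n => (g^[n] ⟨u, hu⟩).1, rfl, ?_⟩
  intro n
  simp only [Function.iterate_succ_apply']
  exact hg _

/-- The rank of a point of the well-founded part:
`rank u = sup {rank v + 1 : v < u}`. -/
noncomputable def rank (u : Ultrafilter ℕ) (h : u ∈ WFPart) : Ordinal.{0} :=
  (acc_of_mem_WFPart h).rank

/-- `level α` is the set of points of the well-founded part of rank exactly `α`. -/
def level (α : Ordinal.{0}) : Set (Ultrafilter ℕ) := {u | ∃ h : u ∈ WFPart, rank u h = α}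

/-- A discretely weak p-point: a nonprincipal ultrafilter `u` which lies in the closure of no
countable discrete set of nonprincipal ultrafilters different from `u`. -/
def DiscretelyWeakPPoint (u : Ultrafilter ℕ) : Prop :=
  (∀ n : ℕ, u ≠ pure n) ∧
    ∀ D : Set (Ultrafilter ℕ), D.Countable → DiscreteTopology D →
      (∀ v ∈ D, (∀ n : ℕ, v ≠ pure n) ∧ v ≠ u) → u ∉ closure D

end Pool.Agent.helper81.RF
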