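import Mathlib
import Pool.Agent.helper81.RFDefs

/-!
Basic theory of the Rudin-Frolik order: strongly discrete families, injectivity of the
continuous extension, comparability of predecessors, strictness.
-/

set_option autoImplicit false

namespace Pool.Agent.helper81.RF

open Set Filter

/-- principal ultrafilters -/
def Prin (u : Ultrafilter ℕ) : Prop := ∃ n : ℕ, ({n} : Set ℕ) ∈ u

/-- strongly discrete families -/
def SD (f : ℕ → Ultrafilter ℕ) : Prop :=
  ∃ A : ℕ → Set ℕ, Pairwise (fun i j => Disjoint (A i) (A j)) ∧ ∀ i, A i ∈ f i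

/-- almost everywhere strongly discrete families -/
def AESD (u : Ultrafilter ℕ) (f : ℕ → Ultrafilter ℕ) : Prop :=
  ∃ A : ℕ → Set ℕ, Pairwise (fun i j => Disjoint (A i) (A j)) ∧ {i | A i ∈ f i} ∈ u

theorem SD.aesd {f : ℕ → Ultrafilter ℕ} (h : SD f) (u : Ultrafilter ℕ) : AESD u f := by
  obtain ⟨A, hA, hf⟩ := h
  exact ⟨A, hA, Filter.mem_of_superset Filter.univ_mem (fun i _ => hf i)⟩

/-- an ultrafilter does not contain two disjoint sets -/
theorem not_disjoint {u : Ultrafilter ℕ} {A B : Set ℕ} (hA : A ∈ u) (hB : B ∈ u) :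
    (A ∩ B).Nonempty := u.nonempty_of_mem (Filter.inter_mem hA hB)

theorem SD.injective {f : ℕ → Ultrafilter ℕ} (h : SD f) : Function.Injective f := by
  obtain ⟨A, hA, hf⟩ := h
  intro i j hij
  by_contra hne
  have h1 : A i ∈ f i := hf i
  have h2 : A j ∈ f i := hij ▸ hf j
  have := Filter.inter_mem h1 h2
  rw [(hA hne).inter_eq] at this
  exact (f i).empty_notMem this

theorem SD.discrete {f : ℕ → Ultrafilter ℕ} (h : SD f) : DiscreteTopology (Set.range f) := by
  have hinj := h.injective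
  obtain ⟨A, hA, hf⟩ := h
  rw [discreteTopology_subtype_iff']
  rintro _ ⟨i, rfl⟩
  refine ⟨{v | A i ∈ v}, ultrafilter_isOpen_basic (A i), ?_⟩
  ext v
  simp only [mem_inter_iff, mem_ofPred_eq, mem_range, mem_singleton_iff]
  constructor
  · rintro ⟨h1, j, rfl⟩
    by_contra hne
    have hij : i ≠ j := fun h => hne (h ▸ rfl)
    have := Filter.inter_mem h1 (hf j)
    rw [(hA hij).inter_eq] at this
    exact (f j).empty_notMem this
  · rintro rfl
    exact ⟨hf i, i, rfl⟩

theorem sd_of_discrete {f : ℕ → Ultrafilter ℕ} (hinj : Function.Injective f)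
    (hd : DiscreteTopology (Set.range f)) : SD f := by
  rw [discreteTopology_subtype_iff'] at hd
  have h1 : ∀ i, ∃ B : Set ℕ, B ∈ f i ∧ ∀ j, B ∈ f j → j = i := by
    intro i
    obtain ⟨V, hV, hVi⟩ := hd (f i) ⟨i, rfl⟩
    have hmem : f i ∈ V := by
      have : f i ∈ V ∩ range f := by rw [hVi]; rfl
      exact this.1
    obtain ⟨W, ⟨B, rfl⟩, hBi, hBV⟩ :=
      (ultrafilterBasis_is_basis (α := ℕ)).exists_subset_of_mem_open hmem hV
    refine ⟨B, hBi, ?_⟩
    intro j hj
    have : f j ∈ V ∩ range f := ⟨hBV hj, j, rfl⟩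
    rw [hVi] at this
    exact hinj this
  choose B hB1 hB2 using h1
  refine ⟨fun i => B i \ ⋃ j ∈ Finset.range i, B j, ?_, ?_⟩
  · intro i j hij
    rw [Set.disjoint_left]
    rintro x ⟨hx1, hx2⟩ ⟨hx3, hx4⟩
    simp only [Finset.mem_range, mem_iUnion, exists_prop, not_exists, not_and] at hx2 hx4
    rcases lt_or_gt_of_ne hij with h | h
    · exact hx4 i h hx1
    · exact hx2 j h hx3
  · intro i
    have h2 : (⋃ j ∈ Finset.range i, B j)ᶜ ∈ f i := by
      rw [Ultrafilter.compl_mem_iff_notMem]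
      intro h3
      rw [← Ultrafilter.mem_coe, ] at h3
      have h4 : ∃ j ∈ Finset.range i, B j ∈ f i := by
        have := (Ultrafilter.finite_biUnion_mem_iff (is := (Finset.range i : Set ℕ))
          (s := B) (f := f i) (Finset.finite_toSet _)).1 (by simpa using h3)
        simpa using this
      obtain ⟨j, hj, hj'⟩ := h4
      have := hB2 j i hj'
      simp at hj
      omega
    exact Filter.inter_mem (hB1 i) h2

theorem rfle_iff {u v : Ultrafilter ℕ} : RFle u v ↔ ∃ f, SD f ∧ v = ext f u := by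
  constructor
  · rintro ⟨f, h1, h2, h3⟩
    exact ⟨f, sd_of_discrete h1 h2, h3⟩
  · rintro ⟨f, h1, h2⟩
    exact ⟨f, h1.injective, h1.discrete, h2⟩

theorem ext_assoc (f g : ℕ → Ultrafilter ℕ) (u : Ultrafilter ℕ) :
    ext g (ext f u) = ext (fun i => ext g (f i)) u := rfl

theorem ext_congr {f g : ℕ → Ultrafilter ℕ} {u : Ultrafilter ℕ} (h : {i | f i = g i} ∈ u) :
    ext f u = ext g u := by
  apply Ultrafilter.ext
  intro A
  rw [mem_ext, mem_ext]
  constructor
  · intro hA
    refine Filter.mem_of_superset (Filter.inter_mem h hA) ?_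
    rintro i ⟨h1, h2⟩
    have h1' : f i = g i := h1
    show A ∈ g i
    rw [← h1']
    exact h2
  · intro hA
    refine Filter.mem_of_superset (Filter.inter_mem h hA) ?_
    rintro i ⟨h1, h2⟩
    have h1' : f i = g i := h1
    show A ∈ f i
    rw [h1']
    exact h2

theorem SD.ext_injective {f : ℕ → Ultrafilter ℕ} (h : SD f) : Function.Injective (ext f) := by
  obtain ⟨A, hA, hf⟩ := h
  intro u v huv
  have key : ∀ (w : Ultrafilter ℕ) (S : Set ℕ), S ∈ w ↔ (⋃ i ∈ S, A i) ∈ ext f w := by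
    intro w S
    rw [mem_ext]
    have : {i | (⋃ i ∈ S, A i) ∈ f i} = S := by
      ext i
      constructor
      · intro hi
        obtain ⟨x, hx1, hx2⟩ := not_disjoint hi (hf i)
        simp only [mem_iUnion, exists_prop] at hx1
        obtain ⟨j, hj, hxj⟩ := hx1
        by_contra hne
        have hij : i ≠ j := fun h => hne (h ▸ hj)
        exact (Set.disjoint_left.1 (hA hij)) hx2 hxj
      · intro hi
        refine Filter.mem_of_superset (hf i) ?_
        intro x hx
        simp only [mem_iUnion, exists_prop]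
        exact ⟨i, hi, hx⟩
    rw [this]
  apply Ultrafilter.ext
  intro S
  rw [key u, key v, huv]

theorem prin_iff {u : Ultrafilter ℕ} : Prin u ↔ ∃ n, u = pure n := by
  constructor
  · rintro ⟨n, hn⟩
    refine ⟨n, ?_⟩
    apply Ultrafilter.ext
    intro s
    rw [Ultrafilter.mem_pure]
    constructor
    · intro hs
      obtain ⟨x, hx1, hx2⟩ := not_disjoint hn hs
      rw [mem_singleton_iff] at hx1
      exact hx1 ▸ hx2
    · intro hs
      exact Filter.mem_of_superset hn (by simpa using hs)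
  · rintro ⟨n, rfl⟩
    exact ⟨n, by rw [Ultrafilter.mem_pure]; rfl⟩

theorem SD.comp {f g : ℕ → Ultrafilter ℕ} (hf : SD f) (hg : SD g) :
    SD (fun i => ext g (f i)) := by
  obtain ⟨A, hA, hfA⟩ := hf
  obtain ⟨B, hB, hgB⟩ := hg
  refine ⟨fun i => ⋃ j ∈ A i, B j, ?_, ?_⟩
  · intro i j hij
    rw [Set.disjoint_left]
    intro x hx1 hx2
    simp only [mem_iUnion, exists_prop] at hx1 hx2
    obtain ⟨a, ha, hxa⟩ := hx1
    obtain ⟨b, hb, hxb⟩ := hx2
    have hab : a ≠ b := by
      rintro rfl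
      exact Set.disjoint_left.1 (hA hij) ha hb
    exact Set.disjoint_left.1 (hB hab) hxa hxb
  · intro i
    rw [mem_ext]
    refine Filter.mem_of_superset (hfA i) ?_
    intro j hj
    refine Filter.mem_of_superset (hgB j) ?_
    intro x hx
    simp only [mem_iUnion, exists_prop]
    exact ⟨j, hj, hx⟩

theorem SD.pure' : SD (fun i => (pure i : Ultrafilter ℕ)) := by
  refine ⟨fun i => {i}, ?_, ?_⟩
  · intro i j hij
    simpa using hij
  · intro i
    rw [Ultrafilter.mem_pure]
    rfl

theorem ext_pure (u : Ultrafilter ℕ) : ext (fun i => (pure i : Ultrafilter ℕ)) u = u := by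
  apply Ultrafilter.ext
  intro A
  rw [mem_ext]
  have : {i | A ∈ (pure i : Ultrafilter ℕ)} = A := by
    ext i
    exact Ultrafilter.mem_pure
  rw [this]

theorem rfle_refl (u : Ultrafilter ℕ) : RFle u u :=
  rfle_iff.2 ⟨_, SD.pure', (ext_pure u).symm⟩

theorem rfle_trans {u v w : Ultrafilter ℕ} (h1 : RFle u v) (h2 : RFle v w) : RFle u w := by
  obtain ⟨f, hf, rfl⟩ := rfle_iff.1 h1
  obtain ⟨g, hg, rfl⟩ := rfle_iff.1 h2
  exact rfle_iff.2 ⟨_, hf.comp hg, ext_assoc f g u⟩

/-- an almost everywhere strongly discrete family agrees almost everywhere with a strongly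
discrete one, and the remaining values can be taken to be copies of a given ultrafilter. -/
theorem AESD.exists_sd {u : Ultrafilter ℕ} {f : ℕ → Ultrafilter ℕ} (h : AESD u f)
    {K : Set ℕ} (hK : K ∈ u) (w : Ultrafilter ℕ) :
    ∃ f' : ℕ → Ultrafilter ℕ, SD f' ∧ {i | f' i = f i} ∈ u ∧ ext f' u = ext f u ∧
      ∀ i, (i ∈ K ∧ f' i = f i) ∨ ∃ e : ℕ → ℕ, Function.Injective e ∧ f' i = w.map e := by
  classical
  obtain ⟨A, hA, hf⟩ := h
  -- a set `E` with many complement points and belonging to almost every `f i`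
  obtain ⟨δ, hδ, hE⟩ : ∃ δ : ℕ, δ < 2 ∧ {i | {x : ℕ | x % 2 ≠ δ} ∈ f i} ∈ u := by
    by_cases h0 : {i | {x : ℕ | x % 2 ≠ 0} ∈ f i} ∈ u
    · exact ⟨0, by norm_num, h0⟩
    · refine ⟨1, by norm_num, ?_⟩
      rw [← Ultrafilter.compl_mem_iff_notMem] at h0
      refine Filter.mem_of_superset h0 ?_
      intro i hi
      have hi' : ({x : ℕ | x % 2 ≠ 0} : Set ℕ) ∉ f i := hi
      rw [← Ultrafilter.compl_mem_iff_notMem] at hi'
      refine Filter.mem_of_superset hi' ?_
      intro x hx
      have hx' : ¬ (x % 2 ≠ 0) := hx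
      show x % 2 ≠ 1
      omega
  set R : Set ℕ := {i | A i ∈ f i} ∩ K ∩ {i | {x : ℕ | x % 2 ≠ δ} ∈ f i} with hR
  have hRu : R ∈ u := Filter.inter_mem (Filter.inter_mem hf hK) hE
  let e : ℕ → ℕ → ℕ := fun i x => 2 * Nat.pair i x + δ
  have he : ∀ i, Function.Injective (e i) := by
    intro i x y hxy
    have h1 : Nat.pair i x = Nat.pair i y := by
      simp only [e] at hxy
      omega
    have := congrArg Nat.unpair h1
    simpa using this
  let f' : ℕ → Ultrafilter ℕ := fun i => if i ∈ R then f i else w.map (e i)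
  have hae : {i | f' i = f i} ∈ u := by
    refine Filter.mem_of_superset hRu ?_
    intro i hi
    show (if i ∈ R then f i else w.map (e i)) = f i
    rw [if_pos hi]
  refine ⟨f', ?_, hae, ext_congr hae, ?_⟩
  · refine ⟨fun i => if i ∈ R then A i ∩ {x | x % 2 ≠ δ} else Set.range (e i), ?_, ?_⟩
    · intro i j hij
      show Disjoint (if i ∈ R then A i ∩ {x | x % 2 ≠ δ} else Set.range (e i))
        (if j ∈ R then A j ∩ {x | x % 2 ≠ δ} else Set.range (e j))
      rw [Set.disjoint_left]
      intro x hx1 hx2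
      have hmod : ∀ k y, e k y % 2 = δ := by
        intro k y
        simp only [e]
        omega
      split_ifs at hx1 hx2 with h1 h2 h2
      · exact Set.disjoint_left.1 (hA hij) hx1.1 hx2.1
      · obtain ⟨y, rfl⟩ := hx2
        exact hx1.2 (hmod j y)
      · obtain ⟨y, rfl⟩ := hx1
        exact hx2.2 (hmod i y)
      · obtain ⟨y, rfl⟩ := hx1
        obtain ⟨z, hz⟩ := hx2
        have h3 : Nat.pair j z = Nat.pair i y := by
          simp only [e] at hz
          omega
        have h4 := congrArg Nat.unpair h3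
        simp at h4
        exact hij h4.1.symm
    · intro i
      show (if i ∈ R then A i ∩ {x | x % 2 ≠ δ} else Set.range (e i)) ∈
        (if i ∈ R then f i else w.map (e i))
      split_ifs with h1
      · exact Filter.inter_mem h1.1.1 h1.2
      · rw [Ultrafilter.mem_map]
        refine Filter.mem_of_superset Filter.univ_mem ?_
        intro x _
        exact ⟨x, rfl⟩
  · intro i
    by_cases hi : i ∈ R
    · left
      refine ⟨hi.1.2, ?_⟩
      show (if i ∈ R then f i else w.map (e i)) = f i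
      rw [if_pos hi]
    · right
      refine ⟨e i, he i, ?_⟩
      show (if i ∈ R then f i else w.map (e i)) = w.map (e i)
      rw [if_neg hi]

theorem AESD.rfle {u : Ultrafilter ℕ} {f : ℕ → Ultrafilter ℕ} (h : AESD u f) :
    RFle u (ext f u) := by
  obtain ⟨f', h1, -, h3, -⟩ := h.exists_sd Filter.univ_mem u
  exact rfle_iff.2 ⟨f', h1, h3.symm⟩

/-- an injective image is equivalent -/
theorem rfle_map {e : ℕ → ℕ} {u : Ultrafilter ℕ} (he : Function.Injective e) :
    RFle u (u.map e) ∧ RFle (u.map e) u := by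
  classical
  constructor
  · refine rfle_iff.2 ⟨fun i => pure (e i), ⟨fun i => {e i}, ?_, ?_⟩, ?_⟩
    · intro i j hij
      simpa using fun h => hij (he h)
    · intro i
      rw [Ultrafilter.mem_pure]
      rfl
    · apply Ultrafilter.ext
      intro s
      rw [mem_ext, Ultrafilter.mem_map]
      rfl
  · let g : ℕ → Ultrafilter ℕ := fun n => pure (Function.invFun e n)
    have h1 : AESD (u.map e) g := by
      refine ⟨fun n => if n ∈ Set.range e then {Function.invFun e n} else ∅, ?_, ?_⟩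
      · intro i j hij
        show Disjoint (if i ∈ Set.range e then ({Function.invFun e i} : Set ℕ) else ∅)
          (if j ∈ Set.range e then {Function.invFun e j} else ∅)
        split_ifs with h1 h2 h2
        · obtain ⟨a, rfl⟩ := h1
          obtain ⟨b, rfl⟩ := h2
          rw [Function.leftInverse_invFun he a, Function.leftInverse_invFun he b]
          simpa using fun h => hij (congrArg e h)
        · simp
        · simp
        · simp
      · rw [Ultrafilter.mem_map]
        refine Filter.mem_of_superset Filter.univ_mem ?_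
        intro x _
        show (if e x ∈ Set.range e then ({Function.invFun e (e x)} : Set ℕ) else ∅) ∈ g (e x)
        rw [if_pos ⟨x, rfl⟩, Ultrafilter.mem_pure]
        rfl
    have h2 : ext g (u.map e) = u := by
      apply Ultrafilter.ext
      intro s
      rw [mem_ext, Ultrafilter.mem_map]
      have : e ⁻¹' {i | s ∈ g i} = s := by
        ext x
        show s ∈ g (e x) ↔ x ∈ s
        rw [Ultrafilter.mem_pure, Function.leftInverse_invFun he x]
      rw [this]
    have := h1.rfle
    rwa [h2] at this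

/-! ### strictness -/

/-- Frolik: no fixed points. -/
theorem ext_ne_self {u : Ultrafilter ℕ} {k : ℕ → Ultrafilter ℕ} (h : AESD u k)
    (hnp : {i | ¬ Prin (k i)} ∈ u) : ext k u ≠ u := by
  classical
  obtain ⟨A, hA, hk⟩ := h
  intro heq
  set K : Set ℕ := {i | A i ∈ k i} ∩ {i | ¬ Prin (k i)} with hK
  have hKu : K ∈ u := Filter.inter_mem hk hnp
  -- predecessor relation
  let P : ℕ → ℕ → Prop := fun x i => i < x ∧ i ∈ K ∧ x ∈ A i
  have hPu : ∀ x i j, P x i → P x j → i = j := by
    rintro x i j ⟨-, -, h1⟩ ⟨-, -, h2⟩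
    by_contra hij
    exact Set.disjoint_left.1 (hA hij) h1 h2
  -- a set with `x ∈ S ↔ i ∉ S` whenever `P x i`
  obtain ⟨S, hS⟩ : ∃ S : Set ℕ, ∀ x i, P x i → (x ∈ S ↔ i ∉ S) := by
    let d : ℕ → Prop := fun x => WellFounded.fix (C := fun _ => Prop) Nat.lt_wfRel.wf
      (fun x rec => ∃ i, ∃ h : P x i, ¬ rec i h.1) x
    have hd : ∀ x, d x ↔ ∃ i, ∃ h : P x i, ¬ d i := by
      intro x
      show (WellFounded.fix (C := fun _ => Prop) Nat.lt_wfRel.wf
        (fun x rec => ∃ i, ∃ h : P x i, ¬ rec i h.1) x) ↔ _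
      rw [WellFounded.fix_eq]
    refine ⟨{x | d x}, ?_⟩
    intro x i hxi
    show d x ↔ ¬ d i
    rw [hd x]
    constructor
    · rintro ⟨j, hj, hnj⟩
      rw [hPu x i j hxi hj]
      exact hnj
    · intro hi
      exact ⟨i, hxi, hi⟩
  have hSK : ∀ i ∈ K, (S ∈ k i ↔ i ∉ S) := by
    intro i hi
    have hAi : A i ∩ {x | i < x} ∈ k i := by
      refine Filter.inter_mem hi.1 ?_
      by_contra hlt
      have h1 : ({x | i < x} : Set ℕ)ᶜ ∈ k i := Ultrafilter.compl_mem_iff_notMem.2 hlt
      have h2 : ({x | i < x} : Set ℕ)ᶜ = ⋃ j ∈ (Finset.range (i+1) : Set ℕ), {j} := by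
        ext x
        simp
      rw [h2] at h1
      have h3 := (Ultrafilter.finite_biUnion_mem_iff (Finset.finite_toSet _)).1 h1
      obtain ⟨j, -, hj⟩ := h3
      exact hi.2 ⟨j, hj⟩
    constructor
    · intro hSi
      obtain ⟨x, hx1, hx2⟩ := not_disjoint hSi hAi
      exact (hS x i ⟨hx2.2, hi, hx2.1⟩).1 hx1
    · intro hiS
      refine Filter.mem_of_superset hAi ?_
      rintro x ⟨hx1, hx2⟩
      exact (hS x i ⟨hx2, hi, hx1⟩).2 hiS
  -- contradiction
  have h1 : S ∈ u ↔ {i | S ∈ k i} ∈ u := by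
    rw [← mem_ext, heq]
  by_cases hSu : S ∈ u
  · have h2 := h1.1 hSu
    obtain ⟨i, ⟨hi1, hi2⟩, hi3⟩ := not_disjoint (Filter.inter_mem hSu h2) hKu
    exact (hSK i hi3).1 hi2 hi1
  · have h2 : Sᶜ ∈ u := Ultrafilter.compl_mem_iff_notMem.2 hSu
    apply hSu
    rw [h1]
    refine Filter.mem_of_superset (Filter.inter_mem h2 hKu) ?_
    rintro i ⟨hi1, hi2⟩
    exact (hSK i hi2).2 hi1

theorem nonprin_ext {h : ℕ → Ultrafilter ℕ} (hh : Function.Injective h) {w : Ultrafilter ℕ}
    (hw : ¬ Prin w) : ¬ Prin (ext h w) := by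
  rintro ⟨n, hn⟩
  rw [mem_ext] at hn
  apply hw
  obtain ⟨j, hj⟩ := w.nonempty_of_mem hn
  refine ⟨j, ?_⟩
  refine Filter.mem_of_superset hn ?_
  intro i hi
  have h1 : h i = pure n := by
    obtain ⟨m, hm⟩ := prin_iff.1 ⟨n, hi⟩
    have h2 : ({n} : Set ℕ) ∈ (pure m : Ultrafilter ℕ) := hm ▸ hi
    rw [Ultrafilter.mem_pure] at h2
    rw [hm]
    have h3 : m = n := h2
    rw [h3]
  have h1' : h j = pure n := by
    obtain ⟨m, hm⟩ := prin_iff.1 ⟨n, hj⟩
    have h2 : ({n} : Set ℕ) ∈ (pure m : Ultrafilter ℕ) := hm ▸ hj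
    rw [Ultrafilter.mem_pure] at h2
    rw [hm]
    have h3 : m = n := h2
    rw [h3]
  exact hh (h1.trans h1'.symm)

theorem AESD.comp_sd {u : Ultrafilter ℕ} {f g : ℕ → Ultrafilter ℕ} (hf : AESD u f)
    (hg : SD g) : AESD u (fun i => ext g (f i)) := by
  obtain ⟨A, hA, hfA⟩ := hf
  obtain ⟨B, hB, hgB⟩ := hg
  refine ⟨fun i => ⋃ j ∈ A i, B j, ?_, ?_⟩
  · intro i j hij
    rw [Set.disjoint_left]
    intro x hx1 hx2
    simp only [mem_iUnion, exists_prop] at hx1 hx2
    obtain ⟨a, ha, hxa⟩ := hx1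
    obtain ⟨b, hb, hxb⟩ := hx2
    have hab : a ≠ b := by
      rintro rfl
      exact Set.disjoint_left.1 (hA hij) ha hb
    exact Set.disjoint_left.1 (hB hab) hxa hxb
  · refine Filter.mem_of_superset hfA ?_
    intro i hi
    show (⋃ j ∈ A i, B j) ∈ ext g (f i)
    rw [mem_ext]
    refine Filter.mem_of_superset hi ?_
    intro j hj
    refine Filter.mem_of_superset (hgB j) ?_
    intro x hx
    simp only [mem_iUnion, exists_prop]
    exact ⟨j, hj, hx⟩

theorem lt_iff {u : Ultrafilter ℕ} {f : ℕ → Ultrafilter ℕ} (hf : AESD u f) :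
    RFlt u (ext f u) ↔ {i | ¬ Prin (f i)} ∈ u := by
  classical
  constructor
  · intro h
    by_contra hcon
    have h1 : {i | Prin (f i)} ∈ u := by
      have := Ultrafilter.compl_mem_iff_notMem.2 hcon
      refine Filter.mem_of_superset this ?_
      intro i hi
      by_contra hi'
      exact hi hi'
    apply h.2
    obtain ⟨A, hA, hfA⟩ := hf
    -- inverse family
    let K : Set ℕ := {i | A i ∈ f i} ∩ {i | Prin (f i)}
    have hK : K ∈ u := Filter.inter_mem hfA h1
    have h2 : ∀ i, ∃ n, i ∈ K → f i = pure n := by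
      intro i
      by_cases hi : i ∈ K
      · obtain ⟨n, hn⟩ := prin_iff.1 hi.2
        exact ⟨n, fun _ => hn⟩
      · exact ⟨0, fun h => absurd h hi⟩
    choose e he using h2
    have heA : ∀ i ∈ K, e i ∈ A i := by
      intro i hi
      have h3 : A i ∈ f i := hi.1
      rw [he i hi, Ultrafilter.mem_pure] at h3
      exact h3
    have heinj : ∀ i ∈ K, ∀ j ∈ K, e i = e j → i = j := by
      intro i hi j hj hij
      by_contra hne
      exact Set.disjoint_left.1 (hA hne) (heA i hi) (hij ▸ heA j hj)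
    let g : ℕ → ℕ := fun n => if h : ∃ i ∈ K, e i = n then h.choose else 0
    have hg : ∀ i ∈ K, g (e i) = i := by
      intro i hi
      have hex : ∃ j ∈ K, e j = e i := ⟨i, hi, rfl⟩
      have h3 : g (e i) = hex.choose := by
        simp only [g]
        rw [dif_pos hex]
      rw [h3]
      exact heinj _ hex.choose_spec.1 _ hi hex.choose_spec.2
    have hmem : ∀ s : Set ℕ, s ∈ ext f u ↔ {i | e i ∈ s} ∈ u := by
      intro s
      rw [mem_ext]
      constructor
      · intro hs
        refine Filter.mem_of_superset (Filter.inter_mem hs hK) ?_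
        rintro i ⟨h3, h4⟩
        have h5 : s ∈ f i := h3
        rw [he i h4, Ultrafilter.mem_pure] at h5
        exact h5
      · intro hs
        refine Filter.mem_of_superset (Filter.inter_mem hs hK) ?_
        rintro i ⟨h3, h4⟩
        show s ∈ f i
        rw [he i h4, Ultrafilter.mem_pure]
        exact h3
    have hae : AESD (ext f u) (fun n => (pure (g n) : Ultrafilter ℕ)) := by
      refine ⟨fun n => if n ∈ e '' K then {g n} else ∅, ?_, ?_⟩
      · intro m n hmn
        show Disjoint (if m ∈ e '' K then ({g m} : Set ℕ) else ∅)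
          (if n ∈ e '' K then {g n} else ∅)
        split_ifs with h3 h4 h4
        · obtain ⟨a, ha, rfl⟩ := h3
          obtain ⟨b, hb, rfl⟩ := h4
          rw [hg a ha, hg b hb]
          simpa using fun h => hmn (congrArg e h)
        · simp
        · simp
        · simp
      · rw [hmem]
        refine Filter.mem_of_superset hK ?_
        intro i hi
        show (if e i ∈ e '' K then ({g (e i)} : Set ℕ) else ∅) ∈ (pure (g (e i)) : Ultrafilter ℕ)
        rw [if_pos ⟨i, hi, rfl⟩, Ultrafilter.mem_pure]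
        rfl
    have heq : ext (fun n => (pure (g n) : Ultrafilter ℕ)) (ext f u) = u := by
      apply Ultrafilter.ext
      intro s
      rw [mem_ext, hmem]
      have h3 : {i | e i ∈ {n | s ∈ (pure (g n) : Ultrafilter ℕ)}} = {i | g (e i) ∈ s} := by
        ext i
        exact Ultrafilter.mem_pure
      rw [h3]
      constructor
      · intro hs
        refine Filter.mem_of_superset (Filter.inter_mem hs hK) ?_
        rintro i ⟨h4, h5⟩
        have h6 : g (e i) ∈ s := h4
        rwa [hg i h5] at h6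
      · intro hs
        refine Filter.mem_of_superset (Filter.inter_mem hs hK) ?_
        rintro i ⟨h4, h5⟩
        show g (e i) ∈ s
        rwa [hg i h5]
    have := hae.rfle
    rwa [heq] at this
  · intro h
    refine ⟨hf.rfle, ?_⟩
    intro h1
    obtain ⟨g, hg, hgu⟩ := rfle_iff.1 h1
    rw [ext_assoc] at hgu
    refine ext_ne_self (hf.comp_sd hg) ?_ hgu.symm
    refine Filter.mem_of_superset h ?_
    intro i hi
    exact nonprin_ext hg.injective hi

/-! ### comparability -/

/-- a point in the closure of the range of a family is a value of the extension -/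
theorem exists_ext_eq {g : ℕ → Ultrafilter ℕ} {v : Ultrafilter ℕ}
    (h : ∀ S ∈ v, ∃ j, S ∈ g j) : ∃ x, ext g x = v := by
  classical
  let F : Filter ℕ := Filter.generate {T | ∃ S ∈ v, T = {j | S ∈ g j}}
  have hF : F.NeBot := by
    rw [Filter.generate_neBot_iff]
    intro t ht htf
    have h1 : ∃ S ∈ v, {j | S ∈ g j} ⊆ ⋂₀ t := by
      refine htf.induction_on_subset t ?_ ?_
      · exact ⟨Set.univ, Filter.univ_mem, by simp⟩
      · rintro T s hT hs - ⟨S, hS, hSs⟩
        obtain ⟨S', hS', hT'⟩ := ht hT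
        refine ⟨S ∩ S', Filter.inter_mem hS hS', ?_⟩
        rw [Set.sInter_insert]
        refine Set.subset_inter ?_ (Set.Subset.trans ?_ hSs)
        · rw [hT']
          intro j hj
          exact Filter.mem_of_superset hj Set.inter_subset_right
        · intro j hj
          exact Filter.mem_of_superset hj Set.inter_subset_left
    obtain ⟨S, hS, hSt⟩ := h1
    obtain ⟨j, hj⟩ := h S hS
    exact ⟨j, hSt hj⟩
  refine ⟨Ultrafilter.of F, ?_⟩
  have h2 : ∀ S ∈ v, S ∈ ext g (Ultrafilter.of F) := by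
    intro S hS
    rw [mem_ext]
    exact Ultrafilter.of_le F (Filter.mem_generate_of_mem ⟨S, hS, rfl⟩)
  exact (Ultrafilter.eq_of_le (f := ext g (Ultrafilter.of F)) (g := v) h2)

/-- the separation argument -/
theorem sep {f g : ℕ → Ultrafilter ℕ} {u w : Ultrafilter ℕ}
    (h : ext f u = ext g w) :
    {i | ∃ x, ext g x = f i} ∈ u ∨ {j | ∃ y, ext f y = g j} ∈ w := by
  classical
  by_contra hcon
  rw [not_or] at hcon
  obtain ⟨hI, hJ⟩ := hcon
  rw [← Ultrafilter.compl_mem_iff_notMem] at hI hJ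
  have h1 : ∀ i, ∃ S, i ∈ {i | ∃ x, ext g x = f i}ᶜ → (S ∈ f i ∧ ∀ j, S ∉ g j) := by
    intro i
    by_cases hi : i ∈ {i | ∃ x, ext g x = f i}ᶜ
    · by_contra hS
      push Not at hS
      apply hi
      refine exists_ext_eq ?_
      intro S hS'
      exact (hS S).2 hS'
    · exact ⟨∅, fun h => absurd h hi⟩
  have h2 : ∀ j, ∃ T, j ∈ {j | ∃ y, ext f y = g j}ᶜ → (T ∈ g j ∧ ∀ i, T ∉ f i) := by
    intro j
    by_cases hj : j ∈ {j | ∃ y, ext f y = g j}ᶜ
    · by_contra hT
      push Not at hT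
      apply hj
      refine exists_ext_eq ?_
      intro T hT'
      exact (hT T).2 hT'
    · exact ⟨∅, fun h => absurd h hj⟩
  choose S hS using h1
  choose T hT using h2
  set I : Set ℕ := {i | ∃ x, ext g x = f i}ᶜ
  set J : Set ℕ := {j | ∃ y, ext f y = g j}ᶜ
  let X : ℕ → Set ℕ := fun i => if i ∈ I then S i else ∅
  let Y : ℕ → Set ℕ := fun j => if j ∈ J then T j else ∅
  have hXg : ∀ i j, X i ∉ g j := by
    intro i j
    simp only [X]
    split_ifs with h3
    · exact (hS i h3).2 j
    · exact (g j).empty_notMem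
  have hYf : ∀ j i, Y j ∉ f i := by
    intro j i
    simp only [Y]
    split_ifs with h3
    · exact (hT j h3).2 i
    · exact (f i).empty_notMem
  -- finite unions
  have hfin : ∀ (v : Ultrafilter ℕ) (Z : ℕ → Set ℕ) (n : ℕ), (∀ k, Z k ∉ v) →
      {x | ∀ k, k ≤ n → x ∉ Z k} ∈ v := by
    intro v Z n hZ
    have : {x | ∀ k, k ≤ n → x ∉ Z k} = ⋂ k ∈ Finset.range (n+1), (Z k)ᶜ := by
      ext x
      simp
    rw [this, ← Ultrafilter.mem_coe, Filter.biInter_finset_mem]
    intro k _
    exact Ultrafilter.compl_mem_iff_notMem.2 (hZ k)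
  let P : ℕ → Set ℕ := fun i => X i ∩ {x | ∀ k, k ≤ i → x ∉ Y k}
  let Q : ℕ → Set ℕ := fun j => Y j ∩ {x | ∀ k, k ≤ j → x ∉ X k}
  have hP : (⋃ i, P i) ∈ ext f u := by
    rw [mem_ext]
    refine Filter.mem_of_superset hI ?_
    intro i hi
    refine Filter.mem_of_superset (Filter.inter_mem (?_ : X i ∈ f i) (hfin (f i) Y i
      (fun k => hYf k i))) ?_
    · simp only [X]
      rw [if_pos hi]
      exact (hS i hi).1
    · intro x hx
      exact mem_iUnion.2 ⟨i, hx⟩
  have hQ : (⋃ j, Q j) ∈ ext g w := by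
    rw [mem_ext]
    refine Filter.mem_of_superset hJ ?_
    intro j hj
    refine Filter.mem_of_superset (Filter.inter_mem (?_ : Y j ∈ g j) (hfin (g j) X j
      (fun k => hXg k j))) ?_
    · simp only [Y]
      rw [if_pos hj]
      exact (hT j hj).1
    · intro x hx
      exact mem_iUnion.2 ⟨j, hx⟩
  rw [← h] at hQ
  obtain ⟨x, hx1, hx2⟩ := not_disjoint hP hQ
  obtain ⟨i, hi1, hi2⟩ := mem_iUnion.1 hx1
  obtain ⟨j, hj1, hj2⟩ := mem_iUnion.1 hx2
  rcases le_total i j with hij | hij
  · exact hj2 i hij hi1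
  · exact hi2 j hij hj1

/-- comparability of predecessors, with the intermediate family -/
theorem compar {f g : ℕ → Ultrafilter ℕ} (hf : SD f) (hg : SD g) {u w : Ultrafilter ℕ}
    (h : ext f u = ext g w) :
    (∃ k, AESD u k ∧ w = ext k u ∧ {i | f i = ext g (k i)} ∈ u) ∨ RFle w u := by
  classical
  have aux : ∀ {f g : ℕ → Ultrafilter ℕ} (_ : SD f) (_ : SD g) {u w : Ultrafilter ℕ}
      (_ : ext f u = ext g w) (_ : {i | ∃ x, ext g x = f i} ∈ u),
      ∃ k, AESD u k ∧ w = ext k u ∧ {i | f i = ext g (k i)} ∈ u := by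
    intro f g hf hg u w h hmem
    have h1 : ∀ i, ∃ x, i ∈ {i | ∃ x, ext g x = f i} → ext g x = f i := by
      intro i
      by_cases hi : i ∈ {i | ∃ x, ext g x = f i}
      · obtain ⟨x, hx⟩ := hi
        exact ⟨x, fun _ => hx⟩
      · exact ⟨u, fun h => absurd h hi⟩
    choose k hk using h1
    have hk' : {i | f i = ext g (k i)} ∈ u :=
      Filter.mem_of_superset hmem (fun i hi => (hk i hi).symm)
    refine ⟨k, ?_, ?_, hk'⟩
    · obtain ⟨A, hA, hfA⟩ := hf
      refine ⟨fun i => {j | A i ∈ g j}, ?_, ?_⟩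
      · intro i j hij
        rw [Set.disjoint_left]
        intro x hx1 hx2
        obtain ⟨y, hy1, hy2⟩ := not_disjoint (u := g x) hx1 hx2
        exact Set.disjoint_left.1 (hA hij) hy1 hy2
      · refine Filter.mem_of_superset hk' ?_
        intro i hi
        have h2 : f i = ext g (k i) := hi
        have h3 := hfA i
        rw [h2, mem_ext] at h3
        exact h3
    · apply hg.ext_injective
      rw [ext_assoc, ← h]
      exact ext_congr hk'
  rcases sep h with h1 | h1
  · exact Or.inl (aux hf hg h h1)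
  · right
    obtain ⟨k, hk1, hk2, -⟩ := aux hg hf h.symm h1
    rw [hk2]
    exact hk1.rfle

theorem rfle_total {u w v : Ultrafilter ℕ} (hu : RFle u v) (hw : RFle w v) :
    RFle u w ∨ RFle w u := by
  obtain ⟨f, hf, rfl⟩ := rfle_iff.1 hu
  obtain ⟨g, hg, h⟩ := rfle_iff.1 hw
  rcases compar hf hg h with ⟨k, hk1, hk2, -⟩ | h1
  · left
    rw [hk2]
    exact hk1.rfle
  · exact Or.inr h1

/-! ### monotonicity of sums -/

theorem sum_mono {u : Ultrafilter ℕ} {a b : ℕ → Ultrafilter ℕ} (ha : AESD u a) (hb : AESD u b)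
    (hab : {i | RFle (a i) (b i)} ∈ u) :
    ∃ G, AESD (ext a u) G ∧ ext b u = ext G (ext a u) ∧
      ∀ S ∈ u, (∀ i ∈ S, RFlt (a i) (b i)) → {j | ¬ Prin (G j)} ∈ ext a u := by
  classical
  obtain ⟨A, hA, haA⟩ := ha
  obtain ⟨B, hB, hbB⟩ := hb
  have h1 : ∀ i, ∃ g, i ∈ {i | RFle (a i) (b i)} → (SD g ∧ b i = ext g (a i)) := by
    intro i
    by_cases hi : i ∈ {i | RFle (a i) (b i)}
    · obtain ⟨g, hg1, hg2⟩ := rfle_iff.1 hi
      exact ⟨g, fun _ => ⟨hg1, hg2⟩⟩
    · exact ⟨fun _ => u, fun h => absurd h hi⟩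
  choose g hg using h1
  have h2 : ∀ i, ∃ D : ℕ → Set ℕ, i ∈ {i | RFle (a i) (b i)} →
      (Pairwise (fun j k => Disjoint (D j) (D k)) ∧ ∀ j, D j ∈ g i j) := by
    intro i
    by_cases hi : i ∈ {i | RFle (a i) (b i)}
    · obtain ⟨D, hD1, hD2⟩ := (hg i hi).1
      exact ⟨D, fun _ => ⟨hD1, hD2⟩⟩
    · exact ⟨fun _ => ∅, fun h => absurd h hi⟩
  choose D hD using h2
  set K : Set ℕ := {i | RFle (a i) (b i)} ∩ {i | A i ∈ a i} ∩ {i | B i ∈ b i} with hKdef
  have hK : K ∈ u := Filter.inter_mem (Filter.inter_mem hab haA) hbB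
  let idx : ℕ → ℕ := fun j => if h : ∃ i ∈ K, j ∈ A i then h.choose else 0
  have hidx : ∀ i ∈ K, ∀ j ∈ A i, idx j = i := by
    intro i hi j hj
    have hex : ∃ i ∈ K, j ∈ A i := ⟨i, hi, hj⟩
    have h3 : idx j = hex.choose := by
      simp only [idx]
      rw [dif_pos hex]
    rw [h3]
    by_contra hne
    exact Set.disjoint_left.1 (hA hne) hex.choose_spec.2 hj
  let G : ℕ → Ultrafilter ℕ := fun j => g (idx j) j
  have hG : ∀ i ∈ K, {j | G j = g i j} ∈ a i := by
    intro i hi
    refine Filter.mem_of_superset hi.1.2 ?_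
    intro j hj
    show g (idx j) j = g i j
    rw [hidx i hi j hj]
  refine ⟨G, ?_, ?_, ?_⟩
  · refine ⟨fun j => if ∃ i ∈ K, j ∈ A i then B (idx j) ∩ D (idx j) j else ∅, ?_, ?_⟩
    · intro j k hjk
      show Disjoint (if ∃ i ∈ K, j ∈ A i then B (idx j) ∩ D (idx j) j else ∅)
        (if ∃ i ∈ K, k ∈ A i then B (idx k) ∩ D (idx k) k else ∅)
      split_ifs with h3 h4 h4
      · obtain ⟨i, hi, hij⟩ := h3
        obtain ⟨i', hi', hik⟩ := h4
        rw [hidx i hi j hij, hidx i' hi' k hik]
        rw [Set.disjoint_left]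
        rintro x ⟨hx1, hx2⟩ ⟨hx3, hx4⟩
        by_cases hii : i = i'
        · subst hii
          exact Set.disjoint_left.1 ((hD i hi.1.1).1 hjk) hx2 hx4
        · exact Set.disjoint_left.1 (hB hii) hx1 hx3
      · simp
      · simp
      · simp
    · rw [mem_ext]
      refine Filter.mem_of_superset hK ?_
      intro i hi
      have h3 : {j | B i ∈ g i j} ∈ a i := by
        have h4 : B i ∈ b i := hi.2
        rw [(hg i hi.1.1).2, mem_ext] at h4
        exact h4
      refine Filter.mem_of_superset (Filter.inter_mem h3 hi.1.2) ?_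
      rintro j ⟨hj1, hj2⟩
      show (if ∃ i ∈ K, j ∈ A i then B (idx j) ∩ D (idx j) j else ∅) ∈ g (idx j) j
      rw [if_pos ⟨i, hi, hj2⟩, hidx i hi j hj2]
      exact Filter.inter_mem hj1 ((hD i hi.1.1).2 j)
  · rw [ext_assoc]
    apply ext_congr
    refine Filter.mem_of_superset hK ?_
    intro i hi
    show b i = ext G (a i)
    rw [(hg i hi.1.1).2]
    apply ext_congr
    refine Filter.mem_of_superset (hG i hi) ?_
    intro j hj
    exact (show G j = g i j from hj).symm
  · intro S hS hlt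
    rw [mem_ext]
    refine Filter.mem_of_superset (Filter.inter_mem hS hK) ?_
    rintro i ⟨hi1, hi2⟩
    have h3 := hlt i hi1
    rw [(hg i hi2.1.1).2] at h3
    have h4 := (lt_iff ((hg i hi2.1.1).1.aesd _)).1 h3
    refine Filter.mem_of_superset (Filter.inter_mem h4 (hG i hi2)) ?_
    rintro j ⟨hj1, hj2⟩
    show ¬ Prin (G j)
    rw [show G j = g i j from hj2]
    exact hj1

theorem sum_lt {u : Ultrafilter ℕ} {a b : ℕ → Ultrafilter ℕ} (ha : AESD u a) (hb : AESD u b)
    (hab : {i | RFlt (a i) (b i)} ∈ u) : RFlt (ext a u) (ext b u) := by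
  obtain ⟨G, hG1, hG2, hG3⟩ := sum_mono ha hb
    (Filter.mem_of_superset hab (fun i hi => hi.1))
  rw [hG2]
  exact (lt_iff hG1).2 (hG3 _ hab (fun i hi => hi))

end Pool.Agent.helper81.RF
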