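import Mathlib
import Pool.Agent.helper81.RFBasic

/-!
Finite ranks in the Rudin-Frolik order and their additivity.
-/

set_option autoImplicit false

namespace Pool.Agent.helper81.RF

open Set Filter

/-- `LE n u`: the point `u` has rank at most `n`. -/
def LE : ℕ → Ultrafilter ℕ → Prop
  | 0, u => ∀ v, ¬ RFlt v u
  | n + 1, u => ∀ v, RFlt v u → LE n v

/-- `Lv n u`: the point `u` has rank exactly `n`. -/
def Lv (n : ℕ) (u : Ultrafilter ℕ) : Prop := LE n u ∧ ∀ m < n, ¬ LE m u

theorem rflt_of_lt_of_le {u v w : Ultrafilter ℕ} (h1 : RFlt u v) (h2 : RFle v w) : RFlt u w :=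
  ⟨rfle_trans h1.1 h2, fun h => h1.2 (rfle_trans h2 h)⟩

theorem rflt_of_le_of_lt {u v w : Ultrafilter ℕ} (h1 : RFle u v) (h2 : RFlt v w) : RFlt u w :=
  ⟨rfle_trans h1 h2.1, fun h => h2.2 (rfle_trans h h1)⟩

theorem LE.succ {n : ℕ} : ∀ {u : Ultrafilter ℕ}, LE n u → LE (n + 1) u := by
  induction n with
  | zero =>
    intro u hu v hv
    exact absurd hv (hu v)
  | succ n ih =>
    intro u hu v hv
    exact ih (hu v hv)

theorem LE.mono {n m : ℕ} (h : n ≤ m) {u : Ultrafilter ℕ} (hu : LE n u) : LE m u := by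
  induction h with
  | refl => exact hu
  | step _ ih => exact ih.succ

theorem LE.of_rfle {n : ℕ} {u v : Ultrafilter ℕ} (hu : LE n u) (h : RFle v u) : LE n v := by
  cases n with
  | zero =>
    intro w hw
    exact hu w (rflt_of_lt_of_le hw h)
  | succ n =>
    intro w hw
    exact hu w (rflt_of_lt_of_le hw h)

theorem Lv.of_equiv {n : ℕ} {u v : Ultrafilter ℕ} (hu : Lv n u) (h1 : RFle v u)
    (h2 : RFle u v) : Lv n v :=
  ⟨hu.1.of_rfle h1, fun m hm h => hu.2 m hm (h.of_rfle h2)⟩

theorem Lv.map {n : ℕ} {u : Ultrafilter ℕ} (hu : Lv n u) {e : ℕ → ℕ}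
    (he : Function.Injective e) : Lv n (u.map e) :=
  hu.of_equiv (rfle_map he).2 (rfle_map he).1

theorem Lv.unique {n m : ℕ} {u : Ultrafilter ℕ} (h1 : Lv n u) (h2 : Lv m u) : n = m := by
  rcases lt_trichotomy n m with h | h | h
  · exact absurd h1.1 (h2.2 n h)
  · exact h
  · exact absurd h2.1 (h1.2 m h)

theorem Lv.not_le {n : ℕ} {t v : Ultrafilter ℕ} (ht : Lv n t) (h : RFlt t v) :
    ∀ k ≤ n, ¬ LE k v := by
  intro k hk hv
  cases k with
  | zero => exact hv t h
  | succ k => exact ht.2 k (by omega) (hv t h)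

theorem exists_lv_of_le {n : ℕ} {u : Ultrafilter ℕ} (h : LE n u) : ∃ m ≤ n, Lv m u := by
  classical
  have hex : ∃ m, LE m u := ⟨n, h⟩
  exact ⟨Nat.find hex, Nat.find_min' hex h, Nat.find_spec hex, fun m hm => Nat.find_min hex hm⟩

theorem Lv.exists_pred {n : ℕ} {u : Ultrafilter ℕ} (h : Lv (n + 1) u) :
    ∃ v, RFlt v u ∧ Lv n v := by
  have h1 : ¬ LE n u := h.2 n (Nat.lt_succ_self n)
  cases n with
  | zero =>
    have h2 : ∃ v, RFlt v u := by
      by_contra hcon
      push Not at hcon
      exact h1 hcon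
    obtain ⟨v, hv⟩ := h2
    exact ⟨v, hv, h.1 v hv, fun m hm => absurd hm (Nat.not_lt_zero m)⟩
  | succ n =>
    have h2 : ∃ v, RFlt v u ∧ ¬ LE n v := by
      by_contra hcon
      push Not at hcon
      exact h1 hcon
    obtain ⟨v, hv, hnv⟩ := h2
    exact ⟨v, hv, h.1 v hv, fun m hm h => hnv (h.mono (by omega))⟩

theorem prin_rfle {u v : Ultrafilter ℕ} (hu : Prin u) : RFle u v := by
  obtain ⟨n, rfl⟩ := prin_iff.1 hu
  have h1 : AESD (pure n : Ultrafilter ℕ) (fun _ => v) := by
    refine ⟨fun i => if i = n then Set.univ else ∅, ?_, ?_⟩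
    · intro i j hij
      show Disjoint (if i = n then (Set.univ : Set ℕ) else ∅) (if j = n then Set.univ else ∅)
      split_ifs with h1 h2 h2
      · exact absurd (h1.trans h2.symm) hij
      · simp
      · simp
      · simp
    · rw [Ultrafilter.mem_pure]
      show (if n = n then (Set.univ : Set ℕ) else ∅) ∈ v
      rw [if_pos rfl]
      exact Filter.univ_mem
  have h2 : ext (fun _ => v) (pure n : Ultrafilter ℕ) = v := by
    apply Ultrafilter.ext
    intro s
    rw [mem_ext, Ultrafilter.mem_pure]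
    rfl
  have := h1.rfle
  rwa [h2] at this

theorem lv_zero_iff {u : Ultrafilter ℕ} : Lv 0 u ↔ Prin u := by
  constructor
  · intro h
    by_contra hu
    apply h.1 (pure 0)
    have hpr : Prin (pure 0 : Ultrafilter ℕ) := prin_iff.2 ⟨0, rfl⟩
    refine ⟨prin_rfle hpr, ?_⟩
    intro h1
    obtain ⟨f, hf, h2⟩ := rfle_iff.1 h1
    have := nonprin_ext hf.injective hu
    rw [← h2] at this
    exact this hpr
  · intro h
    refine ⟨?_, fun m hm => absurd hm (Nat.not_lt_zero m)⟩
    intro v hv
    exact hv.2 (prin_rfle h)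

/-- copies of a sequence of ultrafilters on disjoint sets -/
theorem sd_copy (w : ℕ → Ultrafilter ℕ) : SD (fun i => (w i).map (Nat.pair i)) := by
  refine ⟨fun i => Set.range (Nat.pair i), ?_, ?_⟩
  · intro i j hij
    rw [Set.disjoint_left]
    rintro x ⟨a, rfl⟩ ⟨b, hb⟩
    have := congrArg Nat.unpair hb
    simp at this
    exact hij this.1.symm
  · intro i
    rw [Ultrafilter.mem_map]
    refine Filter.mem_of_superset Filter.univ_mem ?_
    intro x _
    exact ⟨x, rfl⟩

theorem pair_injective (i : ℕ) : Function.Injective (Nat.pair i) := by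
  intro x y h
  have := congrArg Nat.unpair h
  simpa using this

theorem copy_equiv (w : Ultrafilter ℕ) (i : ℕ) :
    RFle w (w.map (Nat.pair i)) ∧ RFle (w.map (Nat.pair i)) w :=
  rfle_map (pair_injective i)

/-- additivity of finite ranks -/
theorem lv_ext : ∀ (n m : ℕ) (u : Ultrafilter ℕ) (f : ℕ → Ultrafilter ℕ),
    Lv m u → AESD u f → {i | Lv n (f i)} ∈ u → Lv (m + n) (ext f u) := by
  classical
  intro n
  induction n using Nat.strong_induction_on with
  | _ n ih =>
  intro m u f hu hf hn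
  rcases Nat.eq_zero_or_pos n with rfl | hpos
  · -- principal almost everywhere
    have h1 : ¬ RFlt u (ext f u) := by
      rw [lt_iff hf]
      intro h2
      obtain ⟨i, hi1, hi2⟩ := not_disjoint hn h2
      exact hi2 (lv_zero_iff.1 hi1)
    have h2 : RFle (ext f u) u := by
      by_contra h3
      exact h1 ⟨hf.rfle, h3⟩
    exact hu.of_equiv h2 hf.rfle
  obtain ⟨k, rfl⟩ : ∃ k, n = k + 1 := ⟨n - 1, by omega⟩
  constructor
  · -- upper bound
    show ∀ v, RFlt v (ext f u) → LE (m + k) v
    intro w hw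
    obtain ⟨f', hf', hff', hext, -⟩ := hf.exists_sd Filter.univ_mem u
    rw [← hext] at hw
    obtain ⟨g, hg, hgw⟩ := rfle_iff.1 hw.1
    rcases compar hf' hg hgw with ⟨h, hh1, hh2, hh3⟩ | hwu
    · have hle : {i | RFle (h i) (f i)} ∈ u := by
        refine Filter.mem_of_superset (Filter.inter_mem hff' hh3) ?_
        rintro i ⟨h1, h2⟩
        have h1' : f' i = f i := h1
        have h2' : f' i = ext g (h i) := h2
        show RFle (h i) (f i)
        rw [← h1', h2']
        exact rfle_iff.2 ⟨g, hg, rfl⟩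
      have hr : ∃ r ∈ (Finset.range (k + 2) : Set ℕ), {i | Lv r (h i)} ∈ u := by
        refine (Ultrafilter.finite_biUnion_mem_iff (Finset.finite_toSet _)).1 ?_
        refine Filter.mem_of_superset (Filter.inter_mem hle hn) ?_
        rintro i ⟨h1, h2⟩
        obtain ⟨r, hr1, hr2⟩ := exists_lv_of_le (LE.of_rfle (n := k + 1) h2.1 h1)
        simp only [mem_iUnion, exists_prop]
        refine ⟨r, ?_, hr2⟩
        simp
        omega
      obtain ⟨r, hr1, hr2⟩ := hr
      have hr1' : r < k + 2 := by simpa using hr1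
      rcases Nat.lt_or_ge r (k + 1) with hrk | hrk
      · have h1 := ih r (by omega) m u h hu hh1 hr2
        rw [← hh2] at h1
        exact h1.1.mono (by omega)
      · exfalso
        have hrk' : r = k + 1 := by omega
        subst hrk'
        rw [hgw] at hw
        have h1 := (lt_iff (hg.aesd w)).1 hw
        rw [hh2, mem_ext] at h1
        obtain ⟨i, ⟨⟨⟨hi1, hi2⟩, hi3⟩, hi4⟩, hi5⟩ := u.nonempty_of_mem
          (Filter.inter_mem (Filter.inter_mem (Filter.inter_mem (Filter.inter_mem h1 hh3) hff')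
            hr2) hn)
        have h3 : RFlt (h i) (ext g (h i)) := (lt_iff (hg.aesd _)).2 hi1
        have h4 : f' i = ext g (h i) := hi2
        have h5 : f' i = f i := hi3
        rw [← h4, h5] at h3
        have h6 : Lv (k + 1) (h i) := hi4
        have h7 : Lv (k + 1) (f i) := hi5
        exact h6.2 k (Nat.lt_succ_self k) (h7.1 _ h3)
    · exact (hu.1.of_rfle hwu).mono (by omega)
  · -- lower bound
    have h1 : ∀ i, ∃ w, i ∈ {i | Lv (k + 1) (f i)} → (RFlt w (f i) ∧ Lv k w) := by
      intro i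
      by_cases hi : i ∈ {i | Lv (k + 1) (f i)}
      · obtain ⟨w, hw⟩ := Lv.exists_pred hi
        exact ⟨w, fun _ => hw⟩
      · exact ⟨u, fun h => absurd h hi⟩
    choose w hw using h1
    have ha : AESD u (fun i => (w i).map (Nat.pair i)) := (sd_copy w).aesd u
    have h2 : {i | Lv k ((w i).map (Nat.pair i))} ∈ u := by
      refine Filter.mem_of_superset hn ?_
      intro i hi
      exact (hw i hi).2.map (pair_injective i)
    have h3 := ih k (Nat.lt_succ_self k) m u _ hu ha h2
    have h4 : RFlt (ext (fun i => (w i).map (Nat.pair i)) u) (ext f u) := by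
      refine sum_lt ha hf ?_
      refine Filter.mem_of_superset hn ?_
      intro i hi
      exact rflt_of_le_of_lt (copy_equiv (w i) i).2 (hw i hi).1
    intro q hq
    exact h3.not_le h4 q (by omega)

/-- every point of rank `m + n` is a sum of points of rank `n` along a point of rank `m` -/
theorem exists_of_lv : ∀ (n m : ℕ) (v : Ultrafilter ℕ), Lv (m + n) v →
    ∃ u f, Lv m u ∧ AESD u f ∧ {i | Lv n (f i)} ∈ u ∧ v = ext f u := by
  classical
  intro n
  induction n with
  | zero =>
    intro m v hv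
    refine ⟨v, fun i => pure i, hv, SD.pure'.aesd v, ?_, (ext_pure v).symm⟩
    refine Filter.mem_of_superset Filter.univ_mem ?_
    intro i _
    exact lv_zero_iff.2 (prin_iff.2 ⟨i, rfl⟩)
  | succ n ih =>
    intro m v hv
    have hv' : Lv (m + n + 1) v := hv
    obtain ⟨w, hwv, hw⟩ := hv'.exists_pred
    obtain ⟨u, h, hu, hh, hhn, rfl⟩ := ih m w hw
    obtain ⟨g, hg, rfl⟩ := rfle_iff.1 hwv.1
    have hgnp := (lt_iff (hg.aesd _)).1 hwv
    rw [mem_ext] at hgnp
    refine ⟨u, fun i => ext g (h i), hu, hh.comp_sd hg, ?_, ext_assoc h g u⟩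
    by_contra hcon
    rw [← Ultrafilter.compl_mem_iff_notMem] at hcon
    set K : Set ℕ := {i | {j | ¬ Prin (g j)} ∈ h i} ∩ {i | Lv n (h i)} ∩
      {i | Lv (n + 1) (ext g (h i))}ᶜ with hK
    have hKu : K ∈ u := Filter.inter_mem (Filter.inter_mem hgnp hhn) hcon
    -- an intermediate point
    have hx : ∀ i, ∃ x, i ∈ K → (RFlt (h i) x ∧ RFlt x (ext g (h i))) := by
      intro i
      by_cases hi : i ∈ K
      · have hlt : RFlt (h i) (ext g (h i)) := (lt_iff (hg.aesd _)).2 hi.1.1
        have hn1 : Lv n (h i) := hi.1.2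
        have h1 : ¬ LE (n + 1) (ext g (h i)) := by
          intro hle
          apply hi.2
          exact ⟨hle, fun q hq => hn1.not_le hlt q (by omega)⟩
        have h2 : ∃ x, RFlt x (ext g (h i)) ∧ ¬ LE n x := by
          by_contra hcon2
          push Not at hcon2
          exact h1 hcon2
        obtain ⟨x, hx1, hx2⟩ := h2
        refine ⟨x, fun _ => ⟨?_, hx1⟩⟩
        have h3 : ¬ RFle x (h i) := fun h => hx2 (hn1.1.of_rfle h)
        rcases rfle_total hx1.1 hlt.1 with h4 | h4
        · exact absurd h4 h3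
        · exact ⟨h4, h3⟩
      · exact ⟨u, fun h => absurd h hi⟩
    choose x hx using hx
    have ha : AESD u (fun i => (x i).map (Nat.pair i)) := (sd_copy x).aesd u
    have h1 : RFlt (ext h u) (ext (fun i => (x i).map (Nat.pair i)) u) := by
      refine sum_lt hh ha ?_
      refine Filter.mem_of_superset hKu ?_
      intro i hi
      exact rflt_of_lt_of_le (hx i hi).1 (copy_equiv (x i) i).1
    have h2 : RFlt (ext (fun i => (x i).map (Nat.pair i)) u) (ext (fun i => ext g (h i)) u) := by
      refine sum_lt ha (hh.comp_sd hg) ?_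
      refine Filter.mem_of_superset hKu ?_
      intro i hi
      exact rflt_of_le_of_lt (copy_equiv (x i) i).2 (hx i hi).2
    have h3 : LE (m + n) (ext (fun i => (x i).map (Nat.pair i)) u) := hv'.1 _ h2
    exact hw.not_le h1 (m + n) le_rfl h3

/-! ### the rank function -/

theorem mem_WFPart_of_LE {n : ℕ} : ∀ {u : Ultrafilter ℕ}, LE n u → u ∈ WFPart := by
  induction n with
  | zero =>
    intro u hu
    rintro ⟨s, hs0, hs⟩
    have := hs 0
    rw [hs0] at this
    exact hu _ this
  | succ n ih =>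
    intro u hu
    rintro ⟨s, hs0, hs⟩
    have h0 := hs 0
    rw [hs0] at h0
    refine ih (hu _ h0) ⟨fun n => s (n + 1), rfl, fun n => hs (n + 1)⟩

theorem rank_le_iff (n : ℕ) : ∀ (u : Ultrafilter ℕ) (h : Acc RFlt u),
    h.rank ≤ (n : Ordinal.{0}) ↔ LE n u := by
  induction n with
  | zero =>
    intro u h
    rw [h.rank_eq, Ordinal.iSup_le_iff]
    constructor
    · intro h1 v hv
      have := h1 ⟨v, hv⟩
      simp at this
    · rintro h1 ⟨v, hv⟩
      exact absurd hv (h1 v)
  | succ n ih =>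
    intro u h
    have hcast : ((n + 1 : ℕ) : Ordinal.{0}) = Order.succ (n : Ordinal.{0}) := by
      rw [Nat.cast_succ, Order.succ_eq_add_one]
    rw [h.rank_eq, Ordinal.iSup_le_iff]
    constructor
    · intro h1 v hv
      have h2 := h1 ⟨v, hv⟩
      rw [hcast, Order.succ_le_succ_iff] at h2
      exact (ih v _).1 h2
    · rintro h1 ⟨v, hv⟩
      rw [hcast, Order.succ_le_succ_iff]
      exact (ih v _).2 (h1 v hv)

theorem mem_level_iff {n : ℕ} {u : Ultrafilter ℕ} : u ∈ level (n : Ordinal.{0}) ↔ Lv n u := by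
  constructor
  · rintro ⟨h, hr⟩
    constructor
    · exact (rank_le_iff n u (acc_of_mem_WFPart h)).1 hr.le
    · intro m hm hle
      have h1 := (rank_le_iff m u (acc_of_mem_WFPart h)).2 hle
      have h2 : rank u h ≤ (m : Ordinal.{0}) := h1
      rw [hr] at h2
      have h3 : n ≤ m := by exact_mod_cast h2
      omega
  · intro h
    refine ⟨mem_WFPart_of_LE h.1, ?_⟩
    have h1 : rank u (mem_WFPart_of_LE h.1) ≤ (n : Ordinal.{0}) :=
      (rank_le_iff n u _).2 h.1
    refine le_antisymm h1 ?_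
    by_contra hlt
    rw [not_le] at hlt
    obtain ⟨m, hm⟩ := Ordinal.lt_omega0.1 (hlt.trans (Ordinal.natCast_lt_omega0 n))
    have h2 : LE m u := (rank_le_iff m u (acc_of_mem_WFPart (mem_WFPart_of_LE h.1))).1 hm.le
    rw [hm] at hlt
    have h3 : m < n := by exact_mod_cast hlt
    exact h.2 m h3 h2

/-- The levels are additive. -/
theorem level_add (m n : ℕ) :
    level ((m + n : ℕ) : Ordinal.{0}) =
      {v | ∃ (f : ℕ → Ultrafilter ℕ) (u : Ultrafilter ℕ), Function.Injective f ∧
        DiscreteTopology (Set.range f) ∧ u ∈ level (m : Ordinal.{0}) ∧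
        (∀ i, f i ∈ level (n : Ordinal.{0})) ∧ v = ext f u} := by
  ext v
  rw [mem_level_iff]
  constructor
  · intro hv
    obtain ⟨u, f, hu, hf, hn, rfl⟩ := exists_of_lv n m v hv
    obtain ⟨i₀, hi₀⟩ := u.nonempty_of_mem hn
    obtain ⟨f', hf', -, hext, hval⟩ := hf.exists_sd hn (f i₀)
    refine ⟨f', u, hf'.injective, hf'.discrete, mem_level_iff.2 hu, ?_, hext.symm⟩
    intro i
    rw [mem_level_iff]
    rcases hval i with ⟨h1, h2⟩ | ⟨e, he, h2⟩
    · rw [h2]
      exact h1
    · rw [h2]
      exact Lv.map hi₀ he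
  · rintro ⟨f, u, h1, h2, hu, hn, rfl⟩
    have hf := sd_of_discrete h1 h2
    refine lv_ext n m u f (mem_level_iff.1 hu) (hf.aesd u) ?_
    refine Filter.mem_of_superset Filter.univ_mem ?_
    intro i _
    exact mem_level_iff.1 (hn i)

end Pool.Agent.helper81.RF
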