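import Mathlib
import Pool.Agent.helper81.RFRank

/-!
Existence (in ZFC) of a nonprincipal ultrafilter which is minimal in the Rudin-Frolik order.
The construction is Kunen's, by an independent linked family and a transfinite recursion.
-/

set_option autoImplicit false

namespace Pool.Agent.helper81.RF

open Set Filter Cardinal

/-! ### the independent linked family -/

/-- the countable set carrying the family -/
abbrev KS : Type := Σ k : ℕ, (Finset (Fin k) → Finset (Finset (Fin k)))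

/-- the trace of `X` on `{0, …, k-1}` -/
noncomputable def tr (X : Set ℕ) (k : ℕ) : Finset (Fin k) := by
  classical
  exact Finset.univ.filter (fun i => (i : ℕ) ∈ X)

theorem mem_tr {X : Set ℕ} {k : ℕ} {i : Fin k} : i ∈ tr X k ↔ (i : ℕ) ∈ X := by
  classical
  simp [tr]

/-- the basic sets of the linked family -/
def KA (Y X : Set ℕ) (n : ℕ) : Set KS :=
  {s | (s.2 (tr Y s.1)).card ≤ n ∧ tr X s.1 ∈ s.2 (tr Y s.1)}

theorem KA_mono (Y X : Set ℕ) (n : ℕ) : KA Y X n ⊆ KA Y X (n + 1) :=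
  fun _ hs => ⟨hs.1.trans (Nat.le_succ n), hs.2⟩

theorem exists_tr_injOn (σ : Finset (Set ℕ)) :
    ∃ k₀, ∀ k, k₀ ≤ k → Set.InjOn (fun X => tr X k) (σ : Set (Set ℕ)) := by
  classical
  -- for each pair a separating point
  have h1 : ∀ X Y : Set ℕ, ∃ m : ℕ, X ≠ Y → ¬ (m ∈ X ↔ m ∈ Y) := by
    intro X Y
    by_cases h : X = Y
    · exact ⟨0, fun h' => absurd h h'⟩
    · by_contra hcon
      push Not at hcon
      apply h
      ext m
      exact (hcon m).2
  choose m hm using h1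
  refine ⟨(σ ×ˢ σ).sup (fun p => m p.1 p.2 + 1), ?_⟩
  intro k hk X hX Y hY hXY
  by_contra hne
  have h2 : m X Y + 1 ≤ (σ ×ˢ σ).sup (fun p => m p.1 p.2 + 1) :=
    Finset.le_sup (f := fun p : Set ℕ × Set ℕ => m p.1 p.2 + 1)
      (Finset.mem_product.2 ⟨hX, hY⟩ : (X, Y) ∈ σ ×ˢ σ)
  have h3 : m X Y < k := by omega
  apply hm X Y hne
  have h4 : (⟨m X Y, h3⟩ : Fin k) ∈ tr X k ↔ (⟨m X Y, h3⟩ : Fin k) ∈ tr Y k := by
    have h5 : tr X k = tr Y k := hXY
    rw [h5]
  rw [mem_tr, mem_tr] at h4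
  exact h4

theorem finite_lt (k₀ : ℕ) : {s : KS | s.1 < k₀}.Finite := by
  have : {s : KS | s.1 < k₀} ⊆ ⋃ k ∈ (Finset.range k₀ : Set ℕ), Set.range (Sigma.mk k) := by
    rintro ⟨k, f⟩ hk
    simp only [mem_iUnion, exists_prop]
    exact ⟨k, by simpa using hk, f, rfl⟩
  refine Set.Finite.subset (Set.Finite.biUnion (Finset.finite_toSet _) ?_) this
  intro k _
  exact Set.finite_range _

theorem KA_linked (Y : Set ℕ) (n : ℕ) (σ : Finset (Set ℕ)) (hσ : n < σ.card) :
    (⋂ X ∈ σ, KA Y X n).Finite := by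
  classical
  obtain ⟨k₀, hk₀⟩ := exists_tr_injOn σ
  refine Set.Finite.subset (finite_lt k₀) ?_
  intro s hs
  by_contra hk
  have hk' : k₀ ≤ s.1 := not_lt.1 hk
  simp only [mem_iInter] at hs
  have h1 : σ.image (fun X => tr X s.1) ⊆ s.2 (tr Y s.1) := by
    intro t ht
    obtain ⟨X, hX, rfl⟩ := Finset.mem_image.1 ht
    exact (hs X hX).2
  have h2 := Finset.card_le_card h1
  rw [Finset.card_image_of_injOn (hk₀ s.1 hk')] at h2
  have hne : σ.Nonempty := Finset.card_pos.1 (by omega)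
  obtain ⟨X, hX⟩ := hne
  have h3 := (hs X hX).1
  omega

theorem KA_indep (τ : Finset (Set ℕ)) (σ : Set ℕ → Finset (Set ℕ)) :
    (⋂ Y ∈ τ, ⋂ X ∈ σ Y, KA Y X (σ Y).card).Infinite := by
  classical
  obtain ⟨k₀, hk₀⟩ := exists_tr_injOn τ
  intro hfin
  -- find an element with large first coordinate
  have h1 : ∃ N, ∀ s ∈ (⋂ Y ∈ τ, ⋂ X ∈ σ Y, KA Y X (σ Y).card), s.1 ≤ N := by
    obtain ⟨N, hN⟩ := (hfin.image (fun s : KS => s.1)).bddAbove
    exact ⟨N, fun s hs => hN ⟨s, hs, rfl⟩⟩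
  obtain ⟨N, hN⟩ := h1
  let k := max k₀ (N + 1)
  have hk : k₀ ≤ k := le_max_left _ _
  let f : Finset (Fin k) → Finset (Finset (Fin k)) := fun t =>
    if h : ∃ Y ∈ τ, tr Y k = t then (σ h.choose).image (fun X => tr X k) else ∅
  have hf : ∀ Y ∈ τ, f (tr Y k) = (σ Y).image (fun X => tr X k) := by
    intro Y hY
    have hex : ∃ Z ∈ τ, tr Z k = tr Y k := ⟨Y, hY, rfl⟩
    have h2 : f (tr Y k) = (σ hex.choose).image (fun X => tr X k) := by
      simp only [f]
      rw [dif_pos hex]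
    rw [h2]
    have h3 : hex.choose = Y := hk₀ k hk hex.choose_spec.1 hY hex.choose_spec.2
    rw [h3]
  have hmem : (⟨k, f⟩ : KS) ∈ (⋂ Y ∈ τ, ⋂ X ∈ σ Y, KA Y X (σ Y).card) := by
    simp only [mem_iInter]
    intro Y hY X hX
    refine ⟨?_, ?_⟩
    · show (f (tr Y k)).card ≤ _
      rw [hf Y hY]
      exact Finset.card_image_le
    · show tr X k ∈ f (tr Y k)
      rw [hf Y hY]
      exact Finset.mem_image_of_mem _ hX
  have h2 : k ≤ N := hN _ hmem
  have h3 : N + 1 ≤ k := le_max_right _ _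
  omega

theorem exists_family : ∃ A : Set ℕ → Set ℕ → ℕ → Set ℕ,
    (∀ Y X n, A Y X n ⊆ A Y X (n + 1)) ∧
    (∀ Y n (σ : Finset (Set ℕ)), n < σ.card → (⋂ X ∈ σ, A Y X n).Finite) ∧
    (∀ (τ : Finset (Set ℕ)) (σ : Set ℕ → Finset (Set ℕ)),
      (⋂ Y ∈ τ, ⋂ X ∈ σ Y, A Y X (σ Y).card).Infinite) := by
  classical
  have hinf : Infinite KS := Infinite.of_injective (fun k : ℕ => (⟨k, fun _ => ∅⟩ : KS)) (by
    intro a b hab
    exact congrArg Sigma.fst hab)
  obtain ⟨hd⟩ := nonempty_denumerable KS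
  let e : ℕ ≃ KS := (Denumerable.eqv KS).symm
  refine ⟨fun Y X n => e ⁻¹' (KA Y X n), ?_, ?_, ?_⟩
  · intro Y X n
    exact Set.preimage_mono (KA_mono Y X n)
  · intro Y n σ hσ
    have h1 := KA_linked Y n σ hσ
    have h2 : (⋂ X ∈ σ, e ⁻¹' (KA Y X n)) = e ⁻¹' (⋂ X ∈ σ, KA Y X n) := by
      simp only [Set.preimage_iInter]
    rw [h2]
    exact h1.preimage e.injective.injOn
  · intro τ σ
    have h1 := KA_indep τ σ
    have h2 : (⋂ Y ∈ τ, ⋂ X ∈ σ Y, e ⁻¹' (KA Y X (σ Y).card)) =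
        e ⁻¹' (⋂ Y ∈ τ, ⋂ X ∈ σ Y, KA Y X (σ Y).card) := by
      simp only [Set.preimage_iInter]
    rw [h2]
    intro hfin
    apply h1
    have h3 := hfin.image e
    rwa [Set.image_preimage_eq _ e.surjective] at h3

/-! ### one step of the construction -/

section Step

variable (A : Set ℕ → Set ℕ → ℕ → Set ℕ)

/-- the basic intersections -/
def KC (τ : Finset (Set ℕ)) (σ : Set ℕ → Finset (Set ℕ)) : Set ℕ :=
  ⋂ Y ∈ τ, ⋂ X ∈ σ Y, A Y X (σ Y).card

/-- independence of the family, outside a set `D` of dropped indices, modulo a filter -/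
def Ind (F : Filter ℕ) (D : Set (Set ℕ)) : Prop :=
  ∀ (τ : Finset (Set ℕ)) (σ : Set ℕ → Finset (Set ℕ)), (∀ Y ∈ τ, Y ∉ D) →
    ∀ G ∈ F, (G ∩ KC A τ σ).Nonempty

/-- the task attached to a sequence of sets is done in the filter `F` -/
def Done (B : ℕ → Set ℕ) (F : Filter ℕ) : Prop :=
  (∃ n, (⋃ i ∈ Finset.range n, B i) ∈ F) ∨
    ∃ V : Set ℕ → Set ℕ, (∀ α, V α ∈ F) ∧
      ∀ (i : ℕ) (s : Finset (Set ℕ)), i < s.card → (B i ∩ ⋂ α ∈ s, V α).Finite

theorem Done.mono {B : ℕ → Set ℕ} {F F' : Filter ℕ} (h : Done B F) (hF : F' ≤ F) :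
    Done B F' := by
  rcases h with ⟨n, hn⟩ | ⟨V, hV, hV'⟩
  · exact Or.inl ⟨n, hF hn⟩
  · exact Or.inr ⟨V, fun α => hF (hV α), hV'⟩

variable {A}

theorem KA_mono' (hmono : ∀ Y X n, A Y X n ⊆ A Y X (n + 1)) (Y X : Set ℕ) {m n : ℕ}
    (h : m ≤ n) : A Y X m ⊆ A Y X n := by
  induction h with
  | refl => exact Set.Subset.rfl
  | step _ ih => exact ih.trans (hmono Y X _)

theorem step_exists (hmono : ∀ Y X n, A Y X n ⊆ A Y X (n + 1))
    (hlink : ∀ Y n (σ : Finset (Set ℕ)), n < σ.card → (⋂ X ∈ σ, A Y X n).Finite)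
    {F : Filter ℕ} {D : Set (Set ℕ)} (hind : Ind A F D) (hD : ∃ Y, Y ∉ D)
    (B : ℕ → Set ℕ) :
    ∃ (F' : Filter ℕ) (D' : Set (Set ℕ)), F' ≤ F ∧ D ⊆ D' ∧ (D' \ D).Finite ∧
      Ind A F' D' ∧ Done B F' := by
  classical
  let U : ℕ → Set ℕ := fun n => (⋃ i ∈ Finset.range n, B i)ᶜ
  have hU : ∀ m n, m ≤ n → U n ⊆ U m := by
    intro m n hmn
    apply Set.compl_subset_compl.2
    intro x hx
    simp only [mem_iUnion, Finset.mem_range, exists_prop] at hx ⊢
    obtain ⟨i, hi, hxi⟩ := hx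
    exact ⟨i, by omega, hxi⟩
  by_cases hcase : ∀ n, Ind A (F ⊓ 𝓟 (U n)) D
  · -- the second alternative
    obtain ⟨Y₀, hY₀⟩ := hD
    let V : Set ℕ → Set ℕ := fun α => {x | ∀ i, x ∈ B i → x ∈ A Y₀ α i}
    let F' : Filter ℕ := F ⊓ ⨅ α : Set ℕ, 𝓟 (V α)
    refine ⟨F', insert Y₀ D, inf_le_left, Set.subset_insert _ _, ?_, ?_, ?_⟩
    · refine Set.Finite.subset (Set.finite_singleton Y₀) ?_
      rintro Z ⟨hZ1, hZ2⟩
      rcases hZ1 with h | h
      · exact h
      · exact absurd h hZ2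
    · intro τ σ hτ G hG
      -- decompose `G`
      rw [Filter.mem_inf_iff_superset] at hG
      obtain ⟨G₁, hG₁, G₂, hG₂, hG₁₂⟩ := hG
      rw [Filter.mem_iInf_finite] at hG₂
      obtain ⟨s, hs⟩ := hG₂
      have hs' : (⋂ α ∈ s, V α) ⊆ G₂ := by
        have : (⨅ α ∈ s, 𝓟 (V α)) = 𝓟 (⋂ α ∈ s, V α) := by
          rw [Filter.iInf_principal_finset]
        rw [this] at hs
        exact Filter.mem_principal.1 hs
      have h1 := hcase s.card (insert Y₀ τ) (fun Z => if Z = Y₀ then s else σ Z) (by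
        intro Z hZ
        rcases Finset.mem_insert.1 hZ with h | h
        · rw [h]
          exact hY₀
        · exact fun hZD => hτ Z h (Set.mem_insert_of_mem _ hZD))
        (G₁ ∩ U s.card) (Filter.inter_mem (Filter.mem_inf_of_left hG₁)
          (Filter.mem_inf_of_right (Filter.mem_principal_self _)))
      obtain ⟨x, ⟨hx1, hx2⟩, hx3⟩ := h1
      simp only [KC, mem_iInter] at hx3
      refine ⟨x, hG₁₂ ⟨hx1, hs' ?_⟩, ?_⟩
      · simp only [mem_iInter]
        intro α hα i hi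
        have h2 : x ∈ A Y₀ α s.card := by
          have := hx3 Y₀ (Finset.mem_insert_self _ _) α (by rw [if_pos rfl]; exact hα)
          rwa [if_pos rfl] at this
        have h3 : s.card ≤ i := by
          by_contra hlt
          apply hx2
          simp only [mem_iUnion, Finset.mem_range, exists_prop]
          exact ⟨i, by omega, hi⟩
        exact KA_mono' hmono _ _ h3 h2
      · simp only [KC, mem_iInter]
        intro Z hZ X hX
        have hne : Z ≠ Y₀ := by
          rintro rfl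
          exact hτ Z hZ (Set.mem_insert _ _)
        have := hx3 Z (Finset.mem_insert_of_mem hZ) X (by rw [if_neg hne]; exact hX)
        rwa [if_neg hne] at this
    · right
      refine ⟨V, ?_, ?_⟩
      · intro α
        exact Filter.mem_inf_of_right (Filter.mem_iInf_of_mem α (Filter.mem_principal_self _))
      · intro i s hs
        refine Set.Finite.subset (hlink Y₀ i s hs) ?_
        rintro x ⟨hx1, hx2⟩
        simp only [mem_iInter] at hx2 ⊢
        intro α hα
        exact hx2 α hα i hx1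
  · -- the first alternative
    push Not at hcase
    obtain ⟨n, hn⟩ := hcase
    unfold Ind at hn
    push Not at hn
    obtain ⟨τ, σ, hτ, G, hG, hempty⟩ := hn
    rw [Filter.mem_inf_principal] at hG
    refine ⟨F ⊓ 𝓟 (KC A τ σ), D ∪ (τ : Set (Set ℕ)), inf_le_left, Set.subset_union_left, ?_, ?_,
      Or.inl ⟨n, ?_⟩⟩
    · refine Set.Finite.subset (Finset.finite_toSet τ) ?_
      rintro Z ⟨hZ1, hZ2⟩
      rcases hZ1 with h | h
      · exact absurd h hZ2
      · exact h
    · intro τ' σ' hτ' G' hG'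
      rw [Filter.mem_inf_principal] at hG'
      have h1 := hind (τ ∪ τ') (fun Z => if Z ∈ τ then σ Z else σ' Z) (by
        intro Z hZ
        rcases Finset.mem_union.1 hZ with h | h
        · exact hτ Z h
        · exact fun hZD => hτ' Z h (Set.mem_union_left _ hZD)) _ hG'
      obtain ⟨x, hx1, hx2⟩ := h1
      simp only [KC, mem_iInter] at hx2
      have hx3 : x ∈ KC A τ σ := by
        simp only [KC, mem_iInter]
        intro Z hZ X hX
        have := hx2 Z (Finset.mem_union_left _ hZ) X (by rw [if_pos hZ]; exact hX)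
        rwa [if_pos hZ] at this
      refine ⟨x, hx1 hx3, ?_⟩
      simp only [KC, mem_iInter]
      intro Z hZ X hX
      have hne : Z ∉ τ := fun h => hτ' Z hZ (Set.mem_union_right _ h)
      have := hx2 Z (Finset.mem_union_right _ hZ) X (by rw [if_neg hne]; exact hX)
      rwa [if_neg hne] at this
    · rw [Filter.mem_inf_principal]
      refine Filter.mem_of_superset hG ?_
      intro x hx hxC
      by_contra hxU
      have hxG : x ∈ G := hx hxU
      have : x ∈ G ∩ KC A τ σ := ⟨hxG, hxC⟩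
      rw [hempty] at this
      exact this

/-- one step of the transfinite recursion -/
noncomputable def stp (A : Set ℕ → Set ℕ → ℕ → Set ℕ) (B : ℕ → Set ℕ)
    (p : Filter ℕ × Set (Set ℕ)) : Filter ℕ × Set (Set ℕ) := by
  classical
  exact
    if h : ∃ q : Filter ℕ × Set (Set ℕ), q.1 ≤ p.1 ∧ p.2 ⊆ q.2 ∧ (q.2 \ p.2).Finite ∧
      Ind A q.1 q.2 ∧ Done B q.1 then h.choose else p

theorem stp_spec {A : Set ℕ → Set ℕ → ℕ → Set ℕ} (B : ℕ → Set ℕ)
    (p : Filter ℕ × Set (Set ℕ)) :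
    (stp A B p).1 ≤ p.1 ∧ p.2 ⊆ (stp A B p).2 ∧ ((stp A B p).2 \ p.2).Finite := by
  classical
  unfold stp
  split_ifs with h
  · exact ⟨h.choose_spec.1, h.choose_spec.2.1, h.choose_spec.2.2.1⟩
  · exact ⟨le_rfl, Set.Subset.rfl, by simp⟩

theorem stp_spec' (hmono : ∀ Y X n, A Y X n ⊆ A Y X (n + 1))
    (hlink : ∀ Y n (σ : Finset (Set ℕ)), n < σ.card → (⋂ X ∈ σ, A Y X n).Finite)
    (B : ℕ → Set ℕ) (p : Filter ℕ × Set (Set ℕ)) (hind : Ind A p.1 p.2) (hD : ∃ Y, Y ∉ p.2) :
    Ind A (stp A B p).1 (stp A B p).2 ∧ Done B (stp A B p).1 := by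
  classical
  have h : ∃ q : Filter ℕ × Set (Set ℕ), q.1 ≤ p.1 ∧ p.2 ⊆ q.2 ∧ (q.2 \ p.2).Finite ∧
      Ind A q.1 q.2 ∧ Done B q.1 := by
    obtain ⟨F', D', h1, h2, h3, h4, h5⟩ := step_exists hmono hlink hind hD B
    exact ⟨(F', D'), h1, h2, h3, h4, h5⟩
  unfold stp
  rw [dif_pos h]
  exact h.choose_spec.2.2.2

end Step

/-! ### the transfinite recursion -/

/-- the index type of the recursion: the initial ordinal of the continuum -/
abbrev KW : Type := (#(Set ℕ)).ord.ToType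

/-- the states of the recursion -/
noncomputable def KState (A : Set ℕ → Set ℕ → ℕ → Set ℕ) (e : KW → ℕ → Set ℕ) :
    KW → Filter ℕ × Set (Set ℕ) :=
  WellFounded.fix (wellFounded_lt (α := KW)) (fun t rec =>
    stp A (e t) (Filter.cofinite ⊓ ⨅ s : Set.Iio t, (rec s.1 s.2).1,
      ⋃ s : Set.Iio t, (rec s.1 s.2).2))

section Rec

variable (A : Set ℕ → Set ℕ → ℕ → Set ℕ) (e : KW → ℕ → Set ℕ)

/-- the state before stage `t` -/
noncomputable def KPre (t : KW) : Filter ℕ × Set (Set ℕ) :=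
  (Filter.cofinite ⊓ ⨅ s : Set.Iio t, (KState A e s.1).1, ⋃ s : Set.Iio t, (KState A e s.1).2)

theorem KState_eq (t : KW) : KState A e t = stp A (e t) (KPre A e t) := by
  unfold KPre
  conv_lhs => rw [KState, WellFounded.fix_eq]
  rfl

theorem KState_anti {s t : KW} (h : s < t) :
    (KState A e t).1 ≤ (KState A e s).1 ∧ (KState A e s).2 ⊆ (KState A e t).2 := by
  have h1 := stp_spec (A := A) (e t) (KPre A e t)
  rw [← KState_eq] at h1
  refine ⟨h1.1.trans ?_, Set.Subset.trans ?_ h1.2.1⟩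
  · exact inf_le_right.trans (iInf_le (fun s : Set.Iio t => (KState A e s.1).1) ⟨s, h⟩)
  · exact Set.subset_iUnion (fun s : Set.Iio t => (KState A e s.1).2) ⟨s, h⟩

theorem KState_le_cofinite (t : KW) : (KState A e t).1 ≤ Filter.cofinite := by
  have h1 := stp_spec (A := A) (e t) (KPre A e t)
  rw [← KState_eq] at h1
  exact h1.1.trans inf_le_left

theorem KPre_small (t : KW) : ∃ Y, Y ∉ (KPre A e t).2 := by
  classical
  have h1 : (KPre A e t).2 ⊆ ⋃ s : Set.Iio t, ((KState A e s.1).2 \ (KPre A e s.1).2) := by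
    intro Y hY
    have hex : ∃ s, s < t ∧ Y ∈ (KState A e s).2 := by
      simp only [KPre, mem_iUnion] at hY
      obtain ⟨s, hs⟩ := hY
      exact ⟨s.1, s.2, hs⟩
    obtain ⟨s, ⟨hs1, hs2⟩, hmin⟩ := WellFounded.has_min (wellFounded_lt (α := KW))
      {s | s < t ∧ Y ∈ (KState A e s).2} hex
    rw [mem_iUnion]
    refine ⟨⟨s, hs1⟩, hs2, ?_⟩
    intro hY'
    simp only [KPre, mem_iUnion] at hY'
    obtain ⟨r, hr⟩ := hY'
    exact hmin r.1 ⟨lt_trans r.2 hs1, hr⟩ r.2
  by_contra hcon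
  push Not at hcon
  have h2 : (⋃ s : Set.Iio t, ((KState A e s.1).2 \ (KPre A e s.1).2)) = Set.univ := by
    apply Set.eq_univ_of_forall
    intro Y
    exact h1 (hcon Y)
  have h3 : #(⋃ s : Set.Iio t, ((KState A e s.1).2 \ (KPre A e s.1).2)) ≤
      #(Set.Iio t) * ⨆ s : Set.Iio t, #((KState A e s.1).2 \ (KPre A e s.1).2 : Set (Set ℕ)) :=
    Cardinal.mk_iUnion_le _
  have h4 : (⨆ s : Set.Iio t, #((KState A e s.1).2 \ (KPre A e s.1).2 : Set (Set ℕ))) ≤ ℵ₀ := by
    apply ciSup_le'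
    intro s
    have h5 := (stp_spec (A := A) (e s.1) (KPre A e s.1)).2.2
    rw [← KState_eq] at h5
    exact (Set.Finite.countable h5).le_aleph0
  have hc : ℵ₀ < #(Set ℕ) := by
    rw [Cardinal.mk_set, Cardinal.mk_nat]
    exact Cardinal.cantor _
  have h6 : #(Set.Iio t) < #(Set ℕ) := by
    have := Cardinal.mk_Iio_lt t (by simp)
    simpa using this
  have h7 : #(Set.Iio t) * (⨆ s : Set.Iio t,
      #((KState A e s.1).2 \ (KPre A e s.1).2 : Set (Set ℕ))) < #(Set ℕ) :=
    Cardinal.mul_lt_of_lt hc.le h6 (h4.trans_lt hc)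
  rw [h2, Cardinal.mk_univ] at h3
  exact absurd (h3.trans_lt h7) (lt_irrefl _)

variable {A}

theorem KState_good (hmono : ∀ Y X n, A Y X n ⊆ A Y X (n + 1))
    (hlink : ∀ Y n (σ : Finset (Set ℕ)), n < σ.card → (⋂ X ∈ σ, A Y X n).Finite)
    (hindep : ∀ (τ : Finset (Set ℕ)) (σ : Set ℕ → Finset (Set ℕ)),
      (⋂ Y ∈ τ, ⋂ X ∈ σ Y, A Y X (σ Y).card).Infinite) (t : KW) :
    Ind A (KState A e t).1 (KState A e t).2 ∧ Done (e t) (KState A e t).1 := by
  classical
  induction t using WellFounded.induction (wellFounded_lt (α := KW)) with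
  | _ t ih =>
  rw [KState_eq]
  apply stp_spec' hmono hlink
  · intro τ σ hτ G hG
    simp only [KPre] at hG
    rw [Filter.mem_inf_iff_superset] at hG
    obtain ⟨G₁, hG₁, G₂, hG₂, hG₁₂⟩ := hG
    by_cases hne : Nonempty (Set.Iio t)
    · rw [Filter.mem_iInf_of_directed] at hG₂
      · obtain ⟨s, hs⟩ := hG₂
        have h1 := (ih s.1 s.2).1 τ σ (by
          intro Y hY hYs
          apply hτ Y hY
          simp only [KPre, mem_iUnion]
          exact ⟨s, hYs⟩) (G₁ ∩ G₂)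
          (Filter.inter_mem (KState_le_cofinite A e s.1 hG₁) hs)
        obtain ⟨x, hx1, hx2⟩ := h1
        exact ⟨x, hG₁₂ hx1, hx2⟩
      · intro a b
        rcases lt_trichotomy a.1 b.1 with h | h | h
        · exact ⟨b, (KState_anti A e h).1, le_rfl⟩
        · have : a = b := Subtype.ext h
          subst this
          exact ⟨a, le_rfl, le_rfl⟩
        · exact ⟨a, le_rfl, (KState_anti A e h).1⟩
    · have hempty : IsEmpty (Set.Iio t) := not_nonempty_iff.1 hne
      rw [iInf_of_empty, Filter.mem_top] at hG₂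
      have h1 : (KC A τ σ).Infinite := hindep τ σ
      have h2 : (G₁ᶜ).Finite := hG₁
      obtain ⟨x, hx1, hx2⟩ := (h1.sdiff h2).nonempty
      refine ⟨x, hG₁₂ ⟨not_not.1 hx2, by rw [hG₂]; trivial⟩, hx1⟩
  · exact KPre_small A e t

end Rec

/-- Kunen: there is a nonprincipal ultrafilter in which every task is done. -/
theorem exists_kunen : ∃ u : Ultrafilter ℕ, (u : Filter ℕ) ≤ Filter.cofinite ∧
    ∀ B : ℕ → Set ℕ, Done B (u : Filter ℕ) := by
  classical
  obtain ⟨A, hmono, hlink, hindep⟩ := exists_family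
  have hcard : #KW = #(ℕ → Set ℕ) := by
    have h1 : #KW = #(Set ℕ) := by simp [KW]
    rw [h1]
    simp only [Cardinal.mk_set, Cardinal.mk_nat, Cardinal.mk_pi, Cardinal.prod_const,
      Cardinal.lift_id]
    rw [← Cardinal.power_mul, Cardinal.aleph0_mul_aleph0]
  obtain ⟨e⟩ := Cardinal.eq.1 hcard
  have hgood := KState_good (A := A) (e := fun t => e t) hmono hlink hindep
  have hne : Nonempty KW := ⟨e.symm (fun _ => ∅)⟩
  have hdir : Directed (· ≥ ·) (fun t : KW => (KState A (fun t => e t) t).1) := by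
    intro a b
    rcases lt_trichotomy a b with h | h | h
    · exact ⟨b, (KState_anti A _ h).1, le_rfl⟩
    · subst h
      exact ⟨a, le_rfl, le_rfl⟩
    · exact ⟨a, le_rfl, (KState_anti A _ h).1⟩
  have hnb : (⨅ t : KW, (KState A (fun t => e t) t).1).NeBot := by
    apply Filter.iInf_neBot_of_directed hdir
    intro t
    rw [← Filter.forall_mem_nonempty_iff_neBot]
    intro G hG
    obtain ⟨x, hx, -⟩ := (hgood t).1 ∅ (fun _ => ∅) (by simp) G hG
    exact ⟨x, hx⟩
  refine ⟨Ultrafilter.of (⨅ t : KW, (KState A (fun t => e t) t).1), ?_, ?_⟩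
  · obtain ⟨t⟩ := hne
    exact (Ultrafilter.of_le _).trans ((iInf_le _ t).trans (KState_le_cofinite A _ t))
  · intro B
    have h1 := (hgood (e.symm B)).2
    simp only [Equiv.apply_symm_apply] at h1
    exact h1.mono ((Ultrafilter.of_le _).trans (iInf_le _ (e.symm B)))

theorem prin_of_finite {u : Ultrafilter ℕ} {s : Set ℕ} (hs : s.Finite) (hu : s ∈ u) :
    Prin u := by
  have h1 : s = ⋃ i ∈ s, {i} := by simp
  rw [h1] at hu
  obtain ⟨i, -, hi⟩ := (Ultrafilter.finite_biUnion_mem_iff hs).1 hu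
  exact ⟨i, hi⟩

/-- there is a nonprincipal ultrafilter of rank one -/
theorem exists_lv_one : ∃ u : Ultrafilter ℕ, Lv 1 u := by
  classical
  obtain ⟨u, hcof, hdone⟩ := exists_kunen
  have hnp : ¬ Prin u := by
    rintro ⟨n, hn⟩
    have h1 : ({n} : Set ℕ)ᶜ ∈ u := hcof (by simp)
    obtain ⟨x, hx1, hx2⟩ := not_disjoint hn h1
    exact hx2 hx1
  refine ⟨u, ?_, ?_⟩
  · show ∀ v, RFlt v u → LE 0 v
    intro v hv
    apply (lv_zero_iff.2 _).1
    by_contra hvnp
    obtain ⟨f, hf, rfl⟩ := rfle_iff.1 hv.1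
    have hK := (lt_iff (hf.aesd v)).1 hv
    obtain ⟨B, hB, hfB⟩ := hf
    rcases hdone B with ⟨n, hn⟩ | ⟨V, hV1, hV2⟩
    · have h1 : (⋃ i ∈ (Finset.range n : Set ℕ), B i) ∈ ext f v := by simpa using hn
      obtain ⟨i, -, hi⟩ := (Ultrafilter.finite_biUnion_mem_iff (Finset.finite_toSet _)).1 h1
      apply hvnp
      refine ⟨i, ?_⟩
      rw [mem_ext] at hi
      refine Filter.mem_of_superset hi ?_
      intro j hj
      rw [mem_singleton_iff]
      by_contra hne
      obtain ⟨x, hx1, hx2⟩ := not_disjoint hj (hfB j)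
      exact Set.disjoint_left.1 (hB hne) hx2 hx1
    · have h1 : ∀ i, ¬ Prin (f i) → {α | V α ∈ f i}.Finite := by
        intro i hi
        by_contra hinf
        have hinf' : {α | V α ∈ f i}.Infinite := hinf
        obtain ⟨s, hs1, hs2⟩ := hinf'.exists_subset_card_eq (i + 1)
        apply hi
        refine prin_of_finite (hV2 i s (by omega)) ?_
        refine Filter.inter_mem (hfB i) ?_
        rw [Filter.biInter_finset_mem]
        intro α hα
        exact hs1 hα
      have h2 : (⋃ i ∈ {i | ¬ Prin (f i)}, {α | V α ∈ f i}).Countable := by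
        refine Set.Countable.biUnion (Set.to_countable _) ?_
        intro i hi
        exact (h1 i hi).countable
      have h3 : ∃ α, α ∉ (⋃ i ∈ {i | ¬ Prin (f i)}, {α | V α ∈ f i}) := by
        by_contra hcon
        push Not at hcon
        have h4 : (Set.univ : Set (Set ℕ)).Countable := by
          rwa [← Set.eq_univ_of_forall hcon]
        have h5 : #(Set ℕ) ≤ ℵ₀ := by
          have := Set.countable_univ_iff.1 h4
          exact Cardinal.mk_le_aleph0
        have h6 : ℵ₀ < #(Set ℕ) := by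
          rw [Cardinal.mk_set, Cardinal.mk_nat]
          exact Cardinal.cantor _
        exact absurd h5 (not_le.2 h6)
      obtain ⟨α, hα⟩ := h3
      have h4 : V α ∈ ext f v := hV1 α
      rw [mem_ext] at h4
      obtain ⟨i, hi1, hi2⟩ := not_disjoint h4 hK
      apply hα
      simp only [mem_iUnion, exists_prop]
      exact ⟨i, hi2, hi1⟩
  · intro m hm hle
    have hm' : m = 0 := by omega
    subst hm'
    exact hnp (lv_zero_iff.1 ⟨hle, fun m hm => absurd hm (Nat.not_lt_zero m)⟩)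

theorem exists_lv : ∀ n : ℕ, ∃ u : Ultrafilter ℕ, Lv n u := by
  intro n
  induction n with
  | zero => exact ⟨pure 0, lv_zero_iff.2 (prin_iff.2 ⟨0, rfl⟩)⟩
  | succ n ih =>
    obtain ⟨w, hw⟩ := ih
    obtain ⟨u, hu⟩ := exists_lv_one
    refine ⟨ext (fun i => w.map (Nat.pair i)) u, ?_⟩
    have h1 := lv_ext n 1 u (fun i => w.map (Nat.pair i)) hu ((sd_copy (fun _ => w)).aesd u)
      (Filter.mem_of_superset Filter.univ_mem (fun i _ => hw.map (pair_injective i)))
    rwa [Nat.add_comm] at h1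

end Pool.Agent.helper81.RF
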