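import Mathlib
import Pool.Agent.helper81.RFKunen

/-!
Discretely weak p-points are exactly the points of rank one.
-/

set_option autoImplicit false

namespace Pool.Agent.helper81.RF

open Set Filter

theorem lv_one_of_dwpp {u : Ultrafilter ℕ} (h : DiscretelyWeakPPoint u) : Lv 1 u := by
  classical
  obtain ⟨hnp, hcl⟩ := h
  have hnp' : ¬ Prin u := by
    intro hp
    obtain ⟨n, hn⟩ := prin_iff.1 hp
    exact hnp n hn
  refine ⟨?_, ?_⟩
  · show ∀ v, RFlt v u → LE 0 v
    intro v hv
    apply (lv_zero_iff.2 _).1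
    by_contra hvnp
    obtain ⟨f, hf, hfu⟩ := rfle_iff.1 hv.1
    have hv' := hv
    rw [hfu] at hv'
    have hK := (lt_iff (hf.aesd v)).1 hv'
    set K : Set ℕ := {i | ¬ Prin (f i)} ∩ {i | f i ≠ u} with hKdef
    have hKv : K ∈ v := by
      refine Filter.inter_mem hK ?_
      by_contra hcon
      replace hcon : {i | f i ≠ u}ᶜ ∈ v := Ultrafilter.compl_mem_iff_notMem.2 hcon
      obtain ⟨i, hi⟩ := v.nonempty_of_mem hcon
      apply hvnp
      refine ⟨i, Filter.mem_of_superset hcon ?_⟩
      intro j hj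
      have h1 : f i = u := by
        by_contra h1
        exact hi h1
      have h2 : f j = u := by
        by_contra h2
        exact hj h2
      exact hf.injective (h2.trans h1.symm)
    refine hcl (f '' K) (Set.Countable.image (Set.to_countable K) f) ?_ ?_ ?_
    · have := hf.discrete
      exact DiscreteTopology.of_subset this (Set.image_subset_range f K)
    · rintro _ ⟨i, hi, rfl⟩
      refine ⟨?_, hi.2⟩
      intro n hn
      exact hi.1 (prin_iff.2 ⟨n, hn⟩)
    · rw [ultrafilterBasis_is_basis.mem_closure_iff]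
      rintro _ ⟨A, rfl⟩ hA
      have hA' : A ∈ u := hA
      rw [hfu, mem_ext] at hA'
      obtain ⟨i, hi1, hi2⟩ := not_disjoint hA' hKv
      exact ⟨f i, hi1, i, hi2, rfl⟩
  · intro m hm hle
    have hm' : m = 0 := by omega
    subst hm'
    exact hnp' (lv_zero_iff.1 ⟨hle, fun m hm => absurd hm (Nat.not_lt_zero m)⟩)

theorem dwpp_of_lv_one {u : Ultrafilter ℕ} (h : Lv 1 u) : DiscretelyWeakPPoint u := by
  classical
  have hnp : ¬ Prin u := by
    intro hp
    have := h.unique (lv_zero_iff.2 hp)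
    omega
  refine ⟨fun n hn => hnp (prin_iff.2 ⟨n, hn⟩), ?_⟩
  intro D hDc hDd hD hcl
  -- enumerate `D`
  have hDinf : D.Infinite := by
    intro hfin
    have h1 : closure D = D := (hfin.isClosed).closure_eq
    rw [h1] at hcl
    exact (hD u hcl).2 rfl
  have hinf : Infinite D := hDinf.to_subtype
  have hcount : Countable D := hDc.to_subtype
  obtain ⟨hden⟩ := nonempty_denumerable D
  let e : ℕ ≃ D := (Denumerable.eqv D).symm
  let f : ℕ → Ultrafilter ℕ := fun n => (e n : Ultrafilter ℕ)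
  have hfinj : Function.Injective f := fun a b hab => e.injective (Subtype.ext hab)
  have hrange : Set.range f = D := by
    ext v
    constructor
    · rintro ⟨n, rfl⟩
      exact (e n).2
    · intro hv
      obtain ⟨n, hn⟩ := e.surjective ⟨v, hv⟩
      exact ⟨n, by simp only [f]; rw [hn]⟩
  have hfsd : SD f := sd_of_discrete hfinj (by rw [hrange]; exact hDd)
  have hx : ∃ x, ext f x = u := by
    apply exists_ext_eq
    intro S hS
    rw [ultrafilterBasis_is_basis.mem_closure_iff] at hcl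
    obtain ⟨v, hv1, hv2⟩ := hcl {v | S ∈ v} ⟨S, rfl⟩ hS
    rw [← hrange] at hv2
    obtain ⟨j, rfl⟩ := hv2
    exact ⟨j, hv1⟩
  obtain ⟨x, rfl⟩ := hx
  have hlt : RFlt x (ext f x) := by
    rw [lt_iff (hfsd.aesd x)]
    refine Filter.mem_of_superset Filter.univ_mem ?_
    intro i _ hp
    obtain ⟨n, hn⟩ := prin_iff.1 hp
    have hi : f i ∈ D := by
      rw [← hrange]
      exact ⟨i, rfl⟩
    exact (hD (f i) hi).1 n hn
  have hx0 : Prin x := lv_zero_iff.1 ⟨h.1 x hlt, fun m hm => absurd hm (Nat.not_lt_zero m)⟩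
  obtain ⟨n, rfl⟩ := prin_iff.1 hx0
  have h1 : ext f (pure n) = f n := by
    apply Ultrafilter.ext
    intro s
    rw [mem_ext, Ultrafilter.mem_pure]
    rfl
  have hi : f n ∈ D := by
    rw [← hrange]
    exact ⟨n, rfl⟩
  exact (hD (f n) hi).2 h1.symm

theorem dwpp_iff {u : Ultrafilter ℕ} : DiscretelyWeakPPoint u ↔ Lv 1 u :=
  ⟨lv_one_of_dwpp, dwpp_of_lv_one⟩

end Pool.Agent.helper81.RF
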