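import Pool.Agent.helper81.LclDefs

/-!
# Closures of cones that respect small squares
-/

namespace Pool.Agent.helper81.Lcl

/-- The cone of index `i`. -/
def cone (i : ℕ) (s t : ℤ) : Prop :=
  0 ≤ 2 * ((i : ℤ) + 2) * s + ((i : ℤ) + 1) * t ∧ 0 ≤ 2 * ((i : ℤ) + 2) * t + ((i : ℤ) + 1) * s

theorem cone_add {i : ℕ} {s t s' t' : ℤ} (h : cone i s t) (h' : cone i s' t') :
    cone i (s + s') (t + t') := by
  obtain ⟨h1, h2⟩ := h
  obtain ⟨h3, h4⟩ := h'
  exact ⟨by linarith, by linarith⟩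

theorem cone_quad (i : ℕ) {s t : ℤ} (hs : 0 ≤ s) (ht : 0 ≤ t) : cone i s t :=
  ⟨by positivity, by positivity⟩

theorem cone_succ {i : ℕ} {s t : ℤ} (h : cone i s t) : cone (i + 1) s t := by
  have key : ∀ (i : ℕ) (s t : ℤ), 0 ≤ 2 * ((i : ℤ) + 2) * s + ((i : ℤ) + 1) * t →
      0 ≤ 2 * ((i : ℤ) + 2) * t + ((i : ℤ) + 1) * s →
      0 ≤ 2 * (((i + 1 : ℕ) : ℤ) + 2) * s + (((i + 1 : ℕ) : ℤ) + 1) * t := by
    intro i s t h1 h2
    push_cast
    have hi : (0 : ℤ) ≤ i := Int.natCast_nonneg i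
    rcases le_or_gt 0 t with ht | ht
    · have e : ((i : ℤ) + 2) * (2 * ((i : ℤ) + 1 + 2) * s + ((i : ℤ) + 1 + 1) * t)
          = ((i : ℤ) + 3) * (2 * ((i : ℤ) + 2) * s + ((i : ℤ) + 1) * t) + t := by ring
      have h3 : 0 ≤ ((i : ℤ) + 2) * (2 * ((i : ℤ) + 1 + 2) * s + ((i : ℤ) + 1 + 1) * t) := by
        rw [e]; positivity
      exact nonneg_of_mul_nonneg_right h3 (by linarith)
    · have hs : 0 < s := by
        by_contra hs
        push Not at hs
        have : 2 * ((i : ℤ) + 2) * t + ((i : ℤ) + 1) * s < 0 := by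
          have h4 : 2 * ((i : ℤ) + 2) * t < 0 := mul_neg_of_pos_of_neg (by linarith) ht
          have h5 : ((i : ℤ) + 1) * s ≤ 0 := mul_nonpos_of_nonneg_of_nonpos (by linarith) hs
          linarith
        linarith
      have h6 : -t ≤ s := by
        by_contra h6
        push Not at h6
        nlinarith
      nlinarith
  obtain ⟨h1, h2⟩ := h
  exact ⟨key i s t h1 h2, key i t s h2 h1⟩

/-- The constant of the deviation bound. -/
def cc (i : ℕ) : ℤ := ((i : ℤ) + 2) * (6 * ((i : ℤ) + 2) + 4)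

theorem cc_ge (i : ℕ) : 32 ≤ cc i := by
  unfold cc
  have hi : (0 : ℤ) ≤ i := Int.natCast_nonneg i
  nlinarith

theorem cone_bound {i : ℕ} {s t s' t' r : ℤ} (hr : 0 ≤ r) (h : cone i s t)
    (h' : ¬ cone (i + 1) s' t') (_hs1 : s' - s ≤ 2 * r) (hs2 : s - s' ≤ 2 * r)
    (_ht1 : t' - t ≤ 2 * r) (ht2 : t - t' ≤ 2 * r) :
    (-(cc i * r) ≤ s ∧ s ≤ cc i * r) ∧ (-(cc i * r) ≤ t ∧ t ≤ cc i * r) := by
  have key : ∀ (s t s' t' : ℤ), 0 ≤ 2 * ((i : ℤ) + 2) * s + ((i : ℤ) + 1) * t →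
      0 ≤ 2 * ((i : ℤ) + 2) * t + ((i : ℤ) + 1) * s →
      2 * (((i + 1 : ℕ) : ℤ) + 2) * s' + (((i + 1 : ℕ) : ℤ) + 1) * t' < 0 →
      s - s' ≤ 2 * r → t - t' ≤ 2 * r →
      (-(cc i * r) ≤ s ∧ s ≤ cc i * r) ∧ (-(cc i * r) ≤ t ∧ t ≤ cc i * r) := by
    intro s t s' t' h1 h2 h3 h4 h5
    push_cast at h3
    obtain ⟨a, ha⟩ : ∃ a : ℤ, a = (i : ℤ) + 2 := ⟨_, rfl⟩
    have ha2 : 2 ≤ a := by
      have hi : (0 : ℤ) ≤ i := Int.natCast_nonneg i
      omega
    have e1 : (i : ℤ) + 1 = a - 1 := by omega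
    have e2 : (i : ℤ) + 1 + 2 = a + 1 := by omega
    have e3 : (i : ℤ) + 1 + 1 = a := by omega
    have hcc : cc i = a * (6 * a + 4) := by unfold cc; rw [ha]
    rw [e1, ← ha] at h1 h2
    rw [e2, e3] at h3
    rw [hcc]
    -- `2(a+1)s + a t < (6a+4) r`
    have h6 : 2 * (a + 1) * s + a * t < (6 * a + 4) * r := by nlinarith
    -- upper bound for t
    have h7 : t ≤ a * (6 * a + 4) * r := by nlinarith
    -- upper bound for s
    have h8 : s ≤ 4 * r := by
      by_contra h8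
      push Not at h8
      have hs0 : 0 < s := by linarith
      have h9 : 2 * a * t ≥ -((a - 1) * s) := by linarith
      have h10 : 2 * (2 * (a + 1) * s + a * t) < 2 * ((6 * a + 4) * r) := by linarith
      nlinarith
    have h4r : 4 * r ≤ a * (6 * a + 4) * r := by nlinarith
    refine ⟨⟨?_, by linarith⟩, ⟨?_, h7⟩⟩
    · rcases le_or_gt 0 t with ht | ht
      · -- 2a s ≥ -(a-1) t ≥ - a t... so s ≥ -t
        have h11 : -t ≤ s := by
          by_contra h11
          push Not at h11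
          nlinarith
        nlinarith
      · have : 0 ≤ s := by
          by_contra h11
          push Not at h11
          nlinarith
        nlinarith
    · rcases le_or_gt 0 s with hs | hs
      · have h11 : -s ≤ t := by
          by_contra h11
          push Not at h11
          nlinarith
        nlinarith
      · have : 0 ≤ t := by
          by_contra h11
          push Not at h11
          nlinarith
        nlinarith
  obtain ⟨h1, h2⟩ := h
  unfold cone at h'
  rw [not_and_or] at h'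
  rcases h' with h' | h'
  · push Not at h'
    exact key s t s' t' h1 h2 h' hs2 ht2
  · push Not at h'
    have := key t s t' s' h2 h1 h' ht2 hs2
    exact ⟨this.2, this.1⟩

/-- `q` is in the cone with apex `p` (`ε = 1`) or in the opposite cone (`ε = -1`). -/
def reach (ε : ℤ) (i : ℕ) (p q : ℤ × ℤ) : Prop := cone i (ε * (q.1 - p.1)) (ε * (q.2 - p.2))

theorem reach_trans {ε : ℤ} {i : ℕ} {p q z : ℤ × ℤ} (h : reach ε i p q) (h' : reach ε i q z) :
    reach ε i p z := by
  have := cone_add h h'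
  unfold reach
  have e1 : ε * (z.1 - p.1) = ε * (q.1 - p.1) + ε * (z.1 - q.1) := by ring
  have e2 : ε * (z.2 - p.2) = ε * (q.2 - p.2) + ε * (z.2 - q.2) := by ring
  rw [e1, e2]
  exact this

/-- `U` is closed under the cone of index `i`. -/
def Cl (ε : ℤ) (i : ℕ) (U : Set (ℤ × ℤ)) : Prop := ∀ u ∈ U, ∀ z, reach ε i u z → z ∈ U

/-- One closure step. -/
def step (ε : ℤ) (i : ℕ) (r : ℤ) (O U : Set (ℤ × ℤ)) : Set (ℤ × ℤ) :=
  {z | z ∈ U ∨ ∃ c ∈ O, (∃ u ∈ U, near r c u) ∧ ∃ b, near r c b ∧ reach ε i b z}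

theorem step_sup {ε : ℤ} {i : ℕ} {r : ℤ} {O U : Set (ℤ × ℤ)} : U ⊆ step ε i r O U :=
  fun _ h => Or.inl h

theorem Cl.pred {ε : ℤ} {i : ℕ} {U : Set (ℤ × ℤ)} (h : Cl ε (i + 1) U) : Cl ε i U :=
  fun u hu z hz => h u hu z (cone_succ hz)

theorem step_cl {ε : ℤ} {i : ℕ} {r : ℤ} {O U : Set (ℤ × ℤ)} (h : Cl ε (i + 1) U) :
    Cl ε i (step ε i r O U) := by
  rintro u hu z hz
  rcases hu with hu | ⟨c, hc, htouch, b, hb, hbu⟩
  · exact Or.inl (h.pred u hu z hz)
  · exact Or.inr ⟨c, hc, htouch, b, hb, reach_trans hbu hz⟩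

theorem near_symm {r : ℤ} {p q : ℤ × ℤ} (h : near r p q) : near r q p := by
  unfold near at *
  omega

theorem near_trans {r r' : ℤ} {p q z : ℤ × ℤ} (h : near r p q) (h' : near r' q z) :
    near (r + r') p z := by
  unfold near at *
  omega

theorem near_mono {r r' : ℤ} {p q : ℤ × ℤ} (h : near r p q) (hr : r ≤ r') : near r' p q := by
  unfold near at *
  omega

theorem near_self {r : ℤ} (hr : 0 ≤ r) (p : ℤ × ℤ) : near r p p := by
  unfold near
  omega

theorem step_dev {ε : ℤ} (hε : ε = 1 ∨ ε = -1) {i : ℕ} {r : ℤ} (hr : 0 ≤ r)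
    {O U : Set (ℤ × ℤ)} (h : Cl ε (i + 1) U) {z : ℤ × ℤ} (hz : z ∈ step ε i r O U)
    (hzU : z ∉ U) : ∃ c ∈ O, (∃ u ∈ U, near r c u) ∧ near ((cc i + 1) * r) c z := by
  rcases hz with hz | ⟨c, hc, ⟨u, hu, hcu⟩, b, hb, hbz⟩
  · exact absurd hz hzU
  · refine ⟨c, hc, ⟨u, hu, hcu⟩, ?_⟩
    have hn : ¬ reach ε (i + 1) u z := fun hh => hzU (h u hu z hh)
    obtain ⟨b1, b2⟩ := b
    obtain ⟨c1, c2⟩ := c
    obtain ⟨u1, u2⟩ := u
    obtain ⟨z1, z2⟩ := z
    simp only [near, reach] at *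
    have hb' := cone_bound (r := r) hr hbz hn
      (by rcases hε with rfl | rfl <;> omega) (by rcases hε with rfl | rfl <;> omega)
      (by rcases hε with rfl | rfl <;> omega) (by rcases hε with rfl | rfl <;> omega)
    have e : (cc i + 1) * r = cc i * r + r := by ring
    rw [e]
    generalize cc i * r = M at *
    rcases hε with rfl | rfl <;> omega

/-- `Z` contains or misses the square of radius `r` around `c`. -/
def Resp (r : ℤ) (c : ℤ × ℤ) (Z : Set (ℤ × ℤ)) : Prop :=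
  (∀ z, near r c z → z ∈ Z) ∨ (∀ z, near r c z → z ∉ Z)

theorem step_resp {ε : ℤ} (hε : ε = 1 ∨ ε = -1) {i : ℕ} {r : ℤ} (hr : 0 ≤ r)
    {O U : Set (ℤ × ℤ)} (hO : Sepd ((cc i + 2) * r) O) (h : Cl ε (i + 1) U) {c : ℤ × ℤ}
    (hc : c ∈ O) : Resp r c (step ε i r O U) := by
  by_cases ht : ∃ u ∈ U, near r c u
  · left
    intro z hz
    refine Or.inr ⟨c, hc, ht, z, hz, ?_⟩
    unfold reach
    simp only [sub_self, mul_zero]
    exact cone_quad i le_rfl le_rfl
  · right
    intro z hz hzs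
    have hzU : z ∉ U := fun hzU => ht ⟨z, hzU, hz⟩
    obtain ⟨c', hc', ht', hn⟩ := step_dev hε hr h hzs hzU
    have : c' = c := by
      refine hO c' hc' c hc ?_
      have := near_trans hn (near_symm hz)
      have e : (cc i + 1) * r + r = (cc i + 2) * r := by ring
      rwa [e] at this
    exact ht (this ▸ ht')

/-- Parameters: `dl i` bounds the total deviation of the closure steps below `i`, given the
radii `r`. -/
def dl (r : ℕ → ℤ) : ℕ → ℤ
  | 0 => 0
  | i + 1 => dl r i + (cc i + 2) * r i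

/-- The iterated closure with steps `i - 1, …, 0`. -/
def down (ε : ℤ) (r : ℕ → ℤ) (O : ℕ → Set (ℤ × ℤ)) : ℕ → Set (ℤ × ℤ) → Set (ℤ × ℤ)
  | 0, U => U
  | i + 1, U => down ε r O i (step ε i (r i) (O i) U)

theorem dl_nonneg {r : ℕ → ℤ} (hr : ∀ i, 0 ≤ r i) (i : ℕ) : 0 ≤ dl r i := by
  induction i with
  | zero => exact le_rfl
  | succ i ih =>
    have := cc_ge i
    have h2 := hr i
    simp only [dl]
    positivity

theorem down_spec {ε : ℤ} (hε : ε = 1 ∨ ε = -1) {r : ℕ → ℤ} (hr : ∀ i, 0 ≤ r i)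
    {O : ℕ → Set (ℤ × ℤ)} (hO : ∀ i, Sepd ((cc i + 2) * r i) (O i)) (i : ℕ) :
    ∀ U : Set (ℤ × ℤ), Cl ε i U → U ⊆ down ε r O i U ∧ Cl ε 0 (down ε r O i U) ∧
      (∀ z ∈ down ε r O i U, ∃ u ∈ U, near (dl r i) u z) ∧
      ∀ k < i, ∀ c ∈ O k, Resp (r k - dl r k) c (down ε r O i U) := by
  induction i with
  | zero =>
    intro U hU
    refine ⟨fun _ h => h, hU, fun z hz => ⟨z, hz, near_self le_rfl z⟩, fun k hk => ?_⟩
    omega
  | succ i ih =>
    intro U hU
    have hcl := step_cl (r := r i) (O := O i) hU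
    obtain ⟨h1, h2, h3, h4⟩ := ih _ hcl
    refine ⟨fun z hz => h1 (step_sup hz), h2, ?_, ?_⟩
    · intro z hz
      obtain ⟨u, hu, hn⟩ := h3 z hz
      by_cases huU : u ∈ U
      · refine ⟨u, huU, near_mono hn ?_⟩
        have := cc_ge i
        have h5 := hr i
        simp only [dl]
        have : 0 ≤ (cc i + 2) * r i := by positivity
        linarith
      · obtain ⟨c, hc, ⟨u', hu', hcu'⟩, hcu⟩ := step_dev hε (hr i) hU hu huU
        refine ⟨u', hu', ?_⟩
        have := near_trans (near_trans (near_symm hcu') hcu) hn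
        refine near_mono this ?_
        simp only [dl]
        linarith
    · intro k hk c hc
      rcases Nat.lt_succ_iff_lt_or_eq.mp hk with hk | hk
      · exact h4 k hk c hc
      · subst hk
        rcases step_resp hε (hr k) (hO k) hU hc with h5 | h5
        · left
          intro z hz
          refine h1 (h5 z (near_mono hz ?_))
          have := dl_nonneg hr k
          linarith
        · right
          intro z hz hz'
          obtain ⟨u, hu, hn⟩ := h3 z hz'
          refine h5 u ?_ hu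
          have := near_trans hz (near_symm hn)
          refine near_mono this (by linarith)

end Pool.Agent.helper81.Lcl
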