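import Mathlib

/-!
# The local rules of an LCL on ℤ² that separates Borel from Baire measurable labelings

Cells are the points `(a, b)` of `ℤ²`, with east neighbour `(a+1, b)` and north neighbour
`(a, b+1)`.
-/

namespace Pool.Agent.helper81.Lcl

open Classical in
/-- The indicator of a proposition, as an integer. -/
noncomputable def ind (p : Prop) : ℤ := if p then 1 else 0

/-- Decoded labels: `dE`, `dN` are the increments of a height function along the east and north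
edges, `fE`, `fN` are flows along these edges, `wE`, `wN` mark walls, `c` is a colour. -/
structure Dat where
  dE : ℤ → ℤ → ℤ
  dN : ℤ → ℤ → ℤ
  fE : ℤ → ℤ → ℤ
  fN : ℤ → ℤ → ℤ
  wE : ℤ → ℤ → Prop
  wN : ℤ → ℤ → Prop
  c : ℤ → ℤ → Bool

/-- Rules for the heights and the walls at the cell `(a, b)`. -/
structure OkH (D : Dat) (a b : ℤ) : Prop where
  rE : -1 ≤ D.dE a b ∧ D.dE a b ≤ 1
  rN : -1 ≤ D.dN a b ∧ D.dN a b ≤ 1
  closed : D.dE a b + D.dN (a + 1) b = D.dN a b + D.dE a (b + 1)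
  block : (0 ≤ D.dE a b ∧ 0 ≤ D.dN a b ∧ D.dE a b + D.dN (a + 1) b ≤ 1 ∧
      0 ≤ D.dE a b + D.dN (a + 1) b) ∨
    (D.dE a b ≤ 0 ∧ D.dN a b ≤ 0 ∧ -1 ≤ D.dE a b + D.dN (a + 1) b ∧
      D.dE a b + D.dN (a + 1) b ≤ 0)
  diag : ¬ (D.dE a b + D.dN (a + 1) b = 0 ∧ D.dE a b = D.dN a b ∧ D.dE a b ≠ 0)
  wallE : D.wE a b → D.dE a b ≠ 0
  wallN : D.wN a b → D.dN a b ≠ 0

/-- Rules for the flow at the cell `(a, b)`. -/
structure OkF (D : Dat) (a b : ℤ) : Prop where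
  gE : -10 ≤ D.fE a b ∧ D.fE a b ≤ 10
  gN : -10 ≤ D.fN a b ∧ D.fN a b ≤ 10
  wallE : D.wE a b → D.fE a b = 0
  wallN : D.wN a b → D.fN a b = 0
  upE : D.dE a b = 1 → D.fE a b ≤ 0
  dnE : D.dE a b = -1 → 0 ≤ D.fE a b
  upN : D.dN a b = 1 → D.fN a b ≤ 0
  dnN : D.dN a b = -1 → 0 ≤ D.fN a b
  flow : D.fE (a - 1) b - D.fE a b + D.fN a (b - 1) - D.fN a b
      + 4 * ind (D.wE a b ∧ D.dE a b = 1)
      - 2 * ind (D.wE (a - 1) b ∧ D.dE (a - 1) b = 1)
      + 2 * ind (D.wE a b ∧ D.dE a b = -1)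
    ≤ ind (D.dE (a - 1) b = 1)
      - ind (0 ≤ D.dN a b ∧
          ¬ (D.dE (a - 1) b ≤ 0 ∧ 0 ≤ D.dN (a - 1) b - D.dE (a - 1) b))

/-- Rules for the colours at the cell `(a, b)`. -/
structure OkC (D : Dat) (a b : ℤ) : Prop where
  colE : ¬ D.wE a b → D.c (a + 1) b = !(D.c a b)
  colN : ¬ D.wN a b → D.c a (b + 1) = D.c a b

/-- All the local rules at the cell `(a, b)`. -/
structure Ok (D : Dat) (a b : ℤ) : Prop where
  h : OkH D a b
  f : OkF D a b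
  c : OkC D a b

/-- The sign of a colour. -/
noncomputable def sg (b : Bool) : ℝ := if b then 1 else -1

/-- `q` is within sup distance `r` of `p`. -/
def near (r : ℤ) (p q : ℤ × ℤ) : Prop :=
  p.1 - r ≤ q.1 ∧ q.1 ≤ p.1 + r ∧ p.2 - r ≤ q.2 ∧ q.2 ≤ p.2 + r

/-- The points of `S` are pairwise more than `q` apart. -/
def Sepd (q : ℤ) (S : Set (ℤ × ℤ)) : Prop := ∀ u ∈ S, ∀ v ∈ S, near q u v → u = v

end Pool.Agent.helper81.Lcl
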