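import Pool.Agent.helper13.LCL.Defs

/-!
# The rules are local
-/

namespace LCLZ

/-- the rules at `(0, 0)` only depend on the labels in a finite window -/
theorem Rl_congr {L L' : Cfg}
    (h : ∀ i j : ℤ, -20 ≤ i → i ≤ 20 → -20 ≤ j → j ≤ 20 → L' i j = L i j) (R : Rl L 0 0) :
    Rl L' 0 0 := by
  have hB : ∀ i j : ℤ, -20 ≤ i → i ≤ 20 → -20 ≤ j → j ≤ 20 → (B L' i j ↔ B L i j) := by
    intro i j h1 h2 h3 h4; unfold B; rw [h i j h1 h2 h3 h4]
  have hLf : ∀ i j : ℤ, -20 ≤ i → i ≤ 20 → -20 ≤ j → j ≤ 20 → (Lf L' i j ↔ Lf L i j) := by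
    intro i j h1 h2 h3 h4; unfold Lf; rw [h i j h1 h2 h3 h4]
  have hRt : ∀ i j : ℤ, -20 ≤ i → i ≤ 20 → -20 ≤ j → j ≤ 20 → (Rt L' i j ↔ Rt L i j) := by
    intro i j h1 h2 h3 h4; unfold Rt; rw [h i j h1 h2 h3 h4]
  have hT : ∀ i j : ℤ, -20 ≤ i → i ≤ 20 → -20 ≤ j → j ≤ 20 → (T L' i j ↔ T L i j) := by
    intro i j h1 h2 h3 h4; unfold T; rw [hLf i j h1 h2 h3 h4, hRt i j h1 h2 h3 h4]
  have hM : ∀ i j : ℤ, -20 ≤ i → i ≤ 20 → -20 ≤ j → j ≤ 20 → (M L' i j ↔ M L i j) := by
    intro i j h1 h2 h3 h4; unfold M; rw [hB i j h1 h2 h3 h4, hT i j h1 h2 h3 h4]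
  have hS : ∀ i j : ℤ, -20 ≤ i → i ≤ 20 → -20 ≤ j → j ≤ 20 → (S L' i j ↔ S L i j) := by
    intro i j h1 h2 h3 h4; unfold S; rw [h i j h1 h2 h3 h4]
  have hE : ∀ i j : ℤ, -20 ≤ i → i ≤ 20 → -20 ≤ j → j ≤ 20 → (E L' i j ↔ E L i j) := by
    intro i j h1 h2 h3 h4; unfold E; rw [h i j h1 h2 h3 h4]
  have hdv : ∀ i j : ℤ, -20 ≤ i → i ≤ 20 → -20 ≤ j → j ≤ 20 → dv L' i j = dv L i j := by
    intro i j h1 h2 h3 h4; unfold dv; rw [h i j h1 h2 h3 h4]
  have hcol : ∀ i j : ℤ, -20 ≤ i → i ≤ 20 → -20 ≤ j → j ≤ 20 → col L' i j = col L i j := by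
    intro i j h1 h2 h3 h4; unfold col; rw [h i j h1 h2 h3 h4]
  have hht : ∀ i j : ℤ, -20 ≤ i → i ≤ 20 → -20 ≤ j → j ≤ 20 → ht L' i j = ht L i j := by
    intro i j h1 h2 h3 h4; unfold ht; rw [h i j h1 h2 h3 h4]
  have hex : ∀ (P : ℤ → Prop) (P' : ℤ → Prop), (∀ m, 0 ≤ m → m ≤ 10 → (P' m ↔ P m)) →
      ((∃ m : ℤ, 0 ≤ m ∧ m ≤ 10 ∧ P' m) ↔ ∃ m : ℤ, 0 ≤ m ∧ m ≤ 10 ∧ P m) := by
    intro P P' hP
    exact exists_congr fun m => and_congr_right fun h1 => and_congr_right fun h2 => hP m h1 h2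
  have hhR : ∀ i j : ℤ, -5 ≤ i → i ≤ 5 → -5 ≤ j → j ≤ 5 → (hR L' i j ↔ hR L i j) := by
    intro i j h1 h2 h3 h4
    unfold hR
    rw [hB i j (by omega) (by omega) (by omega) (by omega),
      hT i j (by omega) (by omega) (by omega) (by omega),
      hE i j (by omega) (by omega) (by omega) (by omega),
      hdv i j (by omega) (by omega) (by omega) (by omega)]
    refine or_congr Iff.rfl (or_congr Iff.rfl (hex _ _ fun m hm1 hm2 => ?_))
    rw [hB i (j - m) (by omega) (by omega) (by omega) (by omega),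
      hE i (j - m) (by omega) (by omega) (by omega) (by omega)]
  have hhL : ∀ i j : ℤ, -5 ≤ i → i ≤ 5 → -5 ≤ j → j ≤ 5 → (hL L' i j ↔ hL L i j) := by
    intro i j h1 h2 h3 h4
    unfold hL
    rw [hB i (j + 1) (by omega) (by omega) (by omega) (by omega),
      hT i (j - 1) (by omega) (by omega) (by omega) (by omega),
      hE i (j + 1) (by omega) (by omega) (by omega) (by omega),
      hE i (j - 1) (by omega) (by omega) (by omega) (by omega),
      hdv i (j + 1) (by omega) (by omega) (by omega) (by omega),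
      hdv i (j - 1) (by omega) (by omega) (by omega) (by omega)]
    refine or_congr Iff.rfl (or_congr Iff.rfl (hex _ _ fun m hm1 hm2 => ?_))
    rw [hB (i + 1) (j - m) (by omega) (by omega) (by omega) (by omega),
      hS (i + 1) (j - m) (by omega) (by omega) (by omega) (by omega)]
  have hvU : ∀ i j : ℤ, -5 ≤ i → i ≤ 5 → -5 ≤ j → j ≤ 5 → (vU L' i j ↔ vU L i j) := by
    intro i j h1 h2 h3 h4
    exact hT i j (by omega) (by omega) (by omega) (by omega)
  have hvD : ∀ i j : ℤ, -5 ≤ i → i ≤ 5 → -5 ≤ j → j ≤ 5 → (vD L' i j ↔ vD L i j) := by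
    intro i j h1 h2 h3 h4
    exact hB i (j + 1) (by omega) (by omega) (by omega) (by omega)
  have hhc : ∀ i j : ℤ, -5 ≤ i → i ≤ 5 → -5 ≤ j → j ≤ 5 → (hc L' i j ↔ hc L i j) := by
    intro i j h1 h2 h3 h4
    exact or_congr (hhR i j h1 h2 h3 h4) (hhL i j h1 h2 h3 h4)
  have hvc : ∀ i j : ℤ, -5 ≤ i → i ≤ 5 → -5 ≤ j → j ≤ 5 → (vc L' i j ↔ vc L i j) := by
    intro i j h1 h2 h3 h4
    exact or_congr (hvU i j h1 h2 h3 h4) (hvD i j h1 h2 h3 h4)
  have a1 := le_dv L 0 0
  have a2 := dv_le L 0 0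
  have a3 := le_dv L (0 + 1) (0 + dv L 0 0)
  have a4 := dv_le L (0 + 1) (0 + dv L 0 0)
  constructor
  · simp (disch := omega) only [hB, hLf]; exact R.bl
  · simp (disch := omega) only [hB, hRt]; exact R.br
  · simp (disch := omega) only [hLf, hRt]; exact R.lr
  · simp (disch := omega) only [hM, hE, hdv]; exact R.nM
  · simp (disch := omega) only [hM, hE, hdv, hS]; exact R.nS
  · simp (disch := omega) only [hE, hdv, hB]; exact R.nB
  · simp (disch := omega) only [hLf, hE, hdv, hT]; exact R.nL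
  · simp (disch := omega) only [hRt, hE, hdv]; exact R.nR
  · intro h1 h2
    rw [hM 0 0 (by omega) (by omega) (by omega) (by omega)] at h1
    rw [hS 0 0 (by omega) (by omega) (by omega) (by omega)] at h2
    obtain ⟨e, h3, h4, h5, h6, h7⟩ := R.pv h1 h2
    refine ⟨e, h3, h4, ?_, ?_, ?_⟩
    · rwa [hM _ _ (by omega) (by omega) (by omega) (by omega)]
    · rwa [hE _ _ (by omega) (by omega) (by omega) (by omega)]
    · rwa [hdv _ _ (by omega) (by omega) (by omega) (by omega)]
  · intro h1 m h2 h3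
    rw [hM 0 0 (by omega) (by omega) (by omega) (by omega)] at h1
    rw [hM _ _ (by omega) (by omega) (by omega) (by omega)]
    exact R.sp h1 m h2 h3
  · intro h1 h2
    rw [hB 0 0 (by omega) (by omega) (by omega) (by omega)] at h1
    rw [hS 0 0 (by omega) (by omega) (by omega) (by omega)] at h2
    obtain ⟨h3, h4, h5⟩ := R.sB h1 h2
    refine ⟨?_, ?_, ?_⟩
    · rwa [hLf _ _ (by omega) (by omega) (by omega) (by omega)]
    · rwa [hS _ _ (by omega) (by omega) (by omega) (by omega)]
    · intro m h6 h7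
      rw [hM _ _ (by omega) (by omega) (by omega) (by omega)]
      exact h5 m h6 h7
  · simp (disch := omega) only [hT, hS, hB]; exact R.sT
  · intro h1 h2
    rw [hB 0 0 (by omega) (by omega) (by omega) (by omega)] at h1
    rw [hE 0 0 (by omega) (by omega) (by omega) (by omega)] at h2
    obtain ⟨h3, h4, h5⟩ := R.eB h1 h2
    refine ⟨?_, ?_, ?_⟩
    · rwa [hRt _ _ (by omega) (by omega) (by omega) (by omega)]
    · rwa [hE _ _ (by omega) (by omega) (by omega) (by omega)]
    · intro m h6 h7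
      rw [hM _ _ (by omega) (by omega) (by omega) (by omega)]
      exact h5 m h6 h7
  · simp (disch := omega) only [hT, hE, hB]; exact R.eT
  · intro h1 h2 n h3 h4
    rw [hB 0 0 (by omega) (by omega) (by omega) (by omega)] at h1
    rw [hE 0 0 (by omega) (by omega) (by omega) (by omega)] at h2
    rw [hB _ _ (by omega) (by omega) (by omega) (by omega),
      hS _ _ (by omega) (by omega) (by omega) (by omega)]
    exact R.es h1 h2 n h3 h4
  · simp (disch := omega) only [hB, hE, hdv]; exact R.slB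
  · simp (disch := omega) only [hLf, hdv]; exact R.slL
  · simp (disch := omega) only [hLf, hdv]; exact R.slL3
  · simp (disch := omega) only [hRt, hE, hdv]; exact R.slR
  · simp (disch := omega) only [hRt, hE, hdv]; exact R.slR3
  · simp (disch := omega) only [hhc, hcol]; exact R.cH
  · simp (disch := omega) only [hvc, hcol]; exact R.cV
  · simp (disch := omega) only [hhc, hht]; exact R.fH
  · simp (disch := omega) only [hvc, hht]; exact R.fV
  · simp (disch := omega) only [hM, hE, hdv, hht]; exact R.fN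
  · intro h1 h2 m h3 h4
    rw [hB 0 0 (by omega) (by omega) (by omega) (by omega)] at h1
    rw [hE 0 0 (by omega) (by omega) (by omega) (by omega),
      hS 0 0 (by omega) (by omega) (by omega) (by omega)] at h2
    rw [hht _ _ (by omega) (by omega) (by omega) (by omega),
      hht _ _ (by omega) (by omega) (by omega) (by omega)]
    exact R.fE h1 h2 m h3 h4
  · simp (disch := omega) only [hhR, hvc, hht]; exact R.oR1
  · simp (disch := omega) only [hhR, hvc, hht]; exact R.oR2
  · simp (disch := omega) only [hhL, hvc, hht]; exact R.oL1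
  · simp (disch := omega) only [hhL, hvc, hht]; exact R.oL2
  · simp (disch := omega) only [hvU, hhc, hht]; exact R.oU1
  · simp (disch := omega) only [hvU, hhc, hht]; exact R.oU2
  · simp (disch := omega) only [hvD, hhc, hht]; exact R.oD1
  · simp (disch := omega) only [hvD, hhc, hht]; exact R.oD2

set_option linter.unusedSimpArgs false in
/-- the rules are invariant under translations -/
theorem Rl_shift {L : Cfg} {x y : ℤ} (R : Rl (fun m k => L (x + m) (y + k)) 0 0) : Rl L x y := by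
  constructor
  · have h := R.bl
    simp only [B, Lf, Rt, T, M, S, E, dv, col, ht, hR, hL, vU, vD, hc, vc, add_zero, zero_add,
      zero_sub, sub_eq_add_neg, add_assoc] at h ⊢
    exact h
  · have h := R.br
    simp only [B, Lf, Rt, T, M, S, E, dv, col, ht, hR, hL, vU, vD, hc, vc, add_zero, zero_add,
      zero_sub, sub_eq_add_neg, add_assoc] at h ⊢
    exact h
  · have h := R.lr
    simp only [B, Lf, Rt, T, M, S, E, dv, col, ht, hR, hL, vU, vD, hc, vc, add_zero, zero_add,
      zero_sub, sub_eq_add_neg, add_assoc] at h ⊢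
    exact h
  · have h := R.nM
    simp only [B, Lf, Rt, T, M, S, E, dv, col, ht, hR, hL, vU, vD, hc, vc, add_zero, zero_add,
      zero_sub, sub_eq_add_neg, add_assoc] at h ⊢
    exact h
  · have h := R.nS
    simp only [B, Lf, Rt, T, M, S, E, dv, col, ht, hR, hL, vU, vD, hc, vc, add_zero, zero_add,
      zero_sub, sub_eq_add_neg, add_assoc] at h ⊢
    exact h
  · have h := R.nB
    simp only [B, Lf, Rt, T, M, S, E, dv, col, ht, hR, hL, vU, vD, hc, vc, add_zero, zero_add,
      zero_sub, sub_eq_add_neg, add_assoc] at h ⊢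
    exact h
  · have h := R.nL
    simp only [B, Lf, Rt, T, M, S, E, dv, col, ht, hR, hL, vU, vD, hc, vc, add_zero, zero_add,
      zero_sub, sub_eq_add_neg, add_assoc] at h ⊢
    exact h
  · have h := R.nR
    simp only [B, Lf, Rt, T, M, S, E, dv, col, ht, hR, hL, vU, vD, hc, vc, add_zero, zero_add,
      zero_sub, sub_eq_add_neg, add_assoc] at h ⊢
    exact h
  · have h := R.pv
    simp only [B, Lf, Rt, T, M, S, E, dv, col, ht, hR, hL, vU, vD, hc, vc, add_zero, zero_add,
      zero_sub, sub_eq_add_neg, add_assoc] at h ⊢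
    exact h
  · have h := R.sp
    simp only [B, Lf, Rt, T, M, S, E, dv, col, ht, hR, hL, vU, vD, hc, vc, add_zero, zero_add,
      zero_sub, sub_eq_add_neg, add_assoc] at h ⊢
    exact h
  · have h := R.sB
    simp only [B, Lf, Rt, T, M, S, E, dv, col, ht, hR, hL, vU, vD, hc, vc, add_zero, zero_add,
      zero_sub, sub_eq_add_neg, add_assoc] at h ⊢
    exact h
  · have h := R.sT
    simp only [B, Lf, Rt, T, M, S, E, dv, col, ht, hR, hL, vU, vD, hc, vc, add_zero, zero_add,
      zero_sub, sub_eq_add_neg, add_assoc] at h ⊢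
    exact h
  · have h := R.eB
    simp only [B, Lf, Rt, T, M, S, E, dv, col, ht, hR, hL, vU, vD, hc, vc, add_zero, zero_add,
      zero_sub, sub_eq_add_neg, add_assoc] at h ⊢
    exact h
  · have h := R.eT
    simp only [B, Lf, Rt, T, M, S, E, dv, col, ht, hR, hL, vU, vD, hc, vc, add_zero, zero_add,
      zero_sub, sub_eq_add_neg, add_assoc] at h ⊢
    exact h
  · have h := R.es
    simp only [B, Lf, Rt, T, M, S, E, dv, col, ht, hR, hL, vU, vD, hc, vc, add_zero, zero_add,
      zero_sub, sub_eq_add_neg, add_assoc] at h ⊢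
    exact h
  · have h := R.slB
    simp only [B, Lf, Rt, T, M, S, E, dv, col, ht, hR, hL, vU, vD, hc, vc, add_zero, zero_add,
      zero_sub, sub_eq_add_neg, add_assoc] at h ⊢
    exact h
  · have h := R.slL
    simp only [B, Lf, Rt, T, M, S, E, dv, col, ht, hR, hL, vU, vD, hc, vc, add_zero, zero_add,
      zero_sub, sub_eq_add_neg, add_assoc] at h ⊢
    exact h
  · have h := R.slL3
    simp only [B, Lf, Rt, T, M, S, E, dv, col, ht, hR, hL, vU, vD, hc, vc, add_zero, zero_add,
      zero_sub, sub_eq_add_neg, add_assoc] at h ⊢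
    exact h
  · have h := R.slR
    simp only [B, Lf, Rt, T, M, S, E, dv, col, ht, hR, hL, vU, vD, hc, vc, add_zero, zero_add,
      zero_sub, sub_eq_add_neg, add_assoc] at h ⊢
    exact h
  · have h := R.slR3
    simp only [B, Lf, Rt, T, M, S, E, dv, col, ht, hR, hL, vU, vD, hc, vc, add_zero, zero_add,
      zero_sub, sub_eq_add_neg, add_assoc] at h ⊢
    exact h
  · have h := R.cH
    simp only [B, Lf, Rt, T, M, S, E, dv, col, ht, hR, hL, vU, vD, hc, vc, add_zero, zero_add,
      zero_sub, sub_eq_add_neg, add_assoc] at h ⊢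
    exact h
  · have h := R.cV
    simp only [B, Lf, Rt, T, M, S, E, dv, col, ht, hR, hL, vU, vD, hc, vc, add_zero, zero_add,
      zero_sub, sub_eq_add_neg, add_assoc] at h ⊢
    exact h
  · have h := R.fH
    simp only [B, Lf, Rt, T, M, S, E, dv, col, ht, hR, hL, vU, vD, hc, vc, add_zero, zero_add,
      zero_sub, sub_eq_add_neg, add_assoc] at h ⊢
    exact h
  · have h := R.fV
    simp only [B, Lf, Rt, T, M, S, E, dv, col, ht, hR, hL, vU, vD, hc, vc, add_zero, zero_add,
      zero_sub, sub_eq_add_neg, add_assoc] at h ⊢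
    exact h
  · have h := R.fN
    simp only [B, Lf, Rt, T, M, S, E, dv, col, ht, hR, hL, vU, vD, hc, vc, add_zero, zero_add,
      zero_sub, sub_eq_add_neg, add_assoc] at h ⊢
    exact h
  · have h := R.fE
    simp only [B, Lf, Rt, T, M, S, E, dv, col, ht, hR, hL, vU, vD, hc, vc, add_zero, zero_add,
      zero_sub, sub_eq_add_neg, add_assoc] at h ⊢
    exact h
  · have h := R.oR1
    simp only [B, Lf, Rt, T, M, S, E, dv, col, ht, hR, hL, vU, vD, hc, vc, add_zero, zero_add,
      zero_sub, sub_eq_add_neg, add_assoc] at h ⊢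
    exact h
  · have h := R.oR2
    simp only [B, Lf, Rt, T, M, S, E, dv, col, ht, hR, hL, vU, vD, hc, vc, add_zero, zero_add,
      zero_sub, sub_eq_add_neg, add_assoc] at h ⊢
    exact h
  · have h := R.oL1
    simp only [B, Lf, Rt, T, M, S, E, dv, col, ht, hR, hL, vU, vD, hc, vc, add_zero, zero_add,
      zero_sub, sub_eq_add_neg, add_assoc] at h ⊢
    exact h
  · have h := R.oL2
    simp only [B, Lf, Rt, T, M, S, E, dv, col, ht, hR, hL, vU, vD, hc, vc, add_zero, zero_add,
      zero_sub, sub_eq_add_neg, add_assoc] at h ⊢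
    exact h
  · have h := R.oU1
    simp only [B, Lf, Rt, T, M, S, E, dv, col, ht, hR, hL, vU, vD, hc, vc, add_zero, zero_add,
      zero_sub, sub_eq_add_neg, add_assoc] at h ⊢
    exact h
  · have h := R.oU2
    simp only [B, Lf, Rt, T, M, S, E, dv, col, ht, hR, hL, vU, vD, hc, vc, add_zero, zero_add,
      zero_sub, sub_eq_add_neg, add_assoc] at h ⊢
    exact h
  · have h := R.oD1
    simp only [B, Lf, Rt, T, M, S, E, dv, col, ht, hR, hL, vU, vD, hc, vc, add_zero, zero_add,
      zero_sub, sub_eq_add_neg, add_assoc] at h ⊢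
    exact h
  · have h := R.oD2
    simp only [B, Lf, Rt, T, M, S, E, dv, col, ht, hR, hL, vU, vD, hc, vc, add_zero, zero_add,
      zero_sub, sub_eq_add_neg, add_assoc] at h ⊢
    exact h

end LCLZ
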