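import Pool.Agent.helper81.LclProblem
import Pool.Agent.helper81.LclLocal

/-!
# Reduction of the theorem on `ℤⁿ` to statements about `ℤ²`
-/

namespace Pool.Agent.helper81.LclFinal

open Pool.Agent.helper81.LclProblem LCLZ

/-- The positive part, for actions of `ℤ²`. -/
def BaireSide : Prop :=
  ∀ (X : Type) [TopologicalSpace X] [PolishSpace X] [MeasurableSpace X] [BorelSpace X]
    [AddAction (ℤ × ℤ) X], (∀ g : ℤ × ℤ, Measurable (fun x : X => g +ᵥ x)) →
    (∀ g : ℤ × ℤ, ∀ x : X, g +ᵥ x = x → g = 0) →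
    ∃ F : X → Lab, (∀ A : Set Lab, BaireMeasurableSet (F ⁻¹' A)) ∧
      ∀ x : X, ∀ i j : ℤ, Rl (fun m n => F ((m, n) +ᵥ x)) i j

/-- The negative part, for two rotations of the circle. -/
def BorelSide : Prop :=
  ¬ ∃ F : AddCircle (1 : ℝ) → Lab, (∀ A : Set Lab, MeasurableSet (F ⁻¹' A)) ∧
    ∀ t : AddCircle (1 : ℝ), ∀ i j : ℤ,
      Rl (fun m n => F (t + ((m * √2 + n * √3 : ℝ) : AddCircle (1 : ℝ)))) i j

/-- The embedding of `ℤ²` into `ℤⁿ` by the first two coordinates. -/
def emb (n : ℕ) : ℤ × ℤ →+ (Fin n → ℤ) where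
  toFun g := fun i => if i.1 = 0 then g.1 else if i.1 = 1 then g.2 else 0
  map_zero' := by
    funext i
    simp
  map_add' g g' := by
    funext i
    simp only [Prod.fst_add, Prod.snd_add, Pi.add_apply]
    split_ifs <;> simp

theorem emb_zero {n : ℕ} (h : 2 ≤ n) (g : ℤ × ℤ) : emb n g ⟨0, by omega⟩ = g.1 := by
  simp [emb]

theorem emb_one {n : ℕ} (h : 2 ≤ n) (g : ℤ × ℤ) : emb n g ⟨1, by omega⟩ = g.2 := by
  simp [emb]

theorem emb_inj {n : ℕ} (h : 2 ≤ n) {g g' : ℤ × ℤ} (he : emb n g = emb n g') : g = g' := by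
  have h1 := emb_zero h g
  have h2 := emb_one h g
  rw [he, emb_zero h] at h1
  rw [he, emb_one h] at h2
  exact Prod.ext h1.symm h2.symm

/-- The window. -/
noncomputable def win (n : ℕ) : Finset (Fin n → ℤ) :=
  ((Finset.Icc (-20) 20 ×ˢ Finset.Icc (-20) 20 : Finset (ℤ × ℤ))).image (emb n)

theorem mem_win (n : ℕ) {i j : ℤ} (h1 : -20 ≤ i) (h2 : i ≤ 20) (h3 : -20 ≤ j)
    (h4 : j ≤ 20) : emb n (i, j) ∈ win n := by
  unfold win
  rw [Finset.mem_image]
  refine ⟨(i, j), ?_, rfl⟩
  simp only [Finset.mem_product, Finset.mem_Icc]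
  exact ⟨⟨h1, h2⟩, h3, h4⟩

/-- The locally checkable labeling problem. -/
noncomputable def Pb (n : ℕ) : LCL (Fin n → ℤ) where
  W := win n
  Λ := Lab
  fin := inferInstance
  A := {p | ∃ L : Cfg, Rl L 0 0 ∧ ∀ (i j : ℤ) (h1 : -20 ≤ i) (h2 : i ≤ 20) (h3 : -20 ≤ j)
    (h4 : j ≤ 20), p ⟨emb n (i, j), mem_win n h1 h2 h3 h4⟩ = L i j}

theorem inBaire {n : ℕ} (h : 2 ≤ n) (HB : BaireSide) : InBaire (Pb n) := by
  intro X _ _ _ _ _ hmeas hfree
  let _ : AddAction (ℤ × ℤ) X := AddAction.compHom X (emb n)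
  obtain ⟨F, hF, hR⟩ := HB X (fun g => hmeas (emb n g)) (fun g x hgx => by
    have h1 := hfree (emb n g) x hgx
    exact emb_inj h (by rw [h1, map_zero]))
  refine ⟨F, hF, ?_⟩
  intro x
  refine ⟨fun i j => F ((i, j) +ᵥ x), hR x 0 0, ?_⟩
  intro i j h1 h2 h3 h4
  rfl

/-! ### The free action on the circle times a discrete group -/

/-- The part of a vector with the first two coordinates removed. -/
def tr (n : ℕ) : (Fin n → ℤ) →+ (Fin n → ℤ) where
  toFun g := fun i => if i.1 < 2 then 0 else g i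
  map_zero' := by
    funext i
    simp
  map_add' g g' := by
    funext i
    simp only [Pi.add_apply]
    split_ifs <;> simp

/-- The rotation number. -/
noncomputable def rt (n : ℕ) (h : 2 ≤ n) : (Fin n → ℤ) →+ AddCircle (1 : ℝ) where
  toFun g := (((g ⟨0, by omega⟩ : ℝ) * √2 + (g ⟨1, by omega⟩ : ℝ) * √3 : ℝ) : AddCircle (1 : ℝ))
  map_zero' := by simp
  map_add' g g' := by
    rw [← AddCircle.coe_add]
    congr 1
    simp only [Pi.add_apply]
    push_cast
    ring

/-- The space of the action. -/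
abbrev Sp (n : ℕ) : Type := AddCircle (1 : ℝ) × (Fin n → ℤ)

/-- The action. -/
@[reducible] noncomputable def act (n : ℕ) (h : 2 ≤ n) : AddAction (Fin n → ℤ) (Sp n) where
  vadd g x := (x.1 + rt n h g, x.2 + tr n g)
  zero_vadd x := by
    show (x.1 + rt n h 0, x.2 + tr n 0) = x
    rw [map_zero, map_zero, add_zero, add_zero]
  add_vadd g g' x := by
    show (x.1 + rt n h (g + g'), x.2 + tr n (g + g')) =
      (x.1 + rt n h g' + rt n h g, x.2 + tr n g' + tr n g)
    rw [map_add, map_add]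
    ext1
    · simp only; abel
    · simp only; abel

theorem indep {a b c : ℤ} (h : (a : ℝ) * √2 + b * √3 = c) : a = 0 ∧ b = 0 := by
  have h2 : √2 * √2 = 2 := Real.mul_self_sqrt (by norm_num)
  have h3 : √3 * √3 = 3 := Real.mul_self_sqrt (by norm_num)
  have irr2 : Irrational √2 := irrational_sqrt_two
  have irr3 : Irrational √3 := by
    have := Nat.prime_three.irrational_sqrt
    exact_mod_cast this
  have irr6 : Irrational √6 := by
    have : Irrational √((6 : ℕ) : ℝ) := by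
      rw [irrational_sqrt_natCast_iff]
      rintro ⟨r, hr⟩
      have : r ≤ 2 := by nlinarith
      interval_cases r <;> omega
    exact_mod_cast this
  have key : ∀ (m k : ℤ) (s : ℝ), Irrational s → (m : ℝ) * s = k → m = 0 := by
    intro m k s hs hmk
    by_contra hm
    exact (hs.intCast_mul hm) ⟨(k : ℚ), by push_cast; exact hmk.symm⟩
  -- `b c = 0`
  have hbc : b * c = 0 := by
    have e : ((2 * (b * c) : ℤ) : ℝ) * √3 = ((c * c + 3 * b * b - 2 * a * a : ℤ) : ℝ) := by
      have h4 : (a : ℝ) * √2 = c - b * √3 := by linarith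
      have h5 : ((a : ℝ) * √2) * (a * √2) = (c - b * √3) * (c - b * √3) := by rw [h4]
      push_cast
      linear_combination h5 - (a : ℝ) * a * h2 + (b : ℝ) * b * h3
    have := key _ _ _ irr3 e
    omega
  rcases mul_eq_zero.mp hbc with hb | hc
  · subst hb
    refine ⟨?_, rfl⟩
    exact key a c _ irr2 (by push_cast at h; linarith)
  · subst hc
    have h4 : (a : ℝ) * √2 = -(b * √3) := by push_cast at h; linarith
    have h6 : √2 * √3 = √6 := by
      rw [← Real.sqrt_mul (by norm_num)]; norm_num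
    have hb : b = 0 := by
      refine key b (-(2 * a)) _ irr6 ?_
      push_cast
      rw [← h6]
      linear_combination √2 * h4 - (a : ℝ) * h2
    subst hb
    refine ⟨?_, rfl⟩
    exact key a 0 _ irr2 (by push_cast at h ⊢; linarith)

theorem act_free {n : ℕ} (h : 2 ≤ n) (γ : Fin n → ℤ) (x : Sp n)
    (hx : ((act n h).toVAdd.vadd γ x : Sp n) = x) : γ = 0 := by
  have h1 : x.1 + rt n h γ = x.1 := congrArg Prod.fst hx
  have h2 : x.2 + tr n γ = x.2 := congrArg Prod.snd hx
  rw [add_eq_left] at h1 h2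
  have h3 : ∃ c : ℤ, (γ ⟨0, by omega⟩ : ℝ) * √2 + (γ ⟨1, by omega⟩ : ℝ) * √3 = c := by
    have h4 : (((γ ⟨0, by omega⟩ : ℝ) * √2 + (γ ⟨1, by omega⟩ : ℝ) * √3 : ℝ) :
      AddCircle (1 : ℝ)) = 0 := h1
    rw [AddCircle.coe_eq_zero_iff] at h4
    obtain ⟨c, hc⟩ := h4
    refine ⟨c, ?_⟩
    rw [← hc]
    simp
  obtain ⟨c, hc⟩ := h3
  obtain ⟨h5, h6⟩ := indep hc
  funext i
  by_cases hi0 : i.1 = 0
  · have : i = ⟨0, by omega⟩ := Fin.ext hi0
    rw [this]; exact h5
  · by_cases hi1 : i.1 = 1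
    · have : i = ⟨1, by omega⟩ := Fin.ext hi1
      rw [this]; exact h6
    · have h7 := congrFun h2 i
      have h8 : tr n γ i = γ i := by
        show (if i.1 < 2 then 0 else γ i) = γ i
        rw [if_neg (by omega)]
      rw [h8] at h7
      exact h7

theorem not_inBorel {n : ℕ} (h : 2 ≤ n) (HB : BorelSide) : ¬ InBorel (Pb n) := by
  intro hb
  let _ := act n h
  obtain ⟨f, hf, hL⟩ := hb (Sp n) (fun γ => by
    show Measurable fun x : Sp n => ((x.1 + rt n h γ, x.2 + tr n γ) : Sp n)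
    exact (measurable_fst.add_const _).prodMk (measurable_snd.add_const _))
    (fun γ x hx => act_free h γ x hx)
  apply HB
  refine ⟨fun t => f (t, 0), fun A => ?_, ?_⟩
  · exact (measurable_id.prodMk measurable_const) (hf A)
  · intro t i j
    -- shift the base point
    obtain ⟨L, hL1, hL2⟩ := hL ((t + ((i * √2 + j * √3 : ℝ) : AddCircle (1 : ℝ)), 0) : Sp n)
    have key : Rl (fun m k : ℤ => f (t + (((i + m : ℤ) * √2 + (j + k : ℤ) * √3 : ℝ) :
        AddCircle (1 : ℝ)), 0)) 0 0 := by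
      refine Rl_congr (L := L) ?_ hL1
      intro m k h1 h2 h3 h4
      rw [← hL2 m k h1 h2 h3 h4]
      simp only
      congr 1
      show _ = ((t + ((i * √2 + j * √3 : ℝ) : AddCircle (1 : ℝ)) + rt n h (emb n (m, k)),
        (0 : Fin n → ℤ) + tr n (emb n (m, k))) : Sp n)
      ext1
      · simp only
        rw [add_assoc]
        congr 1
        show _ = ((i * √2 + j * √3 : ℝ) : AddCircle (1 : ℝ)) +
          ((((emb n (m, k) ⟨0, by omega⟩ : ℤ) : ℝ) * √2 + ((emb n (m, k) ⟨1, by omega⟩ : ℤ) : ℝ)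
            * √3 : ℝ) : AddCircle (1 : ℝ))
        rw [emb_zero h, emb_one h, ← AddCircle.coe_add]
        congr 1
        push_cast
        ring
      · simp only
        funext l
        rw [zero_add]
        show 0 = (if l.1 < 2 then 0 else emb n (m, k) l)
        split_ifs with hl
        · rfl
        · show 0 = (if l.1 = 0 then _ else if l.1 = 1 then _ else 0)
          rw [if_neg (by omega), if_neg (by omega)]
    exact Rl_shift key

/-- The theorem on `ℤⁿ`, from the two statements about `ℤ²`. -/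
theorem main_of (h1 : BaireSide) (h2 : BorelSide) (n : ℕ) (hn : 2 ≤ n) :
    ∃ P : LCL (Fin n → ℤ), InBaire P ∧ ¬ InBorel P :=
  ⟨Pb n, inBaire hn h1, not_inBorel hn h2⟩

end Pool.Agent.helper81.LclFinal
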