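import Mathlib

/-!
# Locally checkable labeling problems on groups

Groups are written additively, as we only use `ℤⁿ`.
-/

namespace Pool.Agent.helper81.LclProblem

/-- A locally checkable labeling problem `Π = (W, Λ, A)` on the group `Γ`: a finite window
`W ⊆ Γ`, a finite set of labels `Λ`, and a set `A` of allowed patterns `W → Λ`. -/
structure LCL (Γ : Type) where
  W : Finset Γ
  Λ : Type
  fin : Finite Λ
  A : Set (W → Λ)

/-- `f : X → Λ` is a `Π`-labeling for the action of `Γ` on `X`. -/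
def IsLabeling {Γ : Type} [AddGroup Γ] (P : LCL Γ) {X : Type} [AddAction Γ X] (f : X → P.Λ) :
    Prop :=
  ∀ x : X, (fun σ : P.W => f (σ.1 +ᵥ x)) ∈ P.A

/-- `Π ∈ BOREL(Γ)`: every free Borel action of `Γ` on a standard Borel space has a Borel
`Π`-labeling. -/
def InBorel {Γ : Type} [AddGroup Γ] (P : LCL Γ) : Prop :=
  ∀ (X : Type) [MeasurableSpace X] [StandardBorelSpace X] [AddAction Γ X],
    (∀ γ : Γ, Measurable fun x : X => γ +ᵥ x) → (∀ (γ : Γ) (x : X), γ +ᵥ x = x → γ = 0) →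
    ∃ f : X → P.Λ, (∀ s : Set P.Λ, MeasurableSet (f ⁻¹' s)) ∧ IsLabeling P f

/-- `Π ∈ BAIRE(Γ)`: every free Borel action of `Γ` on a Polish space has a `Π`-labeling whose
fibres have the Baire property. -/
def InBaire {Γ : Type} [AddGroup Γ] (P : LCL Γ) : Prop :=
  ∀ (X : Type) [TopologicalSpace X] [PolishSpace X] [MeasurableSpace X] [BorelSpace X]
    [AddAction Γ X],
    (∀ γ : Γ, Measurable fun x : X => γ +ᵥ x) → (∀ (γ : Γ) (x : X), γ +ᵥ x = x → γ = 0) →
    ∃ f : X → P.Λ, (∀ s : Set P.Λ, BaireMeasurableSet (f ⁻¹' s)) ∧ IsLabeling P f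

end Pool.Agent.helper81.LclProblem
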