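import Pool.Agent.helper81.LclClos

/-!
# Order convex connected sets of cells
-/

namespace Pool.Agent.helper81.Lcl

/-- Adjacency of cells. -/
def adj (x y : ℤ × ℤ) : Prop :=
  (y.2 = x.2 ∧ (y.1 = x.1 + 1 ∨ y.1 = x.1 - 1)) ∨ (y.1 = x.1 ∧ (y.2 = x.2 + 1 ∨ y.2 = x.2 - 1))

theorem adj_symm {x y : ℤ × ℤ} (h : adj x y) : adj y x := by
  unfold adj at *
  omega

/-- Adjacent cells of `A`. -/
def rel (A : Set (ℤ × ℤ)) (x y : ℤ × ℤ) : Prop := x ∈ A ∧ y ∈ A ∧ adj x y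

/-- Reachability in `A`. -/
abbrev con (A : Set (ℤ × ℤ)) : ℤ × ℤ → ℤ × ℤ → Prop := Relation.ReflTransGen (rel A)

theorem rel_symm {A : Set (ℤ × ℤ)} {x y : ℤ × ℤ} (h : rel A x y) : rel A y x :=
  ⟨h.2.1, h.1, adj_symm h.2.2⟩

theorem con_symm {A : Set (ℤ × ℤ)} {x y : ℤ × ℤ} (h : con A x y) : con A y x := by
  induction h with
  | refl => exact Relation.ReflTransGen.refl
  | tail _ h2 ih => exact Relation.ReflTransGen.head (rel_symm h2) ih

theorem con_mono {A B : Set (ℤ × ℤ)} (hAB : A ⊆ B) {x y : ℤ × ℤ} (h : con A x y) :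
    con B x y := by
  induction h with
  | refl => exact Relation.ReflTransGen.refl
  | tail _ h2 ih => exact ih.tail ⟨hAB h2.1, hAB h2.2.1, h2.2.2⟩

theorem con_mem {A : Set (ℤ × ℤ)} {x y : ℤ × ℤ} (hx : x ∈ A) (h : con A x y) : y ∈ A := by
  induction h with
  | refl => exact hx
  | tail _ h _ => exact h.2.1

theorem hseg_aux {A : Set (ℤ × ℤ)} (a b : ℤ) (n : ℕ)
    (h : ∀ i : ℤ, a ≤ i → i ≤ a + n → (i, b) ∈ A) : con A (a, b) (a + n, b) := by
  induction n with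
  | zero => simp only [Nat.cast_zero, add_zero]; exact Relation.ReflTransGen.refl
  | succ n ih =>
    refine (ih fun i h1 h2 => h i h1 (by push_cast; omega)).tail ⟨?_, ?_, ?_⟩
    · exact h _ (by omega) (by push_cast; omega)
    · exact h _ (by omega) (by push_cast; omega)
    · unfold adj; push_cast; left; constructor
      · rfl
      · left; ring

theorem vseg_aux {A : Set (ℤ × ℤ)} (a b : ℤ) (n : ℕ)
    (h : ∀ i : ℤ, b ≤ i → i ≤ b + n → (a, i) ∈ A) : con A (a, b) (a, b + n) := by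
  induction n with
  | zero => simp only [Nat.cast_zero, add_zero]; exact Relation.ReflTransGen.refl
  | succ n ih =>
    refine (ih fun i h1 h2 => h i h1 (by push_cast; omega)).tail ⟨?_, ?_, ?_⟩
    · exact h _ (by omega) (by push_cast; omega)
    · exact h _ (by omega) (by push_cast; omega)
    · unfold adj; push_cast; right; constructor
      · rfl
      · left; ring

theorem hseg {A : Set (ℤ × ℤ)} {a a' b : ℤ}
    (h : ∀ i : ℤ, min a a' ≤ i → i ≤ max a a' → (i, b) ∈ A) : con A (a, b) (a', b) := by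
  rcases le_total a a' with hh | hh
  · have := hseg_aux (A := A) a b (a' - a).toNat (fun i h1 h2 => h i (by omega) (by omega))
    rwa [show a + ((a' - a).toNat : ℤ) = a' by omega] at this
  · have := hseg_aux (A := A) a' b (a - a').toNat (fun i h1 h2 => h i (by omega) (by omega))
    rw [show a' + ((a - a').toNat : ℤ) = a by omega] at this
    exact con_symm this

theorem vseg {A : Set (ℤ × ℤ)} {a b b' : ℤ}
    (h : ∀ i : ℤ, min b b' ≤ i → i ≤ max b b' → (a, i) ∈ A) : con A (a, b) (a, b') := by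
  rcases le_total b b' with hh | hh
  · have := vseg_aux (A := A) a b (b' - b).toNat (fun i h1 h2 => h i (by omega) (by omega))
    rwa [show b + ((b' - b).toNat : ℤ) = b' by omega] at this
  · have := vseg_aux (A := A) a b' (b - b').toNat (fun i h1 h2 => h i (by omega) (by omega))
    rw [show b' + ((b - b').toNat : ℤ) = b by omega] at this
    exact con_symm this

/-- A property that changes along a path changes at one step of it. -/
theorem exists_step {α : Type*} {R : α → α → Prop} {P : α → Prop} {x y : α}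
    (h : Relation.ReflTransGen R x y) (hx : ¬ P x) (hy : P y) : ∃ a b, R a b ∧ ¬ P a ∧ P b := by
  induction h with
  | refl => exact absurd hy hx
  | tail h1 h2 ih =>
    rename_i b c
    by_cases hb : P b
    · exact ih hb
    · exact ⟨b, c, h2, hb, hy⟩

/-- Order convex connected sets. -/
structure Nice (A : Set (ℤ × ℤ)) : Prop where
  oc : ∀ a b a' b' u v : ℤ, (a, b) ∈ A → (a', b') ∈ A → a ≤ u → u ≤ a' → b ≤ v → v ≤ b' →
    (u, v) ∈ A
  conn : ∀ x ∈ A, ∀ y ∈ A, con A x y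

theorem Nice.anti {A : Set (ℤ × ℤ)} (h : Nice A) {a b : ℤ} (h1 : (a + 1, b) ∈ A)
    (h2 : (a, b + 1) ∈ A) : (a, b) ∈ A ∨ (a + 1, b + 1) ∈ A := by
  by_contra hcon
  rw [not_or] at hcon
  obtain ⟨h3, h4⟩ := hcon
  obtain ⟨x, y, ⟨hx, hy, hxy⟩, hPx, hPy⟩ := exists_step
    (P := fun z : ℤ × ℤ => ¬ (z.1 ≤ a ∧ b + 1 ≤ z.2)) (h.conn _ h2 _ h1)
    (by push Not; constructor <;> omega) (by simp)
  rw [not_not] at hPx
  obtain ⟨x1, x2⟩ := x
  obtain ⟨y1, y2⟩ := y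
  simp only [adj] at hxy hPx hPy
  obtain ⟨hp1, hp2⟩ := hPx
  have hc : (y1 = a + 1 ∧ b + 1 ≤ y2) ∨ (y2 = b ∧ y1 ≤ a) := by omega
  rcases hc with ⟨h5, h6⟩ | ⟨h5, h6⟩
  · exact h4 (h.oc (a + 1) b y1 y2 _ _ h1 hy (by omega) (by omega) (by omega) (by omega))
  · exact h3 (h.oc y1 y2 a (b + 1) _ _ hy h2 (by omega) (by omega) (by omega) (by omega))

theorem Nice.hug {A : Set (ℤ × ℤ)} (h : Nice A) {a b : ℤ} (h1 : (a, b) ∈ A)
    (h2 : (a, b - 1) ∉ A) {u v : ℤ} (huv : (u, v) ∈ A) (hv : v < b) : (a + 1, b) ∈ A := by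
  obtain ⟨x, y, ⟨hx, hy, hxy⟩, hPx, hPy⟩ := exists_step
    (P := fun z : ℤ × ℤ => b ≤ z.2) (h.conn _ huv _ h1) (by simp only; omega) (by simp)
  obtain ⟨x1, x2⟩ := x
  obtain ⟨y1, y2⟩ := y
  simp only [adj] at hxy hPx hPy
  have h3 : x2 = b - 1 ∧ y2 = b ∧ x1 = y1 := by omega
  obtain ⟨rfl, rfl, rfl⟩ := h3
  rcases lt_trichotomy x1 a with h4 | h4 | h4
  · exact absurd (h.oc x1 (y2 - 1) a y2 _ _ hx h1 (by omega) (by omega) (by omega) (by omega)) h2
  · subst h4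
    exact absurd hx h2
  · exact h.oc a y2 x1 y2 _ _ h1 hy (by omega) (by omega) (by omega) (by omega)

/-- The component of `c` in `B`. -/
def comp (B : Set (ℤ × ℤ)) (c : ℤ × ℤ) : Set (ℤ × ℤ) := {z | c ∈ B ∧ con B c z}

theorem comp_sub {B : Set (ℤ × ℤ)} {c : ℤ × ℤ} : comp B c ⊆ B := fun _ h => con_mem h.1 h.2

theorem comp_mono {B B' : Set (ℤ × ℤ)} (hB : B ⊆ B') {c : ℤ × ℤ} : comp B c ⊆ comp B' c :=
  fun _ h => ⟨hB h.1, con_mono hB h.2⟩

theorem comp_con {B : Set (ℤ × ℤ)} {c x y : ℤ × ℤ} (hx : x ∈ comp B c) (h : con B x y) :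
    y ∈ comp B c := ⟨hx.1, hx.2.trans h⟩

theorem comp_conn {B : Set (ℤ × ℤ)} {c x : ℤ × ℤ} (hx : x ∈ comp B c) : con (comp B c) c x := by
  obtain ⟨hc, h⟩ := hx
  induction h with
  | refl => exact Relation.ReflTransGen.refl
  | tail h1 h2 ih =>
    refine ih.tail ⟨⟨hc, h1⟩, ⟨hc, h1.tail h2⟩, h2.2.2⟩

theorem comp_nice {B : Set (ℤ × ℤ)} (hB : ∀ a b a' b' u v : ℤ, (a, b) ∈ B → (a', b') ∈ B →
    a ≤ u → u ≤ a' → b ≤ v → v ≤ b' → (u, v) ∈ B) (c : ℤ × ℤ) : Nice (comp B c) := by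
  constructor
  · intro a b a' b' u v h1 h2 h3 h4 h5 h6
    refine comp_con h1 ?_
    have h7 := comp_sub h1
    have h8 := comp_sub h2
    refine (hseg (a := a) (a' := u) (b := b) ?_).trans (vseg (b := b) (b' := v) ?_)
    · intro i hi1 hi2
      exact hB a b a' b' _ _ h7 h8 (by omega) (by omega) (by omega) (by omega)
    · intro i hi1 hi2
      exact hB a b a' b' _ _ h7 h8 (by omega) (by omega) (by omega) (by omega)
  · intro x hx y hy
    exact (con_symm (comp_conn hx)).trans (comp_conn hy)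

theorem box_con {R : ℤ} {c x y : ℤ × ℤ} (hx : near R c x) (hy : near R c y) :
    con {z | near R c z} x y := by
  obtain ⟨x1, x2⟩ := x
  obtain ⟨y1, y2⟩ := y
  refine (hseg (a := x1) (a' := y1) (b := x2) ?_).trans (vseg (b := x2) (b' := y2) ?_)
  · intro i hi1 hi2
    simp only [Set.mem_ofPred_eq, near] at *
    omega
  · intro i hi1 hi2
    simp only [Set.mem_ofPred_eq, near] at *
    omega

theorem comp_resp {B : Set (ℤ × ℤ)} {c c' : ℤ × ℤ} {R : ℤ} (hB : Resp R c' B) :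
    Resp R c' (comp B c) := by
  rcases hB with hB | hB
  · by_cases h : ∃ z, near R c' z ∧ z ∈ comp B c
    · obtain ⟨z, hz, hzc⟩ := h
      left
      intro w hw
      exact comp_con hzc (con_mono (fun _ h => hB _ h) (box_con hz hw))
    · right
      intro z hz hzc
      exact h ⟨z, hz, hzc⟩
  · right
    intro z hz hzc
    exact hB z hz (comp_sub hzc)

theorem inter_resp {B B' : Set (ℤ × ℤ)} {c' : ℤ × ℤ} {R : ℤ} (hB : Resp R c' B)
    (hB' : Resp R c' B') : Resp R c' (B ∩ B') := by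
  rcases hB with hB | hB
  · rcases hB' with hB' | hB'
    · exact Or.inl fun z hz => ⟨hB z hz, hB' z hz⟩
    · exact Or.inr fun z hz h => hB' z hz h.2
  · exact Or.inr fun z hz h => hB z hz h.1

theorem Resp.mono {Z : Set (ℤ × ℤ)} {c' : ℤ × ℤ} {R R' : ℤ} (h : Resp R c' Z) (hR : R' ≤ R) :
    Resp R' c' Z := by
  rcases h with h | h
  · exact Or.inl fun z hz => h z (near_mono hz hR)
  · exact Or.inr fun z hz => h z (near_mono hz hR)

/-! ### The sets `W`, `V` and `A` -/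

theorem cone_lin {i : ℕ} {s t : ℤ} (h : cone i s t) : 0 ≤ 2 * s + t ∧ 0 ≤ 2 * t + s := by
  obtain ⟨h1, h2⟩ := h
  have hi : (0 : ℤ) ≤ i := Int.natCast_nonneg i
  constructor
  · rcases le_or_gt 0 s with hs | hs
    · by_contra hc
      push Not at hc
      nlinarith
    · by_contra hc
      push Not at hc
      nlinarith
  · rcases le_or_gt 0 t with hs | hs
    · by_contra hc
      push Not at hc
      nlinarith
    · by_contra hc
      push Not at hc
      nlinarith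

/-- The starting cone. -/
def base (ε : ℤ) (j : ℕ) (c : ℤ × ℤ) (R : ℤ) : Set (ℤ × ℤ) :=
  {z | cone j (ε * (z.1 - c.1) + R) (ε * (z.2 - c.2) + R)}

theorem base_cl {ε : ℤ} (j : ℕ) (c : ℤ × ℤ) (R : ℤ) : Cl ε j (base ε j c R) := by
  intro u hu z hz
  have := cone_add hu hz
  simp only [base, Set.mem_ofPred_eq]
  rwa [show ε * (z.1 - c.1) + R = ε * (u.1 - c.1) + R + ε * (z.1 - u.1) by ring,
    show ε * (z.2 - c.2) + R = ε * (u.2 - c.2) + R + ε * (z.2 - u.2) by ring]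

theorem base_near {ε : ℤ} (hε : ε = 1 ∨ ε = -1) {j : ℕ} {c : ℤ × ℤ} {R d : ℤ} {u z : ℤ × ℤ}
    (hu : u ∈ base ε j c R) (h : near d u z) : z ∈ base ε j c (R + d) := by
  simp only [base, Set.mem_ofPred_eq] at *
  have h2 : cone j (ε * (z.1 - u.1) + d) (ε * (z.2 - u.2) + d) := by
    unfold near at h
    apply cone_quad
    · rcases hε with rfl | rfl <;> omega
    · rcases hε with rfl | rfl <;> omega
  have := cone_add hu h2
  rwa [show ε * (z.1 - c.1) + (R + d) = ε * (u.1 - c.1) + R + (ε * (z.1 - u.1) + d) by ring,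
    show ε * (z.2 - c.2) + (R + d) = ε * (u.2 - c.2) + R + (ε * (z.2 - u.2) + d) by ring]

theorem base_self {ε : ℤ} {j : ℕ} {c : ℤ × ℤ} {R : ℤ} (hR : 0 ≤ R) : c ∈ base ε j c R := by
  simp only [base, Set.mem_ofPred_eq, sub_self, mul_zero, zero_add]
  exact cone_quad j hR hR

/-- The closure of the base. -/
def WW (ε : ℤ) (r : ℕ → ℤ) (O : ℕ → Set (ℤ × ℤ)) (j : ℕ) (c : ℤ × ℤ) (R : ℤ) : Set (ℤ × ℤ) :=
  down ε r O j (base ε j c R)

/-- The set between `W` and `V`. -/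
def BB (r : ℕ → ℤ) (O : ℕ → Set (ℤ × ℤ)) (j : ℕ) (c : ℤ × ℤ) (R : ℤ) : Set (ℤ × ℤ) :=
  WW 1 r O j c R ∩ WW (-1) r O j c R

/-- The nested sets `A k`. -/
def AA (r : ℕ → ℤ) (O : ℕ → Set (ℤ × ℤ)) (j : ℕ) (c : ℤ × ℤ) (k : ℕ) : Set (ℤ × ℤ) :=
  comp (BB r O j c (k * (dl r j + 1))) c

section
variable {r : ℕ → ℤ} (hr : ∀ i, 0 ≤ r i) {O : ℕ → Set (ℤ × ℤ)}
  (hO : ∀ i, Sepd ((cc i + 2) * r i) (O i)) (j : ℕ) (c : ℤ × ℤ)
include hr hO

theorem WW_up {ε : ℤ} (hε : ε = 1 ∨ ε = -1) {R : ℤ} {u z : ℤ × ℤ} (hu : u ∈ WW ε r O j c R)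
    (h1 : 0 ≤ ε * (z.1 - u.1)) (h2 : 0 ≤ ε * (z.2 - u.2)) : z ∈ WW ε r O j c R := by
  have := (down_spec hε hr hO j _ (base_cl (ε := ε) j c R)).2.1
  exact this u hu z (cone_quad 0 h1 h2)

theorem WW_next {ε : ℤ} (hε : ε = 1 ∨ ε = -1) {R : ℤ} {u z : ℤ × ℤ} (hu : u ∈ WW ε r O j c R)
    (h : near 1 u z) : z ∈ base ε j c (R + (dl r j + 1)) := by
  obtain ⟨w, hw, hwu⟩ := (down_spec hε hr hO j _ (base_cl (ε := ε) j c R)).2.2.1 u hu
  exact base_near hε hw (near_trans hwu h)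

theorem base_sub {ε : ℤ} (hε : ε = 1 ∨ ε = -1) {R : ℤ} : base ε j c R ⊆ WW ε r O j c R :=
  (down_spec hε hr hO j _ (base_cl (ε := ε) j c R)).1

theorem WW_resp {ε : ℤ} (hε : ε = 1 ∨ ε = -1) {R : ℤ} {k : ℕ} (hk : k < j) {c' : ℤ × ℤ}
    (hc' : c' ∈ O k) : Resp (r k - dl r k) c' (WW ε r O j c R) :=
  (down_spec hε hr hO j _ (base_cl (ε := ε) j c R)).2.2.2 k hk c' hc'

theorem BB_oc (R : ℤ) : ∀ a b a' b' u v : ℤ, (a, b) ∈ BB r O j c R → (a', b') ∈ BB r O j c R →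
    a ≤ u → u ≤ a' → b ≤ v → v ≤ b' → (u, v) ∈ BB r O j c R := by
  intro a b a' b' u v h1 h2 h3 h4 h5 h6
  exact ⟨WW_up hr hO j c (Or.inl rfl) h1.1 (by simp only; omega) (by simp only; omega),
    WW_up hr hO j c (Or.inr rfl) h2.2 (by simp only; omega) (by simp only; omega)⟩

theorem AA_nice (k : ℕ) : Nice (AA r O j c k) := comp_nice (BB_oc hr hO j c _) c

theorem AA_resp {i : ℕ} (hi : i < j) {c' : ℤ × ℤ} (hc' : c' ∈ O i) (k : ℕ) :
    Resp (r i - dl r i) c' (AA r O j c k) :=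
  comp_resp (inter_resp (WW_resp hr hO j c (Or.inl rfl) hi hc')
    (WW_resp hr hO j c (Or.inr rfl) hi hc'))

theorem BB_next {R : ℤ} {u z : ℤ × ℤ} (hu : u ∈ BB r O j c R) (h : near 1 u z) :
    z ∈ BB r O j c (R + (dl r j + 1)) :=
  ⟨base_sub hr hO j c (Or.inl rfl) (WW_next hr hO j c (Or.inl rfl) hu.1 h),
    base_sub hr hO j c (Or.inr rfl) (WW_next hr hO j c (Or.inr rfl) hu.2 h)⟩

theorem c_mem_BB {R : ℤ} (hR : 0 ≤ R) : c ∈ BB r O j c R :=
  ⟨base_sub hr hO j c (Or.inl rfl) (base_self hR), base_sub hr hO j c (Or.inr rfl) (base_self hR)⟩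

theorem c_mem_AA (k : ℕ) : c ∈ AA r O j c k :=
  ⟨c_mem_BB hr hO j c (by have := dl_nonneg hr j; positivity), Relation.ReflTransGen.refl⟩

theorem AA_next {k : ℕ} {u z : ℤ × ℤ} (hu : u ∈ AA r O j c k) (h : near 1 u z) :
    z ∈ AA r O j c (k + 1) := by
  have e : (((k + 1 : ℕ) : ℤ) * (dl r j + 1)) = (k : ℤ) * (dl r j + 1) + (dl r j + 1) := by
    push_cast; ring
  have h1 : BB r O j c (k * (dl r j + 1)) ⊆ BB r O j c (((k + 1 : ℕ) : ℤ) * (dl r j + 1)) := by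
    intro w hw
    rw [e]
    exact BB_next hr hO j c hw (near_self (by norm_num) w)
  have h2 : u ∈ AA r O j c (k + 1) := comp_mono h1 hu
  refine comp_con h2 (con_mono ?_ (box_con (R := 1) (c := u) (near_self (by norm_num) u) h))
  intro w hw
  rw [e]
  exact BB_next hr hO j c (comp_sub hu) hw

theorem AA_mono {k l : ℕ} (hkl : k ≤ l) : AA r O j c k ⊆ AA r O j c l := by
  induction l, hkl using Nat.le_induction with
  | base => exact fun _ h => h
  | succ l _ ih => exact fun z hz => AA_next hr hO j c (ih hz) (near_self (by norm_num) z)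

theorem BB_bdd {R : ℤ} {z : ℤ × ℤ} (hz : z ∈ BB r O j c R) : near (3 * (R + dl r j)) c z := by
  obtain ⟨w, hw, hwz⟩ := (down_spec (Or.inl rfl) hr hO j _ (base_cl (ε := 1) j c R)).2.2.1 z hz.1
  obtain ⟨w', hw', hwz'⟩ :=
    (down_spec (Or.inr rfl) hr hO j _ (base_cl (ε := -1) j c R)).2.2.1 z hz.2
  have h1 := cone_lin (base_near (Or.inl rfl) hw hwz)
  have h2 := cone_lin (base_near (Or.inr rfl) hw' hwz')
  unfold near
  omega

theorem AA_bdd {k : ℕ} {z : ℤ × ℤ} (hz : z ∈ AA r O j c k) :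
    near (3 * (k * (dl r j + 1) + dl r j)) c z := BB_bdd hr hO j c (comp_sub hz)

/-- East and north neighbours outside `A 0` of cells of `A 0` are not in `V`. -/
theorem AA_out {k : ℕ} {u z : ℤ × ℤ} (hu : u ∈ AA r O j c k) (hz : z ∉ AA r O j c k)
    (hadj : adj u z) (h1 : u.1 ≤ z.1) (h2 : u.2 ≤ z.2) :
    z ∉ WW (-1) r O j c (k * (dl r j + 1)) := by
  intro hzV
  apply hz
  have huB := comp_sub hu
  have hzW : z ∈ WW 1 r O j c (k * (dl r j + 1)) :=
    WW_up hr hO j c (Or.inl rfl) huB.1 (by omega) (by omega)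
  exact comp_con hu (Relation.ReflTransGen.single ⟨huB, ⟨hzW, hzV⟩, hadj⟩)

end

end Pool.Agent.helper81.Lcl
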