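import Pool.Agent.helper81.LclShape

/-!
# Parameters and the stream function
-/

namespace Pool.Agent.helper81.Lcl

open Finset

/-! ### Parameters -/

/-- The number of rings. -/
def kf (d : ℤ) : ℤ := 4 * (2 * (3 * d) + 1)

/-- The size of an island with its rings. -/
def sf (d : ℤ) : ℤ := 3 * ((kf d + 1) * (d + 1) + d) + 1

/-- The size of the zone of an island. -/
def rhf (j : ℕ) (d : ℤ) : ℤ := (1 + 6 * 2 ^ (j + 1)) * (sf d + 3 + d)

/-- The total deviation below level `j`. -/
def dd : ℕ → ℤ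
  | 0 => 0
  | j + 1 => dd j + (cc j + 2) * (rhf j (dd j) + 1 + dd j)

/-- Half size of the zone. -/
def rho (j : ℕ) : ℤ := rhf j (dd j)

/-- Radius in the closure step. -/
def rad (j : ℕ) : ℤ := rho j + 1 + dd j

/-- Half size of an island with its rings. -/
def ss (j : ℕ) : ℤ := sf (dd j)

/-- Separation of the centres. -/
def qq (j : ℕ) : ℤ := (cc j + 2) * rad j

theorem sf_pos {d : ℤ} (hd : 0 ≤ d) : 0 ≤ sf d := by
  unfold sf kf
  positivity

theorem rhf_nonneg (j : ℕ) {d : ℤ} (hd : 0 ≤ d) : 0 ≤ rhf j d := by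
  have := sf_pos hd
  unfold rhf
  positivity

theorem dd_nonneg (j : ℕ) : 0 ≤ dd j := by
  induction j with
  | zero => exact le_rfl
  | succ j ih =>
    have h1 := cc_ge j
    have h2 := rhf_nonneg j ih
    simp only [dd]
    positivity

theorem rho_nonneg (j : ℕ) : 0 ≤ rho j := rhf_nonneg j (dd_nonneg j)

theorem rad_nonneg (j : ℕ) : 0 ≤ rad j := by
  have := rho_nonneg j
  have := dd_nonneg j
  unfold rad
  positivity

theorem dl_rad (j : ℕ) : dl rad j = dd j := by
  induction j with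
  | zero => rfl
  | succ j ih => simp only [dl, dd, ih, rad, rho]

theorem rad_sub (j : ℕ) : rad j - dl rad j = rho j + 1 := by
  rw [dl_rad]; unfold rad; ring

theorem ss_nonneg (j : ℕ) : 0 ≤ ss j := sf_pos (dd_nonneg j)

theorem rho_eq (j : ℕ) : rho j = (1 + 6 * 2 ^ (j + 1)) * (ss j + 3 + dd j) := rfl

theorem rho_ge (j : ℕ) : ss j + 3 + dd j ≤ rho j := by
  rw [rho_eq]
  have h1 := ss_nonneg j
  have h2 := dd_nonneg j
  have h3 : (0 : ℤ) ≤ 6 * 2 ^ (j + 1) * (ss j + 3 + dd j) := by positivity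
  linarith

theorem qq_ge (j : ℕ) : 34 * rad j ≤ qq j := by
  have h1 := cc_ge j
  have h2 := rad_nonneg j
  unfold qq
  nlinarith

theorem qq_nonneg (j : ℕ) : 0 ≤ qq j := by
  have := qq_ge j
  have h2 := rad_nonneg j
  linarith

/-! ### Soft thresholding -/

/-- Soft thresholding. -/
noncomputable def soft (a t : ℝ) : ℝ := max (a - t) 0 + min (a + t) 0

theorem soft_zero (a : ℝ) : soft a 0 = a := by
  unfold soft
  rcases le_total a 0 with h | h
  · rw [max_eq_right (by linarith), min_eq_left (by linarith)]; ring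
  · rw [max_eq_left (by linarith), min_eq_right (by linarith)]; ring

theorem soft_small {a t : ℝ} (h : |a| ≤ t) : soft a t = 0 := by
  rw [abs_le] at h
  unfold soft
  rw [max_eq_right (by linarith), min_eq_right (by linarith)]; ring

theorem soft_lip {a b t t' : ℝ} (ht : 0 ≤ t) (ht' : 0 ≤ t') :
    |soft a t - soft b t'| ≤ |a - b| + |t - t'| := by
  have h1 := abs_nonneg (a - b)
  have h2 := abs_nonneg (t - t')
  have h3 := le_abs_self (a - b)
  have h4 := neg_abs_le (a - b)
  have h5 := le_abs_self (t - t')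
  have h6 := neg_abs_le (t - t')
  unfold soft
  rw [abs_le]
  rcases le_total (a - t) 0 with h7 | h7 <;> rcases le_total (a + t) 0 with h8 | h8 <;>
  rcases le_total (b - t') 0 with h9 | h9 <;> rcases le_total (b + t') 0 with h10 | h10 <;>
  simp only [max_eq_left, max_eq_right, min_eq_left, min_eq_right, h7, h8, h9, h10] <;>
  constructor <;> linarith

/-! ### Smoothing -/

/-- Sup norm. -/
noncomputable def nrm (g : ℤ × ℤ) : ℤ := max |g.1| |g.2|

theorem nrm_le {g : ℤ × ℤ} {R : ℤ} : nrm g ≤ R ↔ -R ≤ g.1 ∧ g.1 ≤ R ∧ -R ≤ g.2 ∧ g.2 ≤ R := by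
  unfold nrm
  rw [max_le_iff, abs_le, abs_le]
  tauto

/-- The square of half size `R` around `0`, as a finite set. -/
noncomputable def sq (R : ℤ) : Finset (ℤ × ℤ) := Icc (-R) R ×ˢ Icc (-R) R

theorem mem_sq {R : ℤ} {g : ℤ × ℤ} : g ∈ sq R ↔ -R ≤ g.1 ∧ g.1 ≤ R ∧ -R ≤ g.2 ∧ g.2 ≤ R := by
  unfold sq
  rw [mem_product, mem_Icc, mem_Icc]
  tauto

/-- The slope at level `i`. -/
noncomputable def ga (i : ℕ) : ℝ := (1 / 2) ^ (i + 1)

theorem ga_pos (i : ℕ) : 0 < ga i := by unfold ga; positivity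

/-- The threshold. -/
noncomputable def tau (i : ℕ) (g : ℤ × ℤ) : ℝ := ga i * ((rho i : ℝ) - (nrm g : ℝ))

open Classical in
/-- One smoothing step. -/
noncomputable def smo (i : ℕ) (O : Set (ℤ × ℤ)) (u : ℤ × ℤ → ℝ) (p : ℤ × ℤ) : ℝ :=
  u p + ∑ g ∈ sq (rho i), if p + g ∈ O then
    u (p + g) + soft (u p - u (p + g)) (tau i g) - u p else 0

/-- The smoothing steps `i - 1, …, 0`. -/
noncomputable def sm (O : ℕ → Set (ℤ × ℤ)) : ℕ → (ℤ × ℤ → ℝ) → (ℤ × ℤ → ℝ)
  | 0, u => u
  | i + 1, u => sm O i (smo i (O i) u)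

theorem tau_nonneg {i : ℕ} {g : ℤ × ℤ} (h : nrm g ≤ rho i) : 0 ≤ tau i g := by
  unfold tau
  have h1 : (nrm g : ℝ) ≤ (rho i : ℝ) := by exact_mod_cast h
  exact mul_nonneg (ga_pos i).le (by linarith)

theorem near_nrm {R : ℤ} {c p : ℤ × ℤ} : near R c p ↔ nrm (c - p) ≤ R := by
  rw [nrm_le]
  unfold near
  simp only [Prod.fst_sub, Prod.snd_sub]
  omega

theorem smo_in {i : ℕ} {O : Set (ℤ × ℤ)} (hO : Sepd (qq i) O) (u : ℤ × ℤ → ℝ) {c p : ℤ × ℤ}
    (hc : c ∈ O) (h : near (rho i) c p) :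
    smo i O u p = u c + soft (u p - u c) (tau i (c - p)) := by
  unfold smo
  have hq : 2 * rho i ≤ qq i := by
    have h1 := qq_ge i
    have h2 := rho_nonneg i
    have h3 := dd_nonneg i
    unfold rad at h1
    linarith
  rw [Finset.sum_eq_single (c - p)]
  · have e : p + (c - p) = c := by rw [add_sub_cancel]
    rw [e, if_pos hc]
    ring
  · intro g hg hgc
    rw [if_neg]
    intro hO'
    apply hgc
    have : c = p + g := by
      refine hO c hc _ hO' ?_
      rw [mem_sq] at hg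
      unfold near at *
      simp only [Prod.fst_add, Prod.snd_add]
      omega
    rw [this]; ring
  · intro hg
    exfalso
    apply hg
    rw [mem_sq]
    unfold near at h
    simp only [Prod.fst_sub, Prod.snd_sub]
    omega

theorem smo_out {i : ℕ} {O : Set (ℤ × ℤ)} (u : ℤ × ℤ → ℝ) {p : ℤ × ℤ}
    (h : ∀ c ∈ O, ¬ near (rho i) c p) : smo i O u p = u p := by
  unfold smo
  rw [Finset.sum_eq_zero, add_zero]
  intro g hg
  rw [if_neg]
  intro hO'
  refine h _ hO' ?_
  rw [mem_sq] at hg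
  unfold near
  simp only [Prod.fst_add, Prod.snd_add]
  omega

/-- `u` changes by at most `γ` along edges. -/
def Lip (γ : ℝ) (u : ℤ × ℤ → ℝ) : Prop := ∀ p q, adj p q → |u p - u q| ≤ γ

theorem nrm_adj {p q c : ℤ × ℤ} (h : adj p q) : |nrm (c - p) - nrm (c - q)| ≤ 1 := by
  rw [abs_le]
  unfold nrm adj at *
  simp only [Prod.fst_sub, Prod.snd_sub]
  constructor
  · have h1 : max |c.1 - q.1| |c.2 - q.2| ≤ max |c.1 - p.1| |c.2 - p.2| + 1 := by
      rw [max_le_iff]
      constructor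
      · have := le_max_left |c.1 - p.1| |c.2 - p.2|
        rw [abs_le] at *
        have h3 := le_abs_self (c.1 - p.1)
        have h4 := neg_abs_le (c.1 - p.1)
        constructor <;> omega
      · have := le_max_right |c.1 - p.1| |c.2 - p.2|
        have h3 := le_abs_self (c.2 - p.2)
        have h4 := neg_abs_le (c.2 - p.2)
        rw [abs_le]
        constructor <;> omega
    linarith
  · have h1 : max |c.1 - p.1| |c.2 - p.2| ≤ max |c.1 - q.1| |c.2 - q.2| + 1 := by
      rw [max_le_iff]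
      constructor
      · have := le_max_left |c.1 - q.1| |c.2 - q.2|
        have h3 := le_abs_self (c.1 - q.1)
        have h4 := neg_abs_le (c.1 - q.1)
        rw [abs_le]
        constructor <;> omega
      · have := le_max_right |c.1 - q.1| |c.2 - q.2|
        have h3 := le_abs_self (c.2 - q.2)
        have h4 := neg_abs_le (c.2 - q.2)
        rw [abs_le]
        constructor <;> omega
    linarith

theorem smo_lip {i : ℕ} {O : Set (ℤ × ℤ)} (hO : Sepd (qq i) O) {γ : ℝ} {u : ℤ × ℤ → ℝ}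
    (hu : Lip γ u) : Lip (γ + ga i) (smo i O u) := by
  have hq : 2 * rho i + 1 ≤ qq i := by
    have h1 := qq_ge i
    have h2 := rho_nonneg i
    have h3 := dd_nonneg i
    unfold rad at h1
    linarith
  have hg := (ga_pos i).le
  -- a point in a box with a neighbour outside
  have edge : ∀ p q c, adj p q → near (rho i) c p → ¬ near (rho i) c q → c ∈ O →
      smo i O u p = u p := by
    intro p q c hpq hp hq' hc
    rw [smo_in hO u hc hp]
    have h1 : nrm (c - p) = rho i := by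
      rw [near_nrm] at hp hq'
      have := nrm_adj (c := c) hpq
      rw [abs_le] at this
      omega
    unfold tau
    rw [h1, sub_self, mul_zero, soft_zero]; ring
  intro p q hpq
  have h0 := hu p q hpq
  by_cases hp : ∃ c ∈ O, near (rho i) c p
  · obtain ⟨c, hc, hcp⟩ := hp
    by_cases hq' : near (rho i) c q
    · rw [smo_in hO u hc hcp, smo_in hO u hc hq']
      have h1 := soft_lip (a := u p - u c) (b := u q - u c) (tau_nonneg (near_nrm.mp hcp))
        (tau_nonneg (near_nrm.mp hq'))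
      have h2 : |tau i (c - p) - tau i (c - q)| ≤ ga i := by
        have h3 := nrm_adj (c := c) hpq
        have h4 : |(nrm (c - p) : ℝ) - (nrm (c - q) : ℝ)| ≤ 1 := by exact_mod_cast h3
        have h5 : tau i (c - p) - tau i (c - q) =
            -(ga i * ((nrm (c - p) : ℝ) - (nrm (c - q) : ℝ))) := by
          unfold tau; ring
        rw [h5, abs_neg, abs_mul, abs_of_nonneg hg]
        nlinarith
      have h3 : u p - u c - (u q - u c) = u p - u q := by ring
      rw [h3] at h1
      have h4 : u c + soft (u p - u c) (tau i (c - p)) - (u c + soft (u q - u c) (tau i (c - q)))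
          = soft (u p - u c) (tau i (c - p)) - soft (u q - u c) (tau i (c - q)) := by ring
      rw [h4]
      linarith
    · rw [edge p q c hpq hcp hq' hc]
      by_cases hq2 : ∃ c' ∈ O, near (rho i) c' q
      · exfalso
        obtain ⟨c', hc', hcq⟩ := hq2
        have : c = c' := by
          refine hO c hc c' hc' ?_
          unfold near adj at *
          omega
        exact hq' (this ▸ hcq)
      · rw [smo_out u (fun c' hc' h' => hq2 ⟨c', hc', h'⟩)]
        linarith
  · rw [smo_out u (fun c' hc' h' => hp ⟨c', hc', h'⟩)]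
    by_cases hq2 : ∃ c' ∈ O, near (rho i) c' q
    · obtain ⟨c', hc', hcq⟩ := hq2
      rw [edge q p c' (adj_symm hpq) hcq (fun h' => hp ⟨c', hc', h'⟩) hc']
      linarith
    · rw [smo_out u (fun c' hc' h' => hq2 ⟨c', hc', h'⟩)]
      linarith

/-- `u` is constant on the square of radius `R` around `p`. -/
def Cst (R : ℤ) (p : ℤ × ℤ) (v : ℝ) (u : ℤ × ℤ → ℝ) : Prop := ∀ q, near R p q → u q = v

theorem smo_cst {i : ℕ} {O : Set (ℤ × ℤ)} (hO : Sepd (qq i) O) {R : ℤ} {p : ℤ × ℤ} {v : ℝ}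
    {u : ℤ × ℤ → ℝ} (hu : Cst R p v u) : Cst (R - 2 * rho i) p v (smo i O u) := by
  have hr := rho_nonneg i
  intro q hq
  have hq1 : u q = v := hu q (near_mono hq (by linarith))
  by_cases hp : ∃ c ∈ O, near (rho i) c q
  · obtain ⟨c, hc, hcp⟩ := hp
    rw [smo_in hO u hc hcp, hq1]
    have hc1 : u c = v := by
      refine hu c ?_
      unfold near at *
      omega
    rw [hc1, sub_self, soft_small (by rw [abs_zero]; exact tau_nonneg (near_nrm.mp hcp))]
    ring
  · rw [smo_out u (fun c' hc' h' => hp ⟨c', hc', h'⟩), hq1]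

theorem lip_con {γ : ℝ} {u : ℤ × ℤ → ℝ} (hu : Lip γ u) {c p : ℤ × ℤ} :
    |u p - u c| ≤ γ * ((|p.1 - c.1| + |p.2 - c.2| : ℤ) : ℝ) := by
  have h : ∀ (n : ℕ) (p : ℤ × ℤ), |p.1 - c.1| + |p.2 - c.2| = n → |u p - u c| ≤ γ * n := by
    intro n
    induction n with
    | zero =>
      intro p hp
      have h1 : p = c := by
        have h2 := abs_nonneg (p.1 - c.1)
        have h3 := abs_nonneg (p.2 - c.2)
        have h4 : |p.1 - c.1| = 0 := by push_cast at hp; omega
        have h5 : |p.2 - c.2| = 0 := by push_cast at hp; omega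
        rw [abs_eq_zero] at h4 h5
        ext <;> omega
      simp [h1]
    | succ n ih =>
      intro p hp
      obtain ⟨q, hq, hpq⟩ : ∃ q : ℤ × ℤ, |q.1 - c.1| + |q.2 - c.2| = n ∧ adj p q := by
        push_cast at hp
        unfold adj
        rcases lt_trichotomy p.1 c.1 with h1 | h1 | h1
        · refine ⟨(p.1 + 1, p.2), ?_, by simp⟩
          rw [abs_of_neg (by omega)] at hp
          simp only
          rw [abs_of_nonpos (by omega)]
          omega
        · rcases lt_trichotomy p.2 c.2 with h2 | h2 | h2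
          · refine ⟨(p.1, p.2 + 1), ?_, by simp⟩
            rw [abs_of_neg (a := p.2 - c.2) (by omega)] at hp
            simp only
            rw [abs_of_nonpos (a := p.2 + 1 - c.2) (by omega)]
            omega
          · rw [h1, h2] at hp
            simp at hp
            omega
          · refine ⟨(p.1, p.2 - 1), ?_, by simp⟩
            rw [abs_of_pos (a := p.2 - c.2) (by omega)] at hp
            simp only
            rw [abs_of_nonneg (a := p.2 - 1 - c.2) (by omega)]
            omega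
        · refine ⟨(p.1 - 1, p.2), ?_, by simp⟩
          rw [abs_of_pos (by omega)] at hp
          simp only
          rw [abs_of_nonneg (by omega)]
          omega
      have h1 := ih q hq
      have h2 := hu p q hpq
      have h3 : |u p - u c| ≤ |u p - u q| + |u q - u c| := abs_sub_le _ _ _
      push_cast
      linarith
  obtain ⟨n, hn⟩ : ∃ n : ℕ, |p.1 - c.1| + |p.2 - c.2| = n :=
    ⟨(|p.1 - c.1| + |p.2 - c.2|).toNat, by
      rw [Int.toNat_of_nonneg (by positivity)]⟩
  have := h n p hn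
  rw [hn]
  exact_mod_cast this

theorem smo_core {i : ℕ} {O : Set (ℤ × ℤ)} (hO : Sepd (qq i) O) {u : ℤ × ℤ → ℝ}
    (hu : Lip 3 u) {c : ℤ × ℤ} (hc : c ∈ O) : Cst (ss i + 3 + dd i) c (u c) (smo i O u) := by
  intro q hq
  have h1 : near (rho i) c q := near_mono hq (rho_ge i)
  rw [smo_in hO u hc h1, soft_small, add_zero]
  have h2 := lip_con hu (c := c) (p := q)
  have hs := ss_nonneg i
  have hd := dd_nonneg i
  have h3 : |q.1 - c.1| + |q.2 - c.2| ≤ 2 * (ss i + 3 + dd i) := by
    unfold near at hq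
    have h4 : |q.1 - c.1| ≤ ss i + 3 + dd i := by rw [abs_le]; omega
    have h5 : |q.2 - c.2| ≤ ss i + 3 + dd i := by rw [abs_le]; omega
    linarith
  have h4 : ((|q.1 - c.1| + |q.2 - c.2| : ℤ) : ℝ) ≤ 2 * ((ss i + 3 + dd i : ℤ) : ℝ) := by
    exact_mod_cast h3
  have h5 : (nrm (c - q) : ℝ) ≤ ((ss i + 3 + dd i : ℤ) : ℝ) := by
    have := near_nrm.mp hq
    exact_mod_cast this
  have h6 : tau i (c - q) ≥ 6 * ((ss i + 3 + dd i : ℤ) : ℝ) := by
    unfold tau
    rw [rho_eq]
    have h7 : ga i * ((((1 + 6 * 2 ^ (i + 1)) * (ss i + 3 + dd i) : ℤ) : ℝ)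
        - ((ss i + 3 + dd i : ℤ) : ℝ)) = 6 * ((ss i + 3 + dd i : ℤ) : ℝ) := by
      unfold ga
      push_cast
      have h8 : (1 / 2 : ℝ) ^ (i + 1) * 2 ^ (i + 1) = 1 := by
        rw [← mul_pow]; norm_num
      linear_combination (6 * ((ss i : ℝ) + 3 + dd i)) * h8
    have h9 : ga i * ((((1 + 6 * 2 ^ (i + 1)) * (ss i + 3 + dd i) : ℤ) : ℝ)
        - (nrm (c - q) : ℝ)) ≥ ga i * ((((1 + 6 * 2 ^ (i + 1)) * (ss i + 3 + dd i) : ℤ) : ℝ)
        - ((ss i + 3 + dd i : ℤ) : ℝ)) := by
      apply mul_le_mul_of_nonneg_left _ (ga_pos i).le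
      linarith
    linarith
  linarith

theorem dd_succ_ge (i : ℕ) : dd i + 2 * rho i ≤ dd (i + 1) := by
  have h1 := cc_ge i
  have h2 := rho_nonneg i
  have h3 := dd_nonneg i
  have e : dd (i + 1) = dd i + (cc i + 2) * (rho i + 1 + dd i) := rfl
  rw [e]
  nlinarith

theorem sm_spec {O : ℕ → Set (ℤ × ℤ)} (i : ℕ) (hO : ∀ k < i, Sepd (qq k) (O k)) :
    ∀ u : ℤ × ℤ → ℝ, Lip (2 + (1 / 2) ^ i) u → Lip 3 (sm O i u) ∧
      (∀ p, (∀ k < i, ∀ c ∈ O k, ¬ near (rho k) c p) → sm O i u p = u p) ∧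
      (∀ R p v, Cst R p v u → Cst (R - dd i) p v (sm O i u)) ∧
      ∀ k < i, ∀ c ∈ O k, ∃ v, Cst (ss k + 3) c v (sm O i u) := by
  induction i with
  | zero =>
    intro u hu
    refine ⟨?_, fun p _ => rfl, fun R p v h => ?_, fun k hk => by omega⟩
    · intro p q hpq
      have := hu p q hpq
      norm_num at this
      exact this
    · simpa [dd, sm] using h
  | succ i ih =>
    intro u hu
    have hOi := hO i (Nat.lt_succ_self i)
    have hl : Lip (2 + (1 / 2) ^ i) (smo i (O i) u) := by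
      have h1 := smo_lip hOi hu
      intro p q hpq
      have h2 := h1 p q hpq
      have h3 : (2 : ℝ) + (1 / 2) ^ (i + 1) + ga i = 2 + (1 / 2) ^ i := by
        unfold ga; rw [pow_succ]; ring
      linarith
    obtain ⟨h1, h2, h3, h4⟩ := ih (fun k hk => hO k (by omega)) _ hl
    refine ⟨h1, ?_, ?_, ?_⟩
    · intro p hp
      simp only [sm]
      rw [h2 p (fun k hk => hp k (by omega)), smo_out u (hp i (Nat.lt_succ_self i))]
    · intro R p v hv
      have h5 := h3 _ p v (smo_cst hOi hv)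
      intro q hq
      refine h5 q (near_mono hq ?_)
      have := dd_succ_ge i
      linarith
    · intro k hk c hc
      rcases Nat.lt_succ_iff_lt_or_eq.mp hk with hk | hk
      · exact h4 k hk c hc
      · subst hk
        have hl3 : Lip 3 u := by
          intro p q hpq
          have h5 := hu p q hpq
          have h6 : (1 / 2 : ℝ) ^ (k + 1) ≤ 1 := pow_le_one₀ (by norm_num) (by norm_num)
          linarith
        refine ⟨u c, ?_⟩
        have h5 := h3 _ c _ (smo_core hOi hl3 hc)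
        intro q hq
        exact h5 q (near_mono hq (by linarith))

/-- The stream function of level `j` (on corners; the corner `p` is the north-east corner of the
cell `p`). -/
noncomputable def psi (O : ℕ → Set (ℤ × ℤ)) (j : ℕ) (p : ℤ × ℤ) : ℤ :=
  ⌊sm O j (fun v => 2 * (v.2 : ℝ)) p⌋

theorem base_lip (i : ℕ) : Lip (2 + (1 / 2) ^ i) (fun v : ℤ × ℤ => 2 * (v.2 : ℝ)) := by
  intro p q hpq
  have h1 : (0 : ℝ) ≤ (1 / 2) ^ i := by positivity
  have h2 : |(p.2 : ℝ) - (q.2 : ℝ)| ≤ 1 := by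
    have h3 : |p.2 - q.2| ≤ 1 := by
      rw [abs_le]
      unfold adj at hpq
      omega
    exact_mod_cast h3
  have h4 : 2 * (p.2 : ℝ) - 2 * (q.2 : ℝ) = 2 * ((p.2 : ℝ) - (q.2 : ℝ)) := by ring
  simp only
  rw [h4, abs_mul, abs_of_pos (by norm_num : (0 : ℝ) < 2)]
  linarith

section
variable {O : ℕ → Set (ℤ × ℤ)} (hO : ∀ k, Sepd (qq k) (O k)) (j : ℕ)
include hO

theorem psi_lip {p q : ℤ × ℤ} (h : adj p q) : psi O j p ≤ psi O j q + 3 := by
  have h1 := (sm_spec j (fun k _ => hO k) _ (base_lip j)).1 p q h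
  unfold psi
  rw [abs_le] at h1
  have h2 : sm O j (fun v => 2 * (v.2 : ℝ)) p ≤ sm O j (fun v => 2 * (v.2 : ℝ)) q + 3 := by
    linarith
  calc ⌊sm O j (fun v => 2 * (v.2 : ℝ)) p⌋
      ≤ ⌊sm O j (fun v => 2 * (v.2 : ℝ)) q + 3⌋ := Int.floor_mono h2
    _ = ⌊sm O j (fun v => 2 * (v.2 : ℝ)) q⌋ + 3 := by
        rw [show (3 : ℝ) = ((3 : ℤ) : ℝ) by norm_num, Int.floor_add_intCast]

theorem psi_out {p : ℤ × ℤ} (h : ∀ k < j, ∀ c ∈ O k, ¬ near (rho k) c p) :
    psi O j p = 2 * p.2 := by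
  unfold psi
  rw [(sm_spec j (fun k _ => hO k) _ (base_lip j)).2.1 p h]
  rw [show 2 * (p.2 : ℝ) = ((2 * p.2 : ℤ) : ℝ) by push_cast; ring, Int.floor_intCast]

theorem psi_core {k : ℕ} (hk : k < j) {c : ℤ × ℤ} (hc : c ∈ O k) {p q : ℤ × ℤ}
    (hp : near (ss k + 3) c p) (hq : near (ss k + 3) c q) : psi O j p = psi O j q := by
  obtain ⟨v, hv⟩ := (sm_spec j (fun k _ => hO k) _ (base_lip j)).2.2.2 k hk c hc
  unfold psi
  rw [hv p hp, hv q hq]

end

end Pool.Agent.helper81.Lcl
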